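import Pool.Agent.H196.HK.KBC

/-! # HK project, task KB: final bounds -/

set_option autoImplicit false

noncomputable section

namespace Pool.Agent.H196.HK

open Pool.Agent.H998.HK
open MeasureTheory Filter Topology Set
open scoped ENNReal NNReal RealInnerProductSpace

theorem ff_one {κ : ℝ} {x y : E3} (hxy : ‖x‖ < ‖y‖) :
    ff κ ‖x‖ ‖y‖ (gg x y) 1 = ((yuk κ (x - y) : ℝ) : ℂ) := by
  have hq1 : qf ‖x‖ ‖y‖ (gg x y) 1 = ((‖x - y‖ ^ 2 : ℝ) : ℂ) := by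
    rw [@norm_sub_sq_real]
    rw [← gg_mul, qf]
    push_cast
    ring
  have hne : 0 < ‖x - y‖ := by
    rw [norm_pos_iff, sub_ne_zero]
    intro h
    rw [h] at hxy
    exact lt_irrefl _ hxy
  rw [ff, hq1, Phi_ofReal (by positivity), yuk]

theorem norm_two_pi_I (t : ℝ) : ‖(2 * Real.pi * Complex.I) * ((t : ℝ) : ℂ)‖ = 2 * Real.pi * |t| := by
  rw [norm_mul, norm_mul, norm_mul, Complex.norm_I, Complex.norm_real, Complex.norm_real,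
    Real.norm_eq_abs, Real.norm_eq_abs, abs_of_pos Real.pi_pos]
  simp

theorem caseA {κ : ℝ} {x y : E3} (hxy : ‖x‖ < ‖y‖) {ρ : ℝ} (hρ : 1 < ρ)
    (hs : ρ * ‖x‖ < ‖y‖) (m : ℕ) :
    ‖∮ z in C(0, ρ), ci κ ‖x‖ ‖y‖ (gg x y) m z‖ = 2 * Real.pi * |Km κ m x y| := by
  have hy : 0 < ‖y‖ := lt_of_le_of_lt (norm_nonneg x) hxy
  have hρ0 : 0 < ρ := by linarith
  have h1 := sum_tc (κ := κ) hy hρ0 hs hρ.ne' m
  have hd := ff_diffOn (κ := κ) (abs_gg_le x y) (norm_nonneg x) hs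
  rw [DifferentiableOn.circleIntegral_sub_inv_smul hd (by simpa using hρ), ff_one hxy,
    smul_eq_mul] at h1
  have h2 : (∮ z in C(0, ρ), ci κ ‖x‖ ‖y‖ (gg x y) m z) =
      (2 * Real.pi * Complex.I) * ((Km κ m x y : ℝ) : ℂ) := by
    rw [Km]
    push_cast at h1 ⊢
    linear_combination h1
  rw [h2, norm_two_pi_I]

theorem caseB {κ : ℝ} {x y : E3} (hy : 0 < ‖y‖) {ρ : ℝ} (hρ0 : 0 < ρ) (hρ : ρ < 1)
    (hs : ρ * ‖x‖ < ‖y‖) (m : ℕ) :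
    ‖∮ z in C(0, ρ), ci κ ‖x‖ ‖y‖ (gg x y) m z‖ =
      2 * Real.pi * |∑ j ∈ Finset.range m, tc κ j x y| := by
  have h1 := sum_tc (κ := κ) hy hρ0 hs hρ.ne m
  have hd := ff_diffOn (κ := κ) (abs_gg_le x y) (norm_nonneg x) hs
  have h0 : (∮ z in C(0, ρ), (z - 1)⁻¹ • ff κ ‖x‖ ‖y‖ (gg x y) z) = 0 := by
    refine DiffContOnCl.circleIntegral_eq_zero hρ0.le ?_
    have hd2 : DifferentiableOn ℂ (fun z => (z - 1)⁻¹ • ff κ ‖x‖ ‖y‖ (gg x y) z)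
        (Metric.closedBall 0 ρ) := by
      have hid : DifferentiableOn ℂ (fun z : ℂ => z - 1) (Metric.closedBall 0 ρ) := by fun_prop
      refine DifferentiableOn.smul (hid.inv fun z hz h => ?_) hd
      rw [mem_closedBall_zero_iff, sub_eq_zero.1 h, norm_one] at hz
      linarith
    exact hd2.diffContOnCl_ball subset_rfl
  rw [h0, zero_sub] at h1
  rw [← norm_neg, ← h1, norm_two_pi_I]

theorem Tr_eq {r s : ℝ} (hr : 0 < r) (hs : 0 < s) : Tr (s / r) = (r - s) ^ 2 / (r * s) := by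
  rw [Tr]; field_simp

theorem limit_bounds {C : ℝ} (hC : 0 < C) (hJ : ∀ T b : ℝ, 0 < T → 0 < b → b < 2 →
    J0 T b ≤ ENNReal.ofReal (C * E0 T b) ∧ J1 T b ≤ ENNReal.ofReal (C * E1 T b))
    {κ r s g : ℝ} (hκ : 0 ≤ κ) (hr : 0 < r) (hs : 0 < s) (hrs : r ≠ s)
    (hg : |g| < 1) (m : ℕ) {Z : ℝ} (hZ0 : 0 ≤ Z)
    (hZ : ∀ᶠ ρ in 𝓝[<] (s / r), ‖∮ z in C(0, ρ), ci κ r s g m z‖ = 2 * Real.pi * Z) :
    Z ≤ C * ((r / s) ^ m * (r * s) ^ (-(1 / 2 : ℝ)) * E0 ((r - s) ^ 2 / (r * s)) (1 - g)) ∧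
    √κ * Z ≤ C * ((r / s) ^ m * (r * s) ^ (-(1 / 2 : ℝ)) * s ^ (-(1 / 2 : ℝ)) *
      E1 ((r - s) ^ 2 / (r * s)) (1 - g)) := by
  have hpi := Real.pi_pos
  have hR : 0 < s / r := by positivity
  have hR1 : s / r ≠ 1 := by
    rw [Ne, div_eq_one_iff_eq hr.ne']
    exact hrs.symm
  have hT := Tr_pos hR hR1
  have hg1 := (abs_lt.1 hg).1
  have hg2 := (abs_lt.1 hg).2
  have hb1 : 0 < 1 - g := by linarith
  have hb2 : 0 < 2 - (1 - g) := by linarith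
  have hTc : ContinuousAt Tr (s / r) := by
    unfold Tr
    exact ContinuousAt.div (by fun_prop) (by fun_prop) hR.ne'
  have c1 : ∀ p : ℝ, ContinuousAt (fun ρ => Tr ρ ^ p) (s / r) := fun p =>
    hTc.rpow_const (Or.inl hT.ne')
  have c2 : ∀ p : ℝ, ContinuousAt (fun ρ => (1 + Tr ρ) ^ p) (s / r) := fun p =>
    (continuousAt_const.add hTc).rpow_const (Or.inl (add_pos one_pos hT).ne')
  have c3 : ContinuousAt (fun ρ : ℝ => (ρ ^ m)⁻¹) (s / r) :=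
    ContinuousAt.inv₀ (by fun_prop) (by positivity)
  have cE0 : ContinuousAt (fun ρ => E0 (Tr ρ) (1 - g)) (s / r) := by
    unfold E0
    exact ((c1 _).mul (c2 _)).mul continuousAt_const
  have cE1 : ContinuousAt (fun ρ => E1 (Tr ρ) (1 - g)) (s / r) := by
    unfold E1
    exact ((c1 _).mul (c2 _)).mul continuousAt_const
  have ev1 : ∀ᶠ ρ in 𝓝[<] (s / r), 0 < ρ ∧ ρ ≠ 1 ∧ ρ * r < s := by
    have a1 : ∀ᶠ ρ in 𝓝[<] (s / r), 0 < ρ := nhdsWithin_le_nhds (lt_mem_nhds hR)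
    have a2 : ∀ᶠ ρ in 𝓝[<] (s / r), ρ ≠ 1 := nhdsWithin_le_nhds (isOpen_ne.mem_nhds hR1)
    have a3 : ∀ᶠ ρ in 𝓝[<] (s / r), ρ < s / r := eventually_mem_nhdsWithin
    filter_upwards [a1, a2, a3] with ρ h1 h2 h3
    exact ⟨h1, h2, (lt_div_iff₀ hr).1 h3⟩
  have hE0 : 0 ≤ E0 (Tr (s / r)) (1 - g) := by unfold E0; positivity
  have hE1 : 0 ≤ E1 (Tr (s / r)) (1 - g) := by unfold E1; positivity
  have eRm : ((s / r) ^ m)⁻¹ = (r / s) ^ m := by rw [← inv_pow, inv_div]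
  have hpi3 := Real.pi_gt_three
  constructor
  · have lim : Tendsto (fun ρ => 2 * ((ρ ^ m)⁻¹ / (4 * Real.pi * √(r * s)) *
        (C * E0 (Tr ρ) (1 - g)))) (𝓝[<] (s / r))
        (𝓝 (2 * (((s / r) ^ m)⁻¹ / (4 * Real.pi * √(r * s)) * (C * E0 (Tr (s / r)) (1 - g))))) := by
      have : ContinuousAt (fun ρ => 2 * ((ρ ^ m)⁻¹ / (4 * Real.pi * √(r * s)) *
        (C * E0 (Tr ρ) (1 - g)))) (s / r) :=
        continuousAt_const.mul ((c3.div_const _).mul (continuousAt_const.mul cE0))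
      exact this.tendsto.mono_left nhdsWithin_le_nhds
    have h1 : 2 * Real.pi * Z ≤ _ := ge_of_tendsto lim (by
      filter_upwards [hZ, ev1] with ρ h1 h2
      rw [← h1]
      exact (real0 hC hJ hκ hr h2.1 h2.2.1 hg h2.2.2 m).1)
    rw [eRm] at h1
    rw [← Tr_eq hr hs]
    have e1 : (r * s) ^ (-(1 / 2 : ℝ)) = (√(r * s))⁻¹ := by
      rw [Real.rpow_neg (by positivity), Real.sqrt_eq_rpow]
    rw [e1]
    set W := C * ((r / s) ^ m * (√(r * s))⁻¹ * E0 (Tr (s / r)) (1 - g)) with hW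
    have hW0 : 0 ≤ W := by positivity
    have e2 : 2 * ((r / s) ^ m / (4 * Real.pi * √(r * s)) * (C * E0 (Tr (s / r)) (1 - g))) =
        W / (2 * Real.pi) := by
      rw [hW]
      have : √(r * s) ≠ 0 := (Real.sqrt_pos.2 (by positivity)).ne'
      field_simp
      ring
    rw [e2] at h1
    have h2 : W / (2 * Real.pi) ≤ W := div_le_self hW0 (by linarith)
    nlinarith
  · have cs : ContinuousAt (fun ρ : ℝ => √ρ) (s / r) := Real.continuous_sqrt.continuousAt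
    have cp : ContinuousAt (fun ρ : ℝ => (ρ * r * s) ^ (-(3 / 4 : ℝ))) (s / r) :=
      ContinuousAt.rpow_const (by fun_prop) (Or.inl (by positivity))
    have lim : Tendsto (fun ρ => 2 * ((ρ ^ m)⁻¹ * (√ρ * (√2 / (4 * Real.pi) *
        (ρ * r * s) ^ (-(3 / 4 : ℝ)))) * (C * E1 (Tr ρ) (1 - g)))) (𝓝[<] (s / r))
        (𝓝 (2 * (((s / r) ^ m)⁻¹ * (√(s / r) * (√2 / (4 * Real.pi) *
        ((s / r) * r * s) ^ (-(3 / 4 : ℝ)))) * (C * E1 (Tr (s / r)) (1 - g))))) := by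
      have : ContinuousAt (fun ρ => 2 * ((ρ ^ m)⁻¹ * (√ρ * (√2 / (4 * Real.pi) *
        (ρ * r * s) ^ (-(3 / 4 : ℝ)))) * (C * E1 (Tr ρ) (1 - g)))) (s / r) :=
        continuousAt_const.mul ((c3.mul (cs.mul (continuousAt_const.mul cp))).mul
          (continuousAt_const.mul cE1))
      exact this.tendsto.mono_left nhdsWithin_le_nhds
    have h1 : √κ * (2 * Real.pi * Z) ≤ _ := ge_of_tendsto lim (by
      filter_upwards [hZ, ev1] with ρ h1 h2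
      rw [← h1]
      exact (real0 hC hJ hκ hr h2.1 h2.2.1 hg h2.2.2 m).2)
    rw [eRm] at h1
    rw [← Tr_eq hr hs]
    have e0 : (s / r) * r * s = s ^ 2 := by field_simp
    have e1 : √(s / r) * (s ^ 2) ^ (-(3 / 4 : ℝ)) = (r * s) ^ (-(1 / 2 : ℝ)) * s ^ (-(1 / 2 : ℝ)) := by
      rw [Real.sqrt_div hs.le, Real.sqrt_eq_rpow, Real.sqrt_eq_rpow, ← Real.rpow_natCast s 2,
        ← Real.rpow_mul hs.le, Real.mul_rpow hr.le hs.le, div_eq_mul_inv, ← Real.rpow_neg hr.le,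
        mul_assoc (r ^ (-(1 / 2 : ℝ))), ← Real.rpow_add hs, mul_comm (s ^ (1 / 2 : ℝ)), mul_assoc,
        ← Real.rpow_add hs]
      norm_num
    rw [e0] at h1
    set W := C * ((r / s) ^ m * (r * s) ^ (-(1 / 2 : ℝ)) * s ^ (-(1 / 2 : ℝ)) *
      E1 (Tr (s / r)) (1 - g)) with hW
    have hW0 : 0 ≤ W := by positivity
    have e2 : 2 * ((r / s) ^ m * (√(s / r) * (√2 / (4 * Real.pi) * (s ^ 2) ^ (-(3 / 4 : ℝ)))) *
        (C * E1 (Tr (s / r)) (1 - g))) = √2 / (2 * Real.pi) * W := by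
      calc _ = √2 / (2 * Real.pi) * (C * ((r / s) ^ m * (√(s / r) * (s ^ 2) ^ (-(3 / 4 : ℝ))) *
          E1 (Tr (s / r)) (1 - g))) := by field_simp; ring
        _ = _ := by rw [e1, hW]; ring
    rw [e2] at h1
    have h2 : √2 ≤ 2 := by
      rw [Real.sqrt_le_left (by norm_num)]; norm_num
    have h3 : √2 / (2 * Real.pi) ≤ 1 := by
      rw [div_le_one (by positivity)]; linarith
    have h4 : √2 / (2 * Real.pi) * W ≤ 1 * W := mul_le_mul_of_nonneg_right h3 hW0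
    have h5 : 0 ≤ √κ * Z := by positivity
    nlinarith

/-- bounds of the kernel itself -/
theorem yuk_bounds {κ r s b D : ℝ} (hκ : 0 ≤ κ) (hr : 0 < r) (hs : 0 < s) (hsr : s < r)
    (hb : 0 < b) (hb2 : b < 2) (hD : 0 < D) (hD2 : D ^ 2 = r * s * ((r - s) ^ 2 / (r * s) + 2 * b)) :
    yukR κ (D ^ 2) ≤ (r * s) ^ (-(1 / 2 : ℝ)) * E0 ((r - s) ^ 2 / (r * s)) b ∧
    √κ * yukR κ (D ^ 2) ≤ (r * s) ^ (-(1 / 2 : ℝ)) * s ^ (-(1 / 2 : ℝ)) *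
      E1 ((r - s) ^ 2 / (r * s)) b := by
  have hpi := Real.pi_pos
  have hpi3 := Real.pi_gt_three
  set T := (r - s) ^ 2 / (r * s) with hT
  have hT0 : 0 < T := by
    have : 0 < (r - s) ^ 2 := by have := sub_pos.2 hsr; positivity
    positivity
  have hrs : 0 < r * s := by positivity
  set S := T + 2 * b with hS
  have hS0 : 0 < S := by positivity
  have h2b : 0 < 2 - b := by linarith
  have yeq : yukR κ (D ^ 2) = Real.exp (-(κ * D)) / (4 * Real.pi * D) := by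
    rw [yukR, Real.sqrt_sq hD.le]
  -- elementary inequalities
  have k1 : T ≤ S := by rw [hS]; linarith
  have k2 : b * (1 + T) / 2 ≤ S := by rw [hS]; nlinarith
  have k3 : b ≤ S := by rw [hS]; linarith
  have r1 : ∀ {a c : ℝ} (p : ℝ), 0 < a → a ≤ c → 0 ≤ p → c ^ (-p) ≤ a ^ (-p) := fun p ha hac hp =>
    Real.rpow_le_rpow_of_nonpos ha hac (by linarith)
  have two1 : ∀ p : ℝ, 0 ≤ p → p ≤ 1 → (2 : ℝ) ^ p ≤ 2 := fun p _ hp => by
    calc (2 : ℝ) ^ p ≤ 2 ^ (1 : ℝ) := Real.rpow_le_rpow_of_exponent_le (by norm_num) hp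
      _ = 2 := Real.rpow_one 2
  have half : ∀ p : ℝ, 0 ≤ p → p ≤ 1 → (b * (1 + T) / 2) ^ (-p) ≤
      2 * (b ^ (-p) * (1 + T) ^ (-p)) := by
    intro p hp hp1
    rw [div_eq_mul_inv, Real.mul_rpow (by positivity) (by norm_num),
      Real.mul_rpow hb.le (by positivity)]
    have : ((2 : ℝ)⁻¹) ^ (-p) = 2 ^ p := by
      rw [Real.inv_rpow (by norm_num), Real.rpow_neg (by norm_num), inv_inv]
    rw [this, mul_comm]
    exact mul_le_mul_of_nonneg_right (two1 p hp hp1) (by positivity)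
  have hDsq : D = √(r * s) * √S := by
    rw [← Real.sqrt_mul hrs.le, ← hD2, Real.sqrt_sq hD.le]
  have e1 : (r * s) ^ (-(1 / 2 : ℝ)) = (√(r * s))⁻¹ := by
    rw [Real.rpow_neg hrs.le, Real.sqrt_eq_rpow]
  have eS : S ^ (-(1 / 2 : ℝ)) = (√S)⁻¹ := by
    rw [Real.rpow_neg hS0.le, Real.sqrt_eq_rpow]
  constructor
  · have a1 : S ^ (-(1 / 2 : ℝ)) ≤ 2 * E0 T b := by
      have : S ^ (-(1 / 2 : ℝ)) = S ^ (-(1 / 6 : ℝ)) * S ^ (-(1 / 3 : ℝ)) := by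
        rw [← Real.rpow_add hS0]; norm_num
      rw [this, E0]
      have b1 := r1 (1 / 6) hT0 k1 (by norm_num)
      have b2 := (r1 (1 / 3) (by positivity) k2 (by norm_num)).trans
        (half (1 / 3) (by norm_num) (by norm_num))
      have b3 : 0 ≤ (2 - b) ^ (-(1 / 3 : ℝ)) := by positivity
      calc S ^ (-(1 / 6 : ℝ)) * S ^ (-(1 / 3 : ℝ))
          ≤ T ^ (-(1 / 6 : ℝ)) * (2 * (b ^ (-(1 / 3 : ℝ)) * (1 + T) ^ (-(1 / 3 : ℝ)))) := by gcongr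
        _ = 2 * (T ^ (-(1 / 6 : ℝ)) * (1 + T) ^ (-(1 / 3 : ℝ)) * b ^ (-(1 / 3 : ℝ))) := by ring
        _ ≤ _ := by
            gcongr
            linarith
    have a2 : Real.exp (-(κ * D)) ≤ 1 := by
      rw [Real.exp_le_one_iff]
      have := mul_nonneg hκ hD.le
      linarith
    rw [yeq]
    calc Real.exp (-(κ * D)) / (4 * Real.pi * D) ≤ 1 / (4 * Real.pi * D) := by gcongr
      _ = (r * s) ^ (-(1 / 2 : ℝ)) * S ^ (-(1 / 2 : ℝ)) / (4 * Real.pi) := by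
          rw [hDsq, e1, eS]
          field_simp
      _ ≤ (r * s) ^ (-(1 / 2 : ℝ)) * (2 * E0 T b) / (4 * Real.pi) := by gcongr
      _ ≤ _ := by
          have : 0 ≤ (r * s) ^ (-(1 / 2 : ℝ)) * E0 T b := by unfold E0; positivity
          rw [div_le_iff₀ (by positivity)]
          nlinarith
  · have a1 : S ^ (-(3 / 4 : ℝ)) ≤ 4 * E1 T b := by
      have e3 : S ^ (-(3 / 4 : ℝ)) = S ^ (-(1 / 3 : ℝ)) * (S ^ (-(1 / 6 : ℝ)) * S ^ (-(1 / 4 : ℝ))) := by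
        rw [← Real.rpow_add hS0, ← Real.rpow_add hS0]; norm_num
      rw [e3, E1]
      have b1 := r1 (1 / 3) hT0 k1 (by norm_num)
      have b2 := (r1 (1 / 6) (by positivity) k2 (by norm_num)).trans
        (half (1 / 6) (by norm_num) (by norm_num))
      have b3 := r1 (1 / 4) hb k3 (by norm_num)
      have b4 : 0 ≤ (2 - b) ^ (-(2 / 3 : ℝ)) := by positivity
      have b5 : b ^ (-(1 / 6 : ℝ)) * b ^ (-(1 / 4 : ℝ)) ≤ 2 * b ^ (-(2 / 3 : ℝ)) := by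
        have : b ^ (-(1 / 6 : ℝ)) * b ^ (-(1 / 4 : ℝ)) = b ^ (1 / 4 : ℝ) * b ^ (-(2 / 3 : ℝ)) := by
          rw [← Real.rpow_add hb, ← Real.rpow_add hb]; norm_num
        rw [this]
        have : b ^ (1 / 4 : ℝ) ≤ 2 := (Real.rpow_le_rpow hb.le hb2.le (by norm_num)).trans
          (two1 (1 / 4) (by norm_num) (by norm_num))
        exact mul_le_mul_of_nonneg_right this (by positivity)
      calc S ^ (-(1 / 3 : ℝ)) * (S ^ (-(1 / 6 : ℝ)) * S ^ (-(1 / 4 : ℝ)))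
          ≤ T ^ (-(1 / 3 : ℝ)) * ((2 * (b ^ (-(1 / 6 : ℝ)) * (1 + T) ^ (-(1 / 6 : ℝ)))) *
              b ^ (-(1 / 4 : ℝ))) := by gcongr
        _ = 2 * (T ^ (-(1 / 3 : ℝ)) * (1 + T) ^ (-(1 / 6 : ℝ)) *
              (b ^ (-(1 / 6 : ℝ)) * b ^ (-(1 / 4 : ℝ)))) := by ring
        _ ≤ 2 * (T ^ (-(1 / 3 : ℝ)) * (1 + T) ^ (-(1 / 6 : ℝ)) * (2 * b ^ (-(2 / 3 : ℝ)))) := by gcongr
        _ = 4 * (T ^ (-(1 / 3 : ℝ)) * (1 + T) ^ (-(1 / 6 : ℝ)) * b ^ (-(2 / 3 : ℝ))) := by ring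
        _ ≤ _ := by
            gcongr
            linarith
    have a2 := sqrt_exp hκ hD
    have a3 : (√D)⁻¹ * D⁻¹ = (r * s) ^ (-(3 / 4 : ℝ)) * S ^ (-(3 / 4 : ℝ)) := by
      rw [← Real.mul_rpow hrs.le hS0.le, ← hD2, Real.sqrt_eq_rpow, ← Real.rpow_neg hD.le,
        ← Real.rpow_neg_one D, ← Real.rpow_add hD, ← Real.rpow_natCast D 2, ← Real.rpow_mul hD.le]
      norm_num
    have a4 : (r * s) ^ (-(3 / 4 : ℝ)) ≤ (r * s) ^ (-(1 / 2 : ℝ)) * s ^ (-(1 / 2 : ℝ)) := by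
      have : (r * s) ^ (-(3 / 4 : ℝ)) = (r * s) ^ (-(1 / 2 : ℝ)) * (r * s) ^ (-(1 / 4 : ℝ)) := by
        rw [← Real.rpow_add hrs]; norm_num
      rw [this]
      have h4 : (r * s) ^ (-(1 / 4 : ℝ)) ≤ (s ^ 2) ^ (-(1 / 4 : ℝ)) :=
        r1 (1 / 4) (by positivity) (by nlinarith) (by norm_num)
      have h5 : (s ^ 2) ^ (-(1 / 4 : ℝ)) = s ^ (-(1 / 2 : ℝ)) := by
        rw [← Real.rpow_natCast s 2, ← Real.rpow_mul hs.le]; norm_num
      rw [h5] at h4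
      gcongr
    rw [yeq]
    have hE : 0 ≤ E1 T b := by unfold E1; positivity
    calc √κ * (Real.exp (-(κ * D)) / (4 * Real.pi * D)) =
          (√κ * Real.exp (-(κ * D))) * D⁻¹ / (4 * Real.pi) := by field_simp
      _ ≤ (√D)⁻¹ * D⁻¹ / (4 * Real.pi) := by gcongr
      _ ≤ ((r * s) ^ (-(1 / 2 : ℝ)) * s ^ (-(1 / 2 : ℝ))) * (4 * E1 T b) / (4 * Real.pi) := by
          rw [a3]; gcongr
      _ ≤ _ := by
          have : 0 ≤ (r * s) ^ (-(1 / 2 : ℝ)) * s ^ (-(1 / 2 : ℝ)) * E1 T b := by positivity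
          rw [div_le_iff₀ (by positivity)]
          nlinarith

/-- **Task KB.** -/
theorem t_KB : S_J → S_KB := by
  rintro ⟨C, hC, hJ⟩
  refine ⟨C + 1, by linarith, fun κ m x y hκ hx hy hxy hb0 hb2 => ?_⟩
  have hbb : bb x y = 1 - gg x y := rfl
  have hTT : TT x y = (‖x‖ - ‖y‖) ^ 2 / (‖x‖ * ‖y‖) := rfl
  have hg : |gg x y| < 1 := by
    rw [hbb] at hb0 hb2
    rw [abs_lt]
    constructor <;> linarith
  have hE0 : TT x y ^ (-(1 / 6 : ℝ)) * (1 + TT x y) ^ (-(1 / 3 : ℝ)) *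
      (bb x y ^ (-(1 / 3 : ℝ)) + (2 - bb x y) ^ (-(1 / 3 : ℝ))) = E0 (TT x y) (bb x y) := rfl
  have hE1 : TT x y ^ (-(1 / 3 : ℝ)) * (1 + TT x y) ^ (-(1 / 6 : ℝ)) *
      (bb x y ^ (-(2 / 3 : ℝ)) + (2 - bb x y) ^ (-(2 / 3 : ℝ))) = E1 (TT x y) (bb x y) := rfl
  rw [hE0, hE1]
  have hTpos : 0 < TT x y := by
    rw [hTT]
    have : ‖x‖ - ‖y‖ ≠ 0 := sub_ne_zero.2 hxy
    positivity
  have h2b : 0 < 2 - bb x y := by linarith
  have hE0' : 0 ≤ E0 (TT x y) (bb x y) := by unfold E0; positivity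
  have hE1' : 0 ≤ E1 (TT x y) (bb x y) := by unfold E1; positivity
  rcases lt_or_gt_of_ne hxy with h | h
  · obtain ⟨h1, h2⟩ := limit_bounds hC hJ hκ hx hy hxy hg m (abs_nonneg (Km κ m x y)) (by
      have a1 : ∀ᶠ ρ in 𝓝[<] (‖y‖ / ‖x‖), 1 < ρ :=
        nhdsWithin_le_nhds (lt_mem_nhds ((one_lt_div hx).2 h))
      have a3 : ∀ᶠ ρ in 𝓝[<] (‖y‖ / ‖x‖), ρ < ‖y‖ / ‖x‖ := eventually_mem_nhdsWithin
      filter_upwards [a1, a3] with ρ h1 h3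
      exact caseA h h1 ((lt_div_iff₀ hx).1 h3) m)
    rw [← hTT, ← hbb] at h1 h2
    constructor
    · refine h1.trans (mul_le_mul_of_nonneg_right (by linarith) (by positivity))
    · refine h2.trans (mul_le_mul_of_nonneg_right (by linarith) (by positivity))
  · set Z := |∑ j ∈ Finset.range m, tc κ j x y| with hZ
    obtain ⟨h1, h2⟩ := limit_bounds hC hJ hκ hx hy hxy hg m (abs_nonneg _) (by
      have a1 : ∀ᶠ ρ in 𝓝[<] (‖y‖ / ‖x‖), 0 < ρ :=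
        nhdsWithin_le_nhds (lt_mem_nhds (by positivity))
      have a3 : ∀ᶠ ρ in 𝓝[<] (‖y‖ / ‖x‖), ρ < ‖y‖ / ‖x‖ := eventually_mem_nhdsWithin
      filter_upwards [a1, a3] with ρ h1 h3
      exact caseB hy h1 (h3.trans ((div_lt_one hx).2 h)) ((lt_div_iff₀ hx).1 h3) m)
    rw [← hTT, ← hbb] at h1 h2
    have hD : 0 < ‖x - y‖ := by
      rw [norm_pos_iff, sub_ne_zero]
      intro h'
      rw [h'] at h
      exact lt_irrefl _ h
    have hD2 : ‖x - y‖ ^ 2 = ‖x‖ * ‖y‖ * ((‖x‖ - ‖y‖) ^ 2 / (‖x‖ * ‖y‖) + 2 * bb x y) := by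
      rw [@norm_sub_sq_real, ← gg_mul, hbb]
      field_simp
      ring
    obtain ⟨y1, y2⟩ := yuk_bounds hκ hx hy h hb0 hb2 hD hD2
    rw [← hTT] at y1 y2
    have hm : 1 ≤ (‖x‖ / ‖y‖) ^ m := one_le_pow₀ ((one_lt_div hy).2 h).le
    have hK : |Km κ m x y| ≤ yukR κ (‖x - y‖ ^ 2) + Z := by
      rw [Km, yuk]
      have hy0 : 0 ≤ yukR κ (‖x - y‖ ^ 2) := by unfold yukR; positivity
      calc |yukR κ (‖x - y‖ ^ 2) - ∑ j ∈ Finset.range m, tc κ j x y| ≤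
            |yukR κ (‖x - y‖ ^ 2)| + |∑ j ∈ Finset.range m, tc κ j x y| := abs_sub _ _
        _ = _ := by rw [abs_of_nonneg hy0]
    constructor
    · have p : 0 ≤ (‖x‖ * ‖y‖) ^ (-(1 / 2 : ℝ)) * E0 (TT x y) (bb x y) := by positivity
      have := mul_le_mul_of_nonneg_right hm p
      calc |Km κ m x y| ≤ _ := hK
        _ ≤ (‖x‖ / ‖y‖) ^ m * ((‖x‖ * ‖y‖) ^ (-(1 / 2 : ℝ)) * E0 (TT x y) (bb x y)) +
            C * ((‖x‖ / ‖y‖) ^ m * (‖x‖ * ‖y‖) ^ (-(1 / 2 : ℝ)) * E0 (TT x y) (bb x y)) := by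
            linarith
        _ = _ := by ring
    · have p : 0 ≤ (‖x‖ * ‖y‖) ^ (-(1 / 2 : ℝ)) * ‖y‖ ^ (-(1 / 2 : ℝ)) * E1 (TT x y) (bb x y) := by
        positivity
      have := mul_le_mul_of_nonneg_right hm p
      calc √κ * |Km κ m x y| ≤ √κ * (yukR κ (‖x - y‖ ^ 2) + Z) :=
            mul_le_mul_of_nonneg_left hK (Real.sqrt_nonneg _)
        _ = √κ * yukR κ (‖x - y‖ ^ 2) + √κ * Z := by ring
        _ ≤ (‖x‖ / ‖y‖) ^ m * ((‖x‖ * ‖y‖) ^ (-(1 / 2 : ℝ)) * ‖y‖ ^ (-(1 / 2 : ℝ)) *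
              E1 (TT x y) (bb x y)) +
            C * ((‖x‖ / ‖y‖) ^ m * (‖x‖ * ‖y‖) ^ (-(1 / 2 : ℝ)) * ‖y‖ ^ (-(1 / 2 : ℝ)) *
              E1 (TT x y) (bb x y)) := by
            linarith
        _ = _ := by ring

end Pool.Agent.H196.HK
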