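import Pool.Agent.H196.HK.TaylorB

/-! # HK project, task KB: pointwise bounds on circles and the contour formula -/

set_option autoImplicit false

noncomputable section

namespace Pool.Agent.H196.HK

open Pool.Agent.H998.HK
open MeasureTheory Filter Topology Set
open scoped ENNReal NNReal RealInnerProductSpace

theorem qf_neg (r s g : ℝ) (z : ℂ) : qf r s (-g) (-z) = qf r s g z := by
  simp only [qf]; push_cast; ring

theorem re_lower {r s g ρ c σ : ℝ} (h : c ^ 2 + σ ^ 2 = 1) (hr : 0 ≤ ρ * r)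
    (hs : ρ * r < s) (hcg : g < c) :
    ‖qf r s g (ρ * (c + σ * Complex.I))‖ * ((1 + c) / 2) ≤
      ‖qf r s g (ρ * (c + σ * Complex.I))‖ + (qf r s g (ρ * (c + σ * Complex.I))).re := by
  have hre := qf_re r s g ρ c σ h
  have him := qf_im r s g ρ c σ h
  have hn : ‖qf r s g (ρ * (c + σ * Complex.I))‖ ^ 2 =
      (qf r s g (ρ * (c + σ * Complex.I))).re ^ 2 + (qf r s g (ρ * (c + σ * Complex.I))).im ^ 2 := by
    rw [Complex.sq_norm, Complex.normSq_apply]; ring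
  rw [him] at hn
  set n := ‖qf r s g (ρ * (c + σ * Complex.I))‖ with hndef
  set e := (qf r s g (ρ * (c + σ * Complex.I))).re with hedef
  have hn0 : 0 ≤ n := norm_nonneg _
  set a := ρ * r with ha
  have hs0 : 0 < s := lt_of_le_of_lt hr hs
  have hc1 : c ≤ 1 := by nlinarith [sq_nonneg σ]
  have hc2 : -1 ≤ c := by nlinarith [sq_nonneg σ]
  obtain ⟨Q, hQ⟩ : ∃ Q, Q = 2 * a * (a * c - s * g) := ⟨_, rfl⟩
  rw [← hQ] at hre hn
  have hP : 0 < s ^ 2 - a ^ 2 := by nlinarith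
  obtain ⟨P, hPdef⟩ : ∃ P, P = s ^ 2 - a ^ 2 := ⟨_, rfl⟩
  rw [← hPdef] at hre hP
  have hn' : n ^ 2 = P ^ 2 + 2 * P * Q * c + Q ^ 2 := by
    rw [hn, hre]
    linear_combination Q ^ 2 * h
  rcases le_or_gt 0 Q with hQ0 | hQ0
  · have key : c * n ≤ e := by
      rcases le_or_gt 0 c with hc0 | hc0
      · have he0 : 0 ≤ e := by rw [hre]; positivity
        refine abs_le_of_sq_le_sq' ?_ he0 |>.2
        rw [mul_pow, hn', hre]
        have : 0 ≤ (1 - c ^ 2) * (P ^ 2 + 2 * P * Q * c) :=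
          mul_nonneg (by nlinarith) (by positivity)
        nlinarith
      · rcases le_or_gt 0 e with he0 | he0
        · exact le_trans (by nlinarith) he0
        · have h1 : -e ≤ -(c * n) := by
            refine abs_le_of_sq_le_sq' ?_ (by nlinarith) |>.2
            rw [neg_sq, neg_sq, mul_pow, hn', hre]
            rw [hre] at he0
            have h2 : P + 2 * (Q * c) ≤ 0 := by nlinarith
            have : 0 ≤ (1 - c ^ 2) * (P * -(P + 2 * (Q * c))) :=
              mul_nonneg (by nlinarith) (mul_nonneg hP.le (by linarith))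
            nlinarith
          linarith
    nlinarith
  · have hac : a * c < s * g := by
      by_contra hcon
      push Not at hcon
      have : 0 ≤ 2 * a * (a * c - s * g) := mul_nonneg (by linarith) (by linarith)
      rw [← hQ] at this
      linarith
    have hc0 : 0 < c := by
      have : a * c < s * c := hac.trans (mul_lt_mul_of_pos_left hcg hs0)
      by_contra hcon
      push Not at hcon
      nlinarith
    have he0 : 0 ≤ e := by
      rw [hre, hQ, hPdef]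
      have h1 : 0 ≤ a * s * c * (c - g) := by
        have := sub_pos.2 hcg
        positivity
      have h2 : 0 ≤ (s - a) * (a * (1 - c ^ 2)) :=
        mul_nonneg (by linarith) (mul_nonneg hr (by nlinarith))
      have h3 : s ^ 2 - a ^ 2 + 2 * a * (a * c - s * g) * c =
          (s - a) ^ 2 + 2 * ((s - a) * (a * (1 - c ^ 2))) + 2 * (a * s * c * (c - g)) := by ring
      rw [h3]
      have h4 := sq_nonneg (s - a)
      linarith
    nlinarith

/-- the weight `2-u` or `u` -/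
def ww (g c : ℝ) : ℝ := if g < c then 1 + c else 1 - c

theorem re_lower' {r s g ρ c σ : ℝ} (h : c ^ 2 + σ ^ 2 = 1) (hr : 0 ≤ ρ * r)
    (hs : ρ * r < s) (hcg : c ≠ g) :
    ‖qf r s g (ρ * (c + σ * Complex.I))‖ * (ww g c / 2) ≤
      ‖qf r s g (ρ * (c + σ * Complex.I))‖ + (qf r s g (ρ * (c + σ * Complex.I))).re := by
  rcases lt_or_gt_of_ne hcg with h1 | h1
  · have h2 := re_lower (g := -g) (c := -c) (σ := -σ) (r := r) (s := s) (ρ := ρ) (by nlinarith) hr hs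
      (by linarith)
    have h3 : ((ρ : ℂ) * (((-c : ℝ) : ℂ) + ((-σ : ℝ) : ℂ) * Complex.I)) =
        -((ρ : ℂ) * (c + σ * Complex.I)) := by push_cast; ring
    rw [h3, qf_neg] at h2
    rw [ww, if_neg (by linarith)]
    exact h2
  · rw [ww, if_pos h1]
    exact re_lower h hr hs h1

/-- the pointwise bound of `ff` -/
theorem ff_bound0 {κ r s g ρ c σ : ℝ} (hκ : 0 ≤ κ) (hr : 0 < r) (hρ : 0 < ρ)
    (h : c ^ 2 + σ ^ 2 = 1) (hg : |g| ≤ 1) (hs : ρ * r < s) (hcg : c ≠ g) :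
    ‖ff κ r s g (ρ * (c + σ * Complex.I))‖ ≤ 1 / (4 * Real.pi * √(2 * (ρ * r) * s * |c - g|)) := by
  have hr0 : 0 ≤ ρ * r := by positivity
  have hs0 : 0 < s := lt_of_le_of_lt hr0 hs
  have hsl := qf_slit h hg hr0 hs
  have hcg' : 0 < |c - g| := abs_pos.2 (sub_ne_zero.2 hcg)
  have h1 := (qf_norm_ge h hg hr0 hs).2
  rw [ff, norm_Phi]
  set q := qf r s g (ρ * (c + σ * Complex.I)) with hq
  have h0 : q ≠ 0 := Complex.slitPlane_ne_zero hsl
  have h2 : √(2 * (ρ * r) * s * |c - g|) ≤ ‖sq q‖ := by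
    rw [Real.sqrt_le_left (norm_nonneg _), sq_normSq h0]
    exact h1
  have h3 : Real.exp (-(κ * (sq q).re)) ≤ 1 := by
    rw [Real.exp_le_one_iff]
    have := mul_nonneg hκ (sq_re_pos hsl).le
    linarith
  have h4 : 0 < √(2 * (ρ * r) * s * |c - g|) := Real.sqrt_pos.2 (by positivity)
  have hpi := Real.pi_pos
  gcongr

theorem sqrt_exp {κ X : ℝ} (hκ : 0 ≤ κ) (hX : 0 < X) : √κ * Real.exp (-(κ * X)) ≤ (√X)⁻¹ := by
  rw [← one_div, le_div_iff₀ (Real.sqrt_pos.2 hX)]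
  have h1 : √κ * Real.exp (-(κ * X)) * √X = √(κ * X) * Real.exp (-(κ * X)) := by
    rw [Real.sqrt_mul hκ]; ring
  rw [h1, Real.exp_neg, ← div_eq_mul_inv, div_le_one (Real.exp_pos _)]
  have h2 : 0 ≤ κ * X := by positivity
  have h3 : √(κ * X) ≤ κ * X + 1 := by
    rw [Real.sqrt_le_left (by linarith)]
    nlinarith
  exact h3.trans (Real.add_one_le_exp _)

theorem ff_bound1 {κ r s g ρ c σ : ℝ} (hκ : 0 ≤ κ) (hr : 0 < r) (hρ : 0 < ρ)
    (h : c ^ 2 + σ ^ 2 = 1) (hg : |g| ≤ 1) (hs : ρ * r < s) (hcg : c ≠ g) (hw : 0 < ww g c) :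
    √κ * ‖ff κ r s g (ρ * (c + σ * Complex.I))‖ ≤
      √2 / (4 * Real.pi) * ((ρ * r * s) ^ (-(3 / 4 : ℝ)) * ((√(2 * |c - g|))⁻¹ *
        (ww g c * |c - g|) ^ (-(1 / 4 : ℝ)))) := by
  have hr0 : 0 < ρ * r := by positivity
  have hs0 : 0 < s := lt_trans hr0 hs
  have hsl := qf_slit h hg hr0.le hs
  have hd : 0 < |c - g| := abs_pos.2 (sub_ne_zero.2 hcg)
  have h1 := (qf_norm_ge h hg hr0.le hs).2
  have h2 := re_lower' (g := g) h hr0.le hs hcg
  rw [ff, norm_Phi]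
  set q := qf r s g (ρ * (c + σ * Complex.I)) with hq
  have h0 : q ≠ 0 := Complex.slitPlane_ne_zero hsl
  have hX := sq_re_pos hsl
  have hX2 := sq_re_sq h0
  have hqn := sq_normSq h0
  set X := (sq q).re with hXdef
  set n := ‖sq q‖ with hn
  have hn0 : 0 < n := norm_pos_iff.2 (sq_ne_zero q)
  set w := ww g c with hwdef
  set d := |c - g| with hddef
  -- X ≥ n √w / 2
  have hXl : n * √w / 2 ≤ X := by
    refine abs_le_of_sq_le_sq' ?_ hX.le |>.2
    rw [hX2, div_pow, mul_pow, hqn, Real.sq_sqrt hw.le]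
    linarith
  have h3 := sqrt_exp hκ hX
  have hpi := Real.pi_pos
  have hD : 0 < 2 * (ρ * r) * s * d := by positivity
  have hnl : √(2 * (ρ * r) * s * d) ≤ n := by
    rw [Real.sqrt_le_left hn0.le, hqn]
    exact h1
  have hnw : 0 < n * √w / 2 := by positivity
  have h4 : (√X)⁻¹ ≤ (√(n * √w / 2))⁻¹ :=
    inv_anti₀ (Real.sqrt_pos.2 hnw) (Real.sqrt_le_sqrt hXl)
  calc √κ * (Real.exp (-(κ * X)) / (4 * Real.pi * n)) =
        (√κ * Real.exp (-(κ * X))) / (4 * Real.pi * n) := by ring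
    _ ≤ (√(n * √w / 2))⁻¹ / (4 * Real.pi * n) := by
        gcongr
        exact h3.trans h4
    _ = √2 / (4 * Real.pi) * (w ^ (-(1 / 4 : ℝ)) * (n ^ 2) ^ (-(3 / 4 : ℝ))) := by
        have e1 : (√(n * √w / 2))⁻¹ = √2 * (w ^ (-(1 / 4 : ℝ)) * (n ^ 2) ^ (-(1 / 4 : ℝ))) := by
          rw [Real.sqrt_div (by positivity), Real.sqrt_mul hn0.le, inv_div]
          rw [Real.sqrt_eq_rpow (√w), Real.sqrt_eq_rpow w, Real.sqrt_eq_rpow n,
            ← Real.rpow_mul hw.le, ← Real.rpow_natCast n 2, ← Real.rpow_mul hn0.le]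
          rw [div_eq_mul_inv, mul_inv, ← Real.rpow_neg hn0.le, ← Real.rpow_neg hw.le]
          norm_num
          ring
        have e2 : (n ^ 2) ^ (-(3 / 4 : ℝ)) = (n ^ 2) ^ (-(1 / 4 : ℝ)) * n⁻¹ := by
          rw [← Real.rpow_natCast n 2, ← Real.rpow_mul hn0.le, ← Real.rpow_mul hn0.le,
            ← Real.rpow_neg_one n, ← Real.rpow_add hn0]
          norm_num
        rw [e1, e2]
        field_simp
    _ ≤ √2 / (4 * Real.pi) * (w ^ (-(1 / 4 : ℝ)) * (2 * (ρ * r) * s * d) ^ (-(3 / 4 : ℝ))) := by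
        have : (n ^ 2) ^ (-(3 / 4 : ℝ)) ≤ (2 * (ρ * r) * s * d) ^ (-(3 / 4 : ℝ)) := by
          refine Real.rpow_le_rpow_of_nonpos hD ?_ (by norm_num)
          rw [hqn]
          exact h1
        gcongr
    _ ≤ √2 / (4 * Real.pi) * ((ρ * r * s) ^ (-(3 / 4 : ℝ)) * ((√(2 * d))⁻¹ *
        (w * d) ^ (-(1 / 4 : ℝ)))) := by
        have e3 : (2 * (ρ * r) * s * d) ^ (-(3 / 4 : ℝ)) =
            (ρ * r * s) ^ (-(3 / 4 : ℝ)) * (2 * d) ^ (-(3 / 4 : ℝ)) := by
          rw [← Real.mul_rpow (by positivity) (by positivity)]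
          congr 1; ring
        have e4 : (2 * d) ^ (-(3 / 4 : ℝ)) = (√(2 * d))⁻¹ * (2 * d) ^ (-(1 / 4 : ℝ)) := by
          rw [Real.sqrt_eq_rpow, ← Real.rpow_neg (by positivity), ← Real.rpow_add (by positivity)]
          norm_num
        have e5 : (2 * d) ^ (-(1 / 4 : ℝ)) ≤ d ^ (-(1 / 4 : ℝ)) :=
          Real.rpow_le_rpow_of_nonpos hd (by linarith) (by norm_num)
        rw [e3, e4, Real.mul_rpow hw.le hd.le]
        have hc : 0 ≤ √2 / (4 * Real.pi) := by positivity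
        refine mul_le_mul_of_nonneg_left ?_ hc
        have p1 : 0 ≤ w ^ (-(1 / 4 : ℝ)) := by positivity
        have p2 : 0 ≤ (ρ * r * s) ^ (-(3 / 4 : ℝ)) := by positivity
        have p3 : 0 ≤ (√(2 * d))⁻¹ := by positivity
        calc w ^ (-(1 / 4 : ℝ)) * ((ρ * r * s) ^ (-(3 / 4 : ℝ)) *
              ((√(2 * d))⁻¹ * (2 * d) ^ (-(1 / 4 : ℝ)))) =
              (w ^ (-(1 / 4 : ℝ)) * (ρ * r * s) ^ (-(3 / 4 : ℝ)) * (√(2 * d))⁻¹) *
                (2 * d) ^ (-(1 / 4 : ℝ)) := by ring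
          _ ≤ (w ^ (-(1 / 4 : ℝ)) * (ρ * r * s) ^ (-(3 / 4 : ℝ)) * (√(2 * d))⁻¹) *
                d ^ (-(1 / 4 : ℝ)) := mul_le_mul_of_nonneg_left e5 (by positivity)
          _ = _ := by ring

/-! ### The contour formula -/

/-- the integrand of the contour integral -/
def ci (κ r s g : ℝ) (m : ℕ) (z : ℂ) : ℂ := (z - 1)⁻¹ * ((z ^ m)⁻¹ * ff κ r s g z)

theorem ff_diffOn {κ r s g ρ : ℝ} (hg : |g| ≤ 1) (hr : 0 ≤ r) (hs : ρ * r < s) :
    DifferentiableOn ℂ (ff κ r s g) (Metric.closedBall 0 ρ) := by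
  intro z hz
  rw [mem_closedBall_zero_iff] at hz
  exact (ff_diff hg hr (lt_of_le_of_lt
    (mul_le_mul_of_nonneg_right hz hr) hs)).differentiableWithinAt

theorem sum_tc {κ : ℝ} {x y : E3} (hy : 0 < ‖y‖) {ρ : ℝ} (hρ : 0 < ρ)
    (hs : ρ * ‖x‖ < ‖y‖) (hρ1 : ρ ≠ 1) (m : ℕ) :
    (2 * Real.pi * Complex.I) * ((∑ j ∈ Finset.range m, tc κ j x y : ℝ) : ℂ) =
      (∮ z in C(0, ρ), (z - 1)⁻¹ • ff κ ‖x‖ ‖y‖ (gg x y) z) -
        ∮ z in C(0, ρ), ci κ ‖x‖ ‖y‖ (gg x y) m z := by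
  have hd := ff_diffOn (κ := κ) (abs_gg_le x y) (norm_nonneg x) hs
  set f := ff κ ‖x‖ ‖y‖ (gg x y) with hf
  have hcont : ContinuousOn f (Metric.sphere 0 ρ) :=
    hd.continuousOn.mono Metric.sphere_subset_closedBall
  have hz0 : ∀ z ∈ Metric.sphere (0 : ℂ) ρ, z ≠ 0 := by
    intro z hz h
    rw [mem_sphere_zero_iff_norm, h, norm_zero] at hz
    exact hρ.ne hz
  have hz1 : ∀ z ∈ Metric.sphere (0 : ℂ) ρ, z - 1 ≠ 0 := by
    intro z hz h
    rw [mem_sphere_zero_iff_norm, sub_eq_zero.1 h, norm_one] at hz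
    exact hρ1 hz.symm
  have c1 : ContinuousOn (fun z : ℂ => (z - 1)⁻¹) (Metric.sphere 0 ρ) :=
    ContinuousOn.inv₀ (by fun_prop) hz1
  have c2 : ContinuousOn (fun z : ℂ => (z ^ m)⁻¹) (Metric.sphere 0 ρ) :=
    ContinuousOn.inv₀ (by fun_prop) fun z hz => pow_ne_zero _ (hz0 z hz)
  have i1 : CircleIntegrable (fun z => (z - 1)⁻¹ • f z) 0 ρ :=
    (c1.smul hcont).circleIntegrable hρ.le
  have i2 : CircleIntegrable (fun z => ci κ ‖x‖ ‖y‖ (gg x y) m z) 0 ρ :=
    (c1.mul (c2.mul hcont)).circleIntegrable hρ.le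
  rw [← circleIntegral.integral_sub i1 i2]
  have h1 : ∀ j, ∮ z in C(0, ρ), (1 / (z - 0) ^ (j + 1)) • f z =
      (2 * Real.pi * Complex.I) * ((tc κ j x y : ℝ) : ℂ) := by
    intro j
    rw [DifferentiableOn.circleIntegral_one_div_sub_center_pow_smul hρ j hd, tc_eq κ j x y hy]
    have : (j.factorial : ℂ) ≠ 0 := by exact_mod_cast j.factorial_ne_zero
    rw [smul_eq_mul]
    field_simp
  have i3 : ∀ j, CircleIntegrable (fun z => (1 / (z - 0) ^ (j + 1)) • f z) 0 ρ := by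
    intro j
    have : ContinuousOn (fun z : ℂ => 1 / (z - 0) ^ (j + 1)) (Metric.sphere 0 ρ) :=
      ContinuousOn.div (by fun_prop) (by fun_prop) fun z hz => by
        rw [sub_zero]; exact pow_ne_zero _ (hz0 z hz)
    exact (this.smul hcont).circleIntegrable hρ.le
  push_cast
  rw [Finset.mul_sum]
  simp only [← h1]
  rw [← circleIntegral.integral_fun_sum fun j _ => i3 j]
  refine circleIntegral.integral_congr hρ.le fun z hz => ?_
  have a0 := hz0 z hz
  have a1 := hz1 z hz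
  simp only [sub_zero, smul_eq_mul, ci, ← hf]
  rw [← Finset.sum_mul]
  have h2 : ∑ j ∈ Finset.range m, 1 / z ^ (j + 1) = (z - 1)⁻¹ * (1 - (z ^ m)⁻¹) := by
    induction m with
    | zero => simp
    | succ m ih =>
      rw [Finset.sum_range_succ, ih (by
        exact ContinuousOn.inv₀ (by fun_prop) fun z hz => pow_ne_zero _ (hz0 z hz)) ((c1.mul ((ContinuousOn.inv₀ (by fun_prop) fun z hz => pow_ne_zero _ (hz0 z hz)).mul hcont)).circleIntegrable hρ.le)]
      field_simp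
      ring
  rw [h2]
  ring

end Pool.Agent.H196.HK
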