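import Pool.Agent.H196.HK.KBA

/-! # HK project, task KB: integration over circles -/

set_option autoImplicit false

noncomputable section

namespace Pool.Agent.H196.HK

open Pool.Agent.H998.HK
open MeasureTheory Filter Topology Set
open scoped ENNReal NNReal RealInnerProductSpace

/-- one half of the circle -/
theorem half_le {s : Set ℝ} (hs : MeasurableSet s) (hinj : InjOn (fun θ : ℝ => 1 - Real.cos θ) s)
    (hsin : ∀ θ ∈ s, Real.sin θ ≠ 0) {G E : ℝ → ℝ≥0∞} {b : ℝ}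
    (hE : ∀ θ ∈ s, 1 - Real.cos θ ≠ b → E θ ≤ G (1 - Real.cos θ)) :
    ∫⁻ θ in s, E θ ≤ ∫⁻ u in Ioo (0 : ℝ) 2, ENNReal.ofReal (1 / √(u * (2 - u))) * G u := by
  classical
  set Gh : ℝ → ℝ≥0∞ := fun u => if u = b then ∞ else ENNReal.ofReal (1 / √(u * (2 - u))) * G u
    with hGh
  have hsub : (fun θ : ℝ => 1 - Real.cos θ) '' s ⊆ Ioo 0 2 := by
    rintro _ ⟨θ, hθ, rfl⟩
    have h1 : 0 < Real.sin θ ^ 2 := by have := hsin θ hθ; positivity
    have h2 := Real.sin_sq_add_cos_sq θ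
    constructor
    · show 0 < 1 - Real.cos θ
      nlinarith
    · show 1 - Real.cos θ < 2
      nlinarith
  have hder : ∀ θ ∈ s, HasDerivWithinAt (fun θ : ℝ => 1 - Real.cos θ) (Real.sin θ) s θ := by
    intro θ _
    have := (Real.hasDerivAt_cos θ).const_sub 1
    rw [neg_neg] at this
    exact this.hasDerivWithinAt
  calc ∫⁻ θ in s, E θ ≤ ∫⁻ θ in s, ENNReal.ofReal |Real.sin θ| * Gh (1 - Real.cos θ) := by
        refine setLIntegral_mono' hs fun θ hθ => ?_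
        have h0 : 0 < |Real.sin θ| := abs_pos.2 (hsin θ hθ)
        by_cases hb : 1 - Real.cos θ = b
        · simp only [hGh, if_pos hb]
          rw [ENNReal.mul_top (by simpa using h0)]
          exact le_top
        · simp only [hGh, if_neg hb]
          rw [← mul_assoc, ← ENNReal.ofReal_mul (abs_nonneg _)]
          have h1 : (1 - Real.cos θ) * (2 - (1 - Real.cos θ)) = Real.sin θ ^ 2 := by
            have := Real.sin_sq_add_cos_sq θ
            nlinarith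
          rw [h1, Real.sqrt_sq_eq_abs, mul_one_div_cancel h0.ne', ENNReal.ofReal_one, one_mul]
          exact hE θ hθ hb
    _ = ∫⁻ u in (fun θ : ℝ => 1 - Real.cos θ) '' s, Gh u :=
        (lintegral_image_eq_lintegral_abs_deriv_mul hs hder hinj Gh).symm
    _ ≤ ∫⁻ u in Ioo (0 : ℝ) 2, Gh u := lintegral_mono_set hsub
    _ = ∫⁻ u in Ioo (0 : ℝ) 2, ENNReal.ofReal (1 / √(u * (2 - u))) * G u := by
        refine lintegral_congr_ae ?_
        have : ∀ᵐ u : ℝ, u ≠ b := by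
          rw [ae_iff]; simp
        filter_upwards [ae_restrict_of_ae this] with u hu
        simp only [hGh, if_neg hu]

theorem circle_le {F : ℂ → ℂ} {ρ : ℝ} (hρ : 0 < ρ) {G : ℝ → ℝ≥0∞} {b : ℝ}
    (hF : ∀ θ : ℝ, Real.sin θ ≠ 0 → 1 - Real.cos θ ≠ b →
      ENNReal.ofReal (ρ * ‖F (ρ * ((Real.cos θ : ℝ) + (Real.sin θ : ℝ) * Complex.I))‖) ≤
        G (1 - Real.cos θ)) :
    ENNReal.ofReal ‖∮ z in C(0, ρ), F z‖ ≤
      2 * ∫⁻ u in Ioo (0 : ℝ) 2, ENNReal.ofReal (1 / √(u * (2 - u))) * G u := by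
  have hpi := Real.pi_pos
  set E : ℝ → ℝ≥0∞ := fun θ =>
    ENNReal.ofReal (ρ * ‖F (ρ * ((Real.cos θ : ℝ) + (Real.sin θ : ℝ) * Complex.I))‖) with hE
  have h1 : ENNReal.ofReal ‖∮ z in C(0, ρ), F z‖ ≤ ∫⁻ θ in Ioc (0 : ℝ) (2 * Real.pi), E θ := by
    rw [circleIntegral, intervalIntegral.integral_of_le (by positivity), ofReal_norm]
    refine (enorm_integral_le_lintegral_enorm _).trans (le_of_eq ?_)
    congr 1
    funext θ
    rw [← ofReal_norm, norm_smul, deriv_circleMap, norm_mul, Complex.norm_I, mul_one]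
    have e1 : ‖circleMap 0 ρ θ‖ = ρ := by simp [abs_of_pos hρ]
    have e2 : circleMap 0 ρ θ = ρ * ((Real.cos θ : ℝ) + (Real.sin θ : ℝ) * Complex.I) := by
      rw [circleMap, zero_add, Complex.exp_mul_I]
      push_cast
      rfl
    rw [e1, e2]
  have h2 : ∫⁻ θ in Ioc (0 : ℝ) (2 * Real.pi), E θ ≤
      (∫⁻ θ in Ioo (0 : ℝ) Real.pi, E θ) + ∫⁻ θ in Ioo Real.pi (2 * Real.pi), E θ := by
    have hu : Ioc (0 : ℝ) (2 * Real.pi) = Ioc 0 Real.pi ∪ Ioc Real.pi (2 * Real.pi) :=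
      (Ioc_union_Ioc_eq_Ioc hpi.le (by linarith)).symm
    rw [hu]
    refine (lintegral_union_le _ _ _).trans (le_of_eq ?_)
    rw [setLIntegral_congr Ioo_ae_eq_Ioc.symm, setLIntegral_congr (Ioo_ae_eq_Ioc (a := Real.pi)).symm]
  refine h1.trans (h2.trans ?_)
  have k1 : ∫⁻ θ in Ioo (0 : ℝ) Real.pi, E θ ≤
      ∫⁻ u in Ioo (0 : ℝ) 2, ENNReal.ofReal (1 / √(u * (2 - u))) * G u := by
    refine half_le (b := b) measurableSet_Ioo ?_ ?_ ?_
    · intro θ hθ θ' hθ' h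
      have : Real.cos θ = Real.cos θ' := by simp only at h; linarith
      exact Real.injOn_cos (Ioo_subset_Icc_self hθ) (Ioo_subset_Icc_self hθ') this
    · intro θ hθ
      exact (Real.sin_pos_of_mem_Ioo hθ).ne'
    · intro θ hθ hb
      exact hF θ (Real.sin_pos_of_mem_Ioo hθ).ne' hb
  have k2 : ∫⁻ θ in Ioo Real.pi (2 * Real.pi), E θ ≤
      ∫⁻ u in Ioo (0 : ℝ) 2, ENNReal.ofReal (1 / √(u * (2 - u))) * G u := by
    have hsin : ∀ θ ∈ Ioo Real.pi (2 * Real.pi), Real.sin θ ≠ 0 := by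
      intro θ hθ
      have h3 : 0 < Real.sin (2 * Real.pi - θ) :=
        Real.sin_pos_of_mem_Ioo ⟨by linarith [hθ.2], by linarith [hθ.1]⟩
      rw [Real.sin_two_pi_sub] at h3
      linarith
    refine half_le (b := b) measurableSet_Ioo ?_ hsin ?_
    · intro θ hθ θ' hθ' h
      have h3 : Real.cos (2 * Real.pi - θ) = Real.cos (2 * Real.pi - θ') := by
        rw [Real.cos_two_pi_sub, Real.cos_two_pi_sub]
        simp only at h; linarith
      have := Real.injOn_cos ⟨by linarith [hθ.2], by linarith [hθ.1]⟩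
        ⟨by linarith [hθ'.2], by linarith [hθ'.1]⟩ h3
      linarith
    · intro θ hθ hb
      exact hF θ (hsin θ hθ) hb
  exact (add_le_add k1 k2).trans (le_of_eq (two_mul _).symm)

/-- the parameter `T` on the circle of radius `ρ` -/
def Tr (ρ : ℝ) : ℝ := (1 - ρ) ^ 2 / ρ

theorem norm_sub_one {ρ c σ : ℝ} (hρ : 0 < ρ) (h : c ^ 2 + σ ^ 2 = 1) :
    ‖(ρ : ℂ) * (c + σ * Complex.I) - 1‖ = √ρ * √(Tr ρ + 2 * (1 - c)) := by
  rw [← Real.sqrt_mul hρ.le]
  have e : ρ * (Tr ρ + 2 * (1 - c)) = (ρ * c - 1) ^ 2 + (ρ * σ) ^ 2 := by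
    rw [Tr]
    field_simp
    linear_combination (-ρ ^ 2) * h
  rw [e]
  have e1 : ((ρ : ℂ) * (c + σ * Complex.I) - 1).re = ρ * c - 1 := by simp
  have e2 : ((ρ : ℂ) * (c + σ * Complex.I) - 1).im = ρ * σ := by simp
  rw [Complex.norm_eq_sqrt_sq_add_sq, e1, e2]

end Pool.Agent.H196.HK
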