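import Pool.Agent.H196.HK.KBB

/-! # HK project, task KB: conclusion -/

set_option autoImplicit false

noncomputable section

namespace Pool.Agent.H196.HK

open Pool.Agent.H998.HK
open MeasureTheory Filter Topology Set
open scoped ENNReal NNReal RealInnerProductSpace

/-- the right-hand sides of `S_J` -/
def E0 (T b : ℝ) : ℝ := T ^ (-(1 / 6 : ℝ)) * (1 + T) ^ (-(1 / 3 : ℝ)) *
    (b ^ (-(1 / 3 : ℝ)) + (2 - b) ^ (-(1 / 3 : ℝ)))
def E1 (T b : ℝ) : ℝ := T ^ (-(1 / 3 : ℝ)) * (1 + T) ^ (-(1 / 6 : ℝ)) *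
    (b ^ (-(2 / 3 : ℝ)) + (2 - b) ^ (-(2 / 3 : ℝ)))

theorem Tr_pos {ρ : ℝ} (hρ : 0 < ρ) (hρ1 : ρ ≠ 1) : 0 < Tr ρ := by
  have : 0 < (1 - ρ) ^ 2 := by
    have : 1 - ρ ≠ 0 := sub_ne_zero.2 hρ1.symm
    positivity
  exact div_pos this hρ

theorem norm_z {ρ c σ : ℝ} (hρ : 0 < ρ) (h : c ^ 2 + σ ^ 2 = 1) :
    ‖(ρ : ℂ) * (c + σ * Complex.I)‖ = ρ := by
  have e1 : ((c : ℂ) + σ * Complex.I).re = c := by simp
  have e2 : ((c : ℂ) + σ * Complex.I).im = σ := by simp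
  rw [norm_mul, Complex.norm_real, Real.norm_of_nonneg hρ.le, Complex.norm_eq_sqrt_sq_add_sq, e1, e2,
    h, Real.sqrt_one, mul_one]

theorem contour0 {κ r s g ρ : ℝ} (hκ : 0 ≤ κ) (hr : 0 < r) (hρ : 0 < ρ) (hρ1 : ρ ≠ 1)
    (hg : |g| ≤ 1) (hs : ρ * r < s) (m : ℕ) :
    ENNReal.ofReal ‖∮ z in C(0, ρ), ci κ r s g m z‖ ≤
      2 * (ENNReal.ofReal ((ρ ^ m)⁻¹ / (4 * Real.pi * √(r * s))) * J0 (Tr ρ) (1 - g)) := by
  have hpi := Real.pi_pos
  have hs0 : 0 < s := lt_trans (by positivity) hs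
  refine (circle_le hρ (b := 1 - g) (G := fun u =>
    ENNReal.ofReal ((ρ ^ m)⁻¹ / (4 * Real.pi * √(r * s))) * ENNReal.ofReal
      (1 / (√(Tr ρ + 2 * u) * √(2 * |u - (1 - g)|)))) ?_).trans ?_
  · intro θ hsin hb
    have h := Real.cos_sq_add_sin_sq θ
    set c := Real.cos θ
    set σ := Real.sin θ
    have hcg : c ≠ g := fun h => hb (by rw [h])
    rw [← ENNReal.ofReal_mul (by positivity)]
    apply ENNReal.ofReal_le_ofReal
    rw [ci, norm_mul, norm_mul, norm_inv, norm_inv, norm_pow, norm_z hρ h, norm_sub_one hρ h]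
    have h1 := ff_bound0 (κ := κ) hκ hr hρ h hg hs hcg
    have hT := Tr_pos hρ hρ1
    have hc1 : c ≤ 1 := by nlinarith [sq_nonneg σ]
    have hT2 : 0 < Tr ρ + 2 * (1 - c) := by linarith
    have hd : 0 < |c - g| := abs_pos.2 (sub_ne_zero.2 hcg)
    have e1 : |1 - c - (1 - g)| = |c - g| := by
      rw [show 1 - c - (1 - g) = -(c - g) by ring, abs_neg]
    rw [e1]
    have e2 : √(2 * (ρ * r) * s * |c - g|) = √ρ * √(r * s) * √(2 * |c - g|) := by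
      rw [← Real.sqrt_mul hρ.le, ← Real.sqrt_mul (by positivity)]
      congr 1; ring
    rw [e2] at h1
    have p1 : 0 < √ρ := Real.sqrt_pos.2 hρ
    have p2 : 0 < √(Tr ρ + 2 * (1 - c)) := Real.sqrt_pos.2 hT2
    have p3 : 0 < √(2 * |c - g|) := Real.sqrt_pos.2 (by positivity)
    have p4 : 0 < √(r * s) := Real.sqrt_pos.2 (by positivity)
    calc ρ * ((√ρ * √(Tr ρ + 2 * (1 - c)))⁻¹ * ((ρ ^ m)⁻¹ *
          ‖ff κ r s g (ρ * (c + σ * Complex.I))‖))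
        ≤ ρ * ((√ρ * √(Tr ρ + 2 * (1 - c)))⁻¹ * ((ρ ^ m)⁻¹ *
          (1 / (4 * Real.pi * (√ρ * √(r * s) * √(2 * |c - g|)))))) := by gcongr
      _ = (ρ / (√ρ * √ρ)) * ((ρ ^ m)⁻¹ / (4 * Real.pi * √(r * s)) *
          (1 / (√(Tr ρ + 2 * (1 - c)) * √(2 * |c - g|)))) := by
          field_simp
      _ = _ := by rw [Real.mul_self_sqrt hρ.le, div_self hρ.ne', one_mul]
  · rw [J0, ← lintegral_const_mul' _ _ ENNReal.ofReal_ne_top]
    refine mul_le_mul_right (lintegral_mono fun u => le_of_eq ?_) _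
    rw [mul_left_comm, ← ENNReal.ofReal_mul (by positivity)]
    congr 2
    rw [one_div_mul_one_div, mul_assoc]

theorem contour1 {κ r s g ρ : ℝ} (hκ : 0 ≤ κ) (hr : 0 < r) (hρ : 0 < ρ) (hρ1 : ρ ≠ 1)
    (hg : |g| ≤ 1) (hs : ρ * r < s) (m : ℕ) :
    ENNReal.ofReal (√κ * ‖∮ z in C(0, ρ), ci κ r s g m z‖) ≤
      2 * (ENNReal.ofReal ((ρ ^ m)⁻¹ * (√ρ * (√2 / (4 * Real.pi) * (ρ * r * s) ^ (-(3 / 4 : ℝ))))) *
        J1 (Tr ρ) (1 - g)) := by
  have hpi := Real.pi_pos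
  have hs0 : 0 < s := lt_trans (by positivity) hs
  have e0 : √κ * ‖∮ z in C(0, ρ), ci κ r s g m z‖ =
      ‖∮ z in C(0, ρ), ((√κ : ℝ) : ℂ) * ci κ r s g m z‖ := by
    rw [circleIntegral.integral_const_mul, norm_mul, Complex.norm_real,
      Real.norm_of_nonneg (Real.sqrt_nonneg _)]
  rw [e0]
  refine (circle_le hρ (b := 1 - g) (G := fun u =>
    ENNReal.ofReal ((ρ ^ m)⁻¹ * (√ρ * (√2 / (4 * Real.pi) * (ρ * r * s) ^ (-(3 / 4 : ℝ))))) *
      ENNReal.ofReal (1 / (√(Tr ρ + 2 * u) * √(2 * |u - (1 - g)|)) *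
        ((if u < 1 - g then 2 - u else u) * |u - (1 - g)|) ^ (-(1 / 4 : ℝ)))) ?_).trans ?_
  · intro θ hsin hb
    have h := Real.cos_sq_add_sin_sq θ
    set c := Real.cos θ
    set σ := Real.sin θ
    have hcg : c ≠ g := fun h => hb (by rw [h])
    have hσ : 0 < σ ^ 2 := by positivity
    have hc1 : c < 1 := by nlinarith
    have hc2 : -1 < c := by nlinarith
    have hw : 0 < ww g c := by
      rw [ww]; split_ifs <;> linarith
    have hww : (if 1 - c < 1 - g then 2 - (1 - c) else 1 - c) = ww g c := by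
      rw [ww]
      by_cases h' : g < c
      · rw [if_pos (by linarith), if_pos h']; ring
      · rw [if_neg (by linarith), if_neg h']
    rw [← ENNReal.ofReal_mul (by positivity)]
    apply ENNReal.ofReal_le_ofReal
    rw [norm_mul, Complex.norm_real, Real.norm_of_nonneg (Real.sqrt_nonneg _)]
    rw [ci, norm_mul, norm_mul, norm_inv, norm_inv, norm_pow, norm_z hρ h, norm_sub_one hρ h, hww]
    have h1 := ff_bound1 (κ := κ) hκ hr hρ h hg hs hcg hw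
    have hT := Tr_pos hρ hρ1
    have hT2 : 0 < Tr ρ + 2 * (1 - c) := by linarith
    have hd : 0 < |c - g| := abs_pos.2 (sub_ne_zero.2 hcg)
    have e1 : |1 - c - (1 - g)| = |c - g| := by
      rw [show 1 - c - (1 - g) = -(c - g) by ring, abs_neg]
    rw [e1]
    have p1 : 0 < √ρ := Real.sqrt_pos.2 hρ
    have p2 : 0 < √(Tr ρ + 2 * (1 - c)) := Real.sqrt_pos.2 hT2
    have p3 : 0 < √(2 * |c - g|) := Real.sqrt_pos.2 (by positivity)
    have p5 : 0 ≤ (ρ * ((√ρ * √(Tr ρ + 2 * (1 - c)))⁻¹ * (ρ ^ m)⁻¹)) := by positivity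
    calc ρ * (√κ * ((√ρ * √(Tr ρ + 2 * (1 - c)))⁻¹ * ((ρ ^ m)⁻¹ *
          ‖ff κ r s g (ρ * (c + σ * Complex.I))‖)))
        = (ρ * ((√ρ * √(Tr ρ + 2 * (1 - c)))⁻¹ * (ρ ^ m)⁻¹)) *
          (√κ * ‖ff κ r s g (ρ * (c + σ * Complex.I))‖) := by ring
      _ ≤ (ρ * ((√ρ * √(Tr ρ + 2 * (1 - c)))⁻¹ * (ρ ^ m)⁻¹)) *
          (√2 / (4 * Real.pi) * ((ρ * r * s) ^ (-(3 / 4 : ℝ)) * ((√(2 * |c - g|))⁻¹ *
        (ww g c * |c - g|) ^ (-(1 / 4 : ℝ))))) := mul_le_mul_of_nonneg_left h1 p5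
      _ = (ρ / (√ρ * √ρ)) * ((ρ ^ m)⁻¹ * (√ρ * (√2 / (4 * Real.pi) * (ρ * r * s) ^ (-(3 / 4 : ℝ)))) *
          (1 / (√(Tr ρ + 2 * (1 - c)) * √(2 * |c - g|)) *
            (ww g c * |c - g|) ^ (-(1 / 4 : ℝ)))) := by
          field_simp
      _ = _ := by rw [Real.mul_self_sqrt hρ.le, div_self hρ.ne', one_mul]
  · rw [J1, ← lintegral_const_mul' _ _ ENNReal.ofReal_ne_top]
    refine mul_le_mul_right (lintegral_mono fun u => le_of_eq ?_) _
    rw [mul_left_comm, ← ENNReal.ofReal_mul (by positivity)]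
    congr 2
    rw [← mul_assoc, one_div_mul_one_div, mul_assoc (√(u * (2 - u)))]

/-- the parameters converge -/
theorem tendsto_Tr {R : ℝ} (hR : 0 < R) : Tendsto Tr (𝓝[<] R) (𝓝 (Tr R)) := by
  have : ContinuousAt Tr R := by
    unfold Tr
    exact ContinuousAt.div (by fun_prop) (by fun_prop) hR.ne'
  exact this.tendsto.mono_left nhdsWithin_le_nhds

/-- the integral bounds in real form -/
theorem real0 {C : ℝ} (hC : 0 < C) (hJ : ∀ T b : ℝ, 0 < T → 0 < b → b < 2 →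
    J0 T b ≤ ENNReal.ofReal (C * E0 T b) ∧ J1 T b ≤ ENNReal.ofReal (C * E1 T b))
    {κ r s g ρ : ℝ} (hκ : 0 ≤ κ) (hr : 0 < r) (hρ : 0 < ρ) (hρ1 : ρ ≠ 1)
    (hg : |g| < 1) (hs : ρ * r < s) (m : ℕ) :
    ‖∮ z in C(0, ρ), ci κ r s g m z‖ ≤
      2 * ((ρ ^ m)⁻¹ / (4 * Real.pi * √(r * s)) * (C * E0 (Tr ρ) (1 - g))) ∧
    √κ * ‖∮ z in C(0, ρ), ci κ r s g m z‖ ≤
      2 * ((ρ ^ m)⁻¹ * (√ρ * (√2 / (4 * Real.pi) * (ρ * r * s) ^ (-(3 / 4 : ℝ)))) *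
        (C * E1 (Tr ρ) (1 - g))) := by
  have hpi := Real.pi_pos
  have hs0 : 0 < s := lt_trans (by positivity) hs
  have hT := Tr_pos hρ hρ1
  have hg1 := (abs_lt.1 hg).1
  have hg2 := (abs_lt.1 hg).2
  have hb1 : 0 < 1 - g := by linarith
  have hb2 : 0 < 2 - (1 - g) := by linarith
  obtain ⟨hJ0, hJ1⟩ := hJ (Tr ρ) (1 - g) hT hb1 (by linarith)
  have hE0 : 0 ≤ E0 (Tr ρ) (1 - g) := by unfold E0; positivity
  have hE1 : 0 ≤ E1 (Tr ρ) (1 - g) := by unfold E1; positivity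
  constructor
  · have h1 := (contour0 hκ hr hρ hρ1 hg.le hs m).trans
      (mul_le_mul_right (mul_le_mul_right hJ0 _) _)
    have e : (2 : ℝ≥0∞) = ENNReal.ofReal 2 := by simp
    rw [e, ← ENNReal.ofReal_mul (by positivity), ← ENNReal.ofReal_mul (by positivity)] at h1
    exact (ENNReal.ofReal_le_ofReal_iff (by positivity)).1 h1
  · have h1 := (contour1 hκ hr hρ hρ1 hg.le hs m).trans
      (mul_le_mul_right (mul_le_mul_right hJ1 _) _)
    have e : (2 : ℝ≥0∞) = ENNReal.ofReal 2 := by simp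
    rw [e, ← ENNReal.ofReal_mul (by positivity), ← ENNReal.ofReal_mul (by positivity)] at h1
    exact (ENNReal.ofReal_le_ofReal_iff (by positivity)).1 h1

end Pool.Agent.H196.HK
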