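import Pool.Agent.H196.HK.L2H

/-! # HK project, task L2: the `L²` estimate (`S_BIL → S_L2`) -/

set_option autoImplicit false

noncomputable section

namespace Pool.Agent.H196.HK

open Pool.Agent.H998.HK
open MeasureTheory Filter Topology Set MvPolynomial
open scoped ENNReal NNReal RealInnerProductSpace

theorem nu_singleton (r : Ioi (0 : ℝ)) : nu {r} = 0 := by
  have : (Measure.comap ((↑) : Ioi (0 : ℝ) → ℝ) volume) {r} = 0 := by
    rw [(MeasurableEmbedding.subtype_coe measurableSet_Ioi).comap_apply, image_singleton]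
    simp
  exact withDensity_absolutelyContinuous _ _ this

theorem ae_ne : ∀ᵐ p : Ioi (0 : ℝ) × Ioi (0 : ℝ) ∂(nu.prod nu), (p.1 : ℝ) ≠ p.2 := by
  have hm : MeasurableSet {p : Ioi (0 : ℝ) × Ioi (0 : ℝ) | (p.1 : ℝ) ≠ p.2} := by
    have : Measurable fun p : Ioi (0 : ℝ) × Ioi (0 : ℝ) => (p.1 : ℝ) := by fun_prop
    have h2 : Measurable fun p : Ioi (0 : ℝ) × Ioi (0 : ℝ) => (p.2 : ℝ) := by fun_prop
    exact (measurableSet_eq_fun this h2).compl
  rw [Measure.ae_prod_iff_ae_ae hm]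
  refine Eventually.of_forall fun r => ?_
  rw [ae_iff]
  have : {s : Ioi (0 : ℝ) | ¬ ((r : ℝ) ≠ s)} = {r} := by
    ext s
    simp only [mem_ofPred_eq, not_not, mem_singleton_iff]
    constructor
    · intro h; exact Subtype.ext h.symm
    · intro h; rw [h]
  rw [this]
  exact nu_singleton r

/-- the truncated `1/r` -/
def hh (r0 : ℝ) (r : Ioi (0 : ℝ)) : ℝ := if (r : ℝ) ≤ r0 then (r : ℝ)⁻¹ else 0

theorem hh_meas (r0 : ℝ) : Measurable (hh r0) := by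
  unfold hh
  refine Measurable.ite ?_ (by fun_prop) measurable_const
  exact measurableSet_le (by fun_prop) measurable_const

theorem hh_lint {r0 : ℝ} (hr0 : 0 < r0) :
    ∫⁻ r, ENNReal.ofReal (hh r0 r ^ 2) ∂nu = ENNReal.ofReal r0 := by
  have hm : Measurable fun r : Ioi (0 : ℝ) => ENNReal.ofReal (hh r0 r ^ 2) :=
    ((hh_meas r0).pow_const 2).ennreal_ofReal
  rw [show nu = (Measure.comap ((↑) : Ioi (0 : ℝ) → ℝ) volume).withDensity
      fun r : Ioi (0 : ℝ) => ENNReal.ofReal ((r : ℝ) ^ 2) from rfl,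
    lintegral_withDensity_eq_lintegral_mul _ (by fun_prop) hm]
  have e : ∀ r : Ioi (0 : ℝ), ((fun r : Ioi (0 : ℝ) => ENNReal.ofReal ((r : ℝ) ^ 2)) *
      fun r => ENNReal.ofReal (hh r0 r ^ 2)) r =
      (Iic r0).indicator (fun _ => (1 : ℝ≥0∞)) (r : ℝ) := by
    intro r
    have hr : (0 : ℝ) < r := r.2
    simp only [Pi.mul_apply]
    rw [← ENNReal.ofReal_mul (by positivity)]
    unfold hh
    by_cases h : (r : ℝ) ≤ r0
    · rw [if_pos h, indicator_of_mem (show (r : ℝ) ∈ Iic r0 from h)]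
      have : (r : ℝ) ^ 2 * ((r : ℝ)⁻¹) ^ 2 = 1 := by field_simp
      rw [this, ENNReal.ofReal_one]
    · rw [if_neg h, indicator_of_notMem (show (r : ℝ) ∉ Iic r0 from h)]
      simp
  rw [lintegral_congr e]
  have h2 := lintegral_subtype_comap (μ := (volume : Measure ℝ)) measurableSet_Ioi
    (f := (Iic r0).indicator (fun _ => (1 : ℝ≥0∞))) (s := Ioi (0 : ℝ))
  rw [h2, lintegral_indicator measurableSet_Iic, Measure.restrict_restrict measurableSet_Iic]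
  have h3 : Iic r0 ∩ Ioi (0 : ℝ) = Ioc 0 r0 := by rw [inter_comm]; rfl
  rw [h3]
  simp

theorem hh_memLp {r0 : ℝ} (hr0 : 0 < r0) : MemLp (hh r0) 2 nu ∧ ∫ r, hh r0 r ^ 2 ∂nu = r0 := by
  have h1 : Integrable (fun r => hh r0 r ^ 2) nu := by
    refine ⟨((hh_meas r0).pow_const 2).aestronglyMeasurable, ?_⟩
    unfold HasFiniteIntegral
    have e : ∀ r, ‖hh r0 r ^ 2‖ₑ = ENNReal.ofReal (hh r0 r ^ 2) := fun r => by
      rw [← ofReal_norm, Real.norm_of_nonneg (sq_nonneg _)]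
    simp only [e]
    rw [hh_lint hr0]
    exact ENNReal.ofReal_lt_top
  refine ⟨(memLp_two_iff_integrable_sq (hh_meas r0).aestronglyMeasurable).2 h1, ?_⟩
  have h2 := ofReal_integral_eq_lintegral_ofReal h1 (Eventually.of_forall fun r => sq_nonneg _)
  rw [hh_lint hr0] at h2
  have h3 : 0 ≤ ∫ r, hh r0 r ^ 2 ∂nu := integral_nonneg fun _ => sq_nonneg _
  exact (ENNReal.ofReal_eq_ofReal_iff h3 hr0.le).1 h2

theorem KK_cont {κ r s : ℝ} (hκ : 0 ≤ κ) (hr : 0 < r) (hs : 0 < s) (hrs : r ≠ s) {a : Sph → ℝ}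
    (ha : Integrable a sg) (m : ℕ) : Continuous (KK κ r s m a) := by
  have : KK κ r s m a = fun w => YK κ r s a w - uM κ r s ha m w := by
    funext w; exact KK_eq hκ hr hs hrs ha m w
  rw [this]
  exact (YK_cont hκ hr hs hrs ha).sub (uM_cont κ r s ha m)

/-- the bound for one pair of radii -/
theorem pair_bd {κ r s : ℝ} (hκ : 0 < κ) (hr : 0 < r) (hs : 0 < s) (hrs : r ≠ s) (m : ℕ)
    (hm : 1 ≤ m) {f g : E3 → ℝ} (hf : MemLp (fun w : Sph => f (r • (w : E3))) 2 sg)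
    (hg : MemLp (fun w : Sph => g (s • (w : E3))) 2 sg)
    (hint : Integrable (fun q : Sph × Sph => f (r • (q.1 : E3)) *
      wK κ m (r • (q.1 : E3)) (s • (q.2 : E3)) * g (s • (q.2 : E3))) (sg.prod sg)) :
    |∫ q : Sph × Sph, f (r • (q.1 : E3)) * wK κ m (r • (q.1 : E3)) (s • (q.2 : E3)) *
      g (s • (q.2 : E3)) ∂(sg.prod sg)| ≤ 2 * AA / (κ * r * s) * NN2 f r * NN2 g s := by
  have hA := AA_pos
  have hg1 : Integrable (fun w : Sph => g (s • (w : E3))) sg := hg.integrable one_le_two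
  set W : ℝ := (s / r) ^ ((m : ℝ) + 1 / 4) with hW
  have hW0 : 0 < W := Real.rpow_pos_of_pos (by positivity) _
  set K := KK κ r s m (fun w : Sph => g (s • (w : E3))) with hK
  have hKc : Continuous K := KK_cont hκ.le hr hs hrs hg1 m
  have hKm : MemLp K 2 sg := by
    obtain ⟨B, hB⟩ := cont_bdd hKc
    exact MemLp.of_bound hKc.aestronglyMeasurable B (Eventually.of_forall hB)
  have e1 : ∫ q : Sph × Sph, f (r • (q.1 : E3)) * wK κ m (r • (q.1 : E3)) (s • (q.2 : E3)) *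
      g (s • (q.2 : E3)) ∂(sg.prod sg) = W * ∫ w : Sph, f (r • (w : E3)) * K w ∂sg := by
    rw [integral_prod _ hint, ← integral_const_mul]
    refine integral_congr_ae (Eventually.of_forall fun w => ?_)
    simp only [hK, KK]
    have e2 : ∀ w' : Sph, f (r • (w : E3)) * wK κ m (r • (w : E3)) (s • (w' : E3)) *
        g (s • (w' : E3)) = W * f (r • (w : E3)) *
          (Km κ m (r • (w : E3)) (s • (w' : E3)) * g (s • (w' : E3))) := by
      intro w'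
      simp only [wK]
      rw [norm_smul_sph hr, norm_smul_sph hs]
      ring
    simp only [e2]
    rw [integral_const_mul]
    ring
  rw [e1, abs_mul, abs_of_pos hW0]
  have h1 := cs hf hKm
  have h2 := main_sph hκ hr hs hrs hg m hm
  have hKn : 0 ≤ ∫ w, K w ^ 2 ∂sg := integral_nonneg fun _ => sq_nonneg _
  have h3 : W * √(∫ w, K w ^ 2 ∂sg) ≤ 2 * AA / (κ * r * s) * NN2 g s := by
    have h4 : (W * √(∫ w, K w ^ 2 ∂sg)) ^ 2 ≤ (2 * AA / (κ * r * s) * NN2 g s) ^ 2 := by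
      rw [mul_pow, mul_pow, Real.sq_sqrt hKn, NN2_sq]
      exact h2
    exact (abs_le_of_sq_le_sq' h4 (by unfold NN2; positivity)).2
  calc W * |∫ w : Sph, f (r • (w : E3)) * K w ∂sg|
      ≤ W * (√(∫ w : Sph, f (r • (w : E3)) ^ 2 ∂sg) * √(∫ w, K w ^ 2 ∂sg)) :=
        mul_le_mul_of_nonneg_left h1 hW0.le
    _ = NN2 f r * (W * √(∫ w, K w ^ 2 ∂sg)) := by unfold NN2; ring
    _ ≤ NN2 f r * (2 * AA / (κ * r * s) * NN2 g s) :=
        mul_le_mul_of_nonneg_left h3 (Real.sqrt_nonneg _)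
    _ = _ := by ring

/-- radial Cauchy-Schwarz -/
theorem rad {r0 : ℝ} (hr0 : 0 < r0) {f : E3 → ℝ} (hf : MemLp f 2) :
    Integrable (fun r : Ioi (0 : ℝ) => NN2 f r * hh r0 r) nu ∧
      |∫ r : Ioi (0 : ℝ), NN2 f r * hh r0 r ∂nu| ≤ √(∫ x, f x ^ 2) * √r0 := by
  obtain ⟨h1, h2⟩ := NN2_memLp hf
  obtain ⟨h3, h4⟩ := hh_memLp hr0
  refine ⟨h1.integrable_mul h3, ?_⟩
  have := cs h1 h3
  rwa [h2, h4] at this

theorem NN2_zero {r0 : ℝ} {f : E3 → ℝ} (hf0 : ∀ x, r0 < ‖x‖ → f x = 0) {r : ℝ} (hr : 0 < r)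
    (h : r0 < r) : NN2 f r = 0 := by
  unfold NN2
  have : ∀ w : Sph, f (r • (w : E3)) = 0 := fun w => hf0 _ (by rw [norm_smul_sph hr]; exact h)
  simp [this]

theorem t_L2 : S_BIL → S_L2 := by
  intro hBIL
  refine ⟨2 * AA, by have := AA_pos; positivity, ?_⟩
  intro κ m ρ r0 hκ hm hρ hρr f g hf hg hf0 hg0
  have hr0 : 0 < r0 := hρ.trans hρr
  have hA := AA_pos
  have hf1 : ∀ x, r0 < ‖x‖ → f x = 0 := fun x hx => hf0 x (Or.inr hx)
  have hg1 : ∀ x, r0 < ‖x‖ → g x = 0 := fun x hx => hg0 x (Or.inr hx)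
  set Φ : E3 × E3 → ℝ := fun z => f z.1 * wK κ m z.1 z.2 * g z.2 with hΦ
  have hΦi : Integrable Φ ((volume : Measure E3).prod volume) :=
    Phi_int hBIL hκ.le m hr0 hf hg hf1 hg1
  have e1 : ∫ x, ∫ y, f x * wK κ m x y * g y = ∫ z, Φ z ∂((volume : Measure E3).prod volume) :=
    (integral_prod _ hΦi).symm
  have hΨi : Integrable (Φ ∘ th) ((nu.prod nu).prod (sg.prod sg)) :=
    th_mp.integrable_comp_of_integrable hΦi
  have e2 : ∫ z, Φ z ∂((volume : Measure E3).prod volume) =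
      ∫ z, (Φ ∘ th) z ∂((nu.prod nu).prod (sg.prod sg)) := by
    rw [← th_mp.map_eq, integral_map th_mp.measurable.aemeasurable]
    · rfl
    · rw [th_mp.map_eq]; exact hΦi.1
  have e3 : ∫ z, (Φ ∘ th) z ∂((nu.prod nu).prod (sg.prod sg)) =
      ∫ p, ∫ q, (Φ ∘ th) (p, q) ∂(sg.prod sg) ∂(nu.prod nu) := integral_prod _ hΨi
  obtain ⟨if1, if2⟩ := rad hr0 hf
  obtain ⟨ig1, ig2⟩ := rad hr0 hg
  have hmaj : Integrable (fun p : Ioi (0 : ℝ) × Ioi (0 : ℝ) => 2 * AA / κ *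
      ((NN2 f p.1 * hh r0 p.1) * (NN2 g p.2 * hh r0 p.2))) (nu.prod nu) :=
    (if1.mul_prod ig1).const_mul _
  have hpt : ∀ᵐ p : Ioi (0 : ℝ) × Ioi (0 : ℝ) ∂(nu.prod nu),
      ‖∫ q, (Φ ∘ th) (p, q) ∂(sg.prod sg)‖ ≤ 2 * AA / κ *
        ((NN2 f p.1 * hh r0 p.1) * (NN2 g p.2 * hh r0 p.2)) := by
    have a1 : ∀ᵐ p : Ioi (0 : ℝ) × Ioi (0 : ℝ) ∂(nu.prod nu),
        MemLp (fun w : Sph => f ((p.1 : ℝ) • (w : E3))) 2 sg :=
      Measure.quasiMeasurePreserving_fst.ae (slice hf)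
    have a2 : ∀ᵐ p : Ioi (0 : ℝ) × Ioi (0 : ℝ) ∂(nu.prod nu),
        MemLp (fun w : Sph => g ((p.2 : ℝ) • (w : E3))) 2 sg :=
      Measure.quasiMeasurePreserving_snd.ae (slice hg)
    filter_upwards [a1, a2, ae_ne, hΨi.prod_right_ae] with p h1 h2 h3 h4
    have hp1 : (0 : ℝ) < p.1 := p.1.2
    have hp2 : (0 : ℝ) < p.2 := p.2.2
    have h5 := pair_bd hκ hp1 hp2 h3 m hm h1 h2 h4
    refine le_trans h5 (le_of_eq ?_)
    unfold hh
    by_cases c1 : (p.1 : ℝ) ≤ r0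
    · by_cases c2 : (p.2 : ℝ) ≤ r0
      · rw [if_pos c1, if_pos c2]
        field_simp
      · rw [NN2_zero hg1 hp2 (not_le.1 c2)]; ring
    · rw [NN2_zero hf1 hp1 (not_le.1 c1)]; ring
  rw [e1, e2, e3]
  have hfin : |∫ p, ∫ q, (Φ ∘ th) (p, q) ∂(sg.prod sg) ∂(nu.prod nu)| ≤
      2 * AA / κ * ((√(∫ x, f x ^ 2) * √r0) * (√(∫ x, g x ^ 2) * √r0)) := by
    rw [← Real.norm_eq_abs]
    refine (norm_integral_le_of_norm_le hmaj hpt).trans ?_
    rw [integral_const_mul]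
    refine mul_le_mul_of_nonneg_left ?_ (by positivity)
    have e4 : ∫ p : Ioi (0 : ℝ) × Ioi (0 : ℝ),
        (NN2 f p.1 * hh r0 p.1) * (NN2 g p.2 * hh r0 p.2) ∂(nu.prod nu) =
        (∫ r : Ioi (0 : ℝ), NN2 f r * hh r0 r ∂nu) * ∫ r : Ioi (0 : ℝ), NN2 g r * hh r0 r ∂nu :=
      integral_prod_mul (fun r : Ioi (0 : ℝ) => NN2 f r * hh r0 r)
        (fun r : Ioi (0 : ℝ) => NN2 g r * hh r0 r)
    rw [e4]
    refine (le_abs_self _).trans ?_
    rw [abs_mul]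
    exact mul_le_mul if2 ig2 (abs_nonneg _) (by positivity)
  calc κ * |∫ p, ∫ q, (Φ ∘ th) (p, q) ∂(sg.prod sg) ∂(nu.prod nu)|
      ≤ κ * (2 * AA / κ * ((√(∫ x, f x ^ 2) * √r0) * (√(∫ x, g x ^ 2) * √r0))) :=
        mul_le_mul_of_nonneg_left hfin hκ.le
    _ = 2 * AA * (√r0 * √r0) * √(∫ x, f x ^ 2) * √(∫ x, g x ^ 2) := by field_simp
    _ = _ := by rw [Real.mul_self_sqrt hr0.le]

end Pool.Agent.H196.HK
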