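import Mathlib

/-! # HK project, task L2: positivity of the Gram matrix of homogeneous components -/

set_option autoImplicit false

noncomputable section

namespace Pool.Agent.H196.HK

open MvPolynomial

section
variable {R : Type} [CommRing R]

/-- Laplacian of polynomials -/
def lap (P : MvPolynomial (Fin 3) R) : MvPolynomial (Fin 3) R := ∑ k, pderiv k (pderiv k P)

theorem lap_add (P Q : MvPolynomial (Fin 3) R) : lap (P + Q) = lap P + lap Q := by
  simp [lap, Finset.sum_add_distrib]

theorem lap_sum {ι : Type} (s : Finset ι) (P : ι → MvPolynomial (Fin 3) R) :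
    lap (∑ i ∈ s, P i) = ∑ i ∈ s, lap (P i) := by
  simp only [lap, map_sum]
  rw [Finset.sum_comm]

theorem lap_C_mul (a : R) (P : MvPolynomial (Fin 3) R) : lap (C a * P) = C a * lap P := by
  simp [lap, Finset.mul_sum]

theorem lap_mul (P Q : MvPolynomial (Fin 3) R) :
    lap (P * Q) = lap P * Q + P * lap Q + 2 * ∑ k, pderiv k P * pderiv k Q := by
  simp only [lap, pderiv_mul, map_add, Finset.sum_mul, Finset.mul_sum, ← Finset.sum_add_distrib]
  refine Finset.sum_congr rfl fun k _ => ?_
  ring

theorem pderiv_comm' (i j : Fin 3) (P : MvPolynomial (Fin 3) R) :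
    pderiv i (pderiv j P) = pderiv j (pderiv i P) := by
  ext m
  simp only [coeff_pderiv]
  by_cases h : i = j
  · subst h; rfl
  · rw [add_right_comm]
    simp only [Finsupp.add_apply, Finsupp.single_apply, if_neg h, if_neg (Ne.symm h)]
    ring_nf

theorem lap_pderiv (k : Fin 3) (P : MvPolynomial (Fin 3) R) : lap (pderiv k P) = pderiv k (lap P) := by
  simp only [lap, map_sum]
  refine Finset.sum_congr rfl fun j _ => ?_
  rw [pderiv_comm' j k P, pderiv_comm' j k (pderiv j P)]

end

/-- families of homogeneous polynomials with `Δ V_{j+2} = c V_j` -/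
structure Fam (c : ℝ) (V : ℕ → MvPolynomial (Fin 3) ℝ) : Prop where
  hom : ∀ j, (V j).IsHomogeneous j
  lap : ∀ j, lap (V (j + 2)) = C c * V j

theorem pderiv_hom_zero {P : MvPolynomial (Fin 3) ℝ} (h : P.IsHomogeneous 0) (k : Fin 3) :
    pderiv k P = 0 := by
  have : P = C (coeff 0 P) := by
    have := (totalDegree_zero_iff_isHomogeneous (p := P)).2 h
    exact (totalDegree_eq_zero_iff_eq_C.1 this)
  rw [this, pderiv_C]

theorem Fam.deriv {c : ℝ} {V : ℕ → MvPolynomial (Fin 3) ℝ} (h : Fam c V) (k : Fin 3) :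
    Fam c (fun j => pderiv k (V (j + 1))) where
  hom j := by simpa using (h.hom (j + 1)).pderiv (i := k)
  lap j := by
    show Pool.Agent.H196.HK.lap (pderiv k (V (j + 1 + 2))) = _
    rw [lap_pderiv, h.lap, pderiv_C_mul]

theorem Fam.lap_zero {c : ℝ} {V : ℕ → MvPolynomial (Fin 3) ℝ} (h : Fam c V) :
    Pool.Agent.H196.HK.lap (V 0) = 0 := by
  simp [Pool.Agent.H196.HK.lap, pderiv_hom_zero (h.hom 0)]

theorem Fam.lap_one {c : ℝ} {V : ℕ → MvPolynomial (Fin 3) ℝ} (h : Fam c V) :
    Pool.Agent.H196.HK.lap (V 1) = 0 := by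
  have h1 : ∀ k, (pderiv k (V 1)).IsHomogeneous 0 := fun k => by
    simpa using (h.hom 1).pderiv (i := k)
  simp [Pool.Agent.H196.HK.lap, pderiv_hom_zero (h1 _)]

/-- **The key positivity.** -/
theorem fam_pos (E : MvPolynomial (Fin 3) ℝ →ₗ[ℝ] ℝ)
    (hE : ∀ k P, E (pderiv k P) = E (X k * P)) (h1 : 0 ≤ E 1) {c : ℝ} (hc : 0 ≤ c) :
    ∀ (n : ℕ) (V : ℕ → MvPolynomial (Fin 3) ℝ), Fam c V → ∀ i j, i + j = n → 0 ≤ E (V i * V j) := by
  have hEC : ∀ (a : ℝ) (P : MvPolynomial (Fin 3) ℝ), E (C a * P) = a * E P := by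
    intro a P
    rw [C_mul', map_smul, smul_eq_mul]
  intro n
  induction n using Nat.strong_induction_on with
  | _ n ih =>
    intro V hV i j hij
    rcases Nat.eq_zero_or_pos n with hn | hn
    · subst hn
      have hi : i = 0 := by omega
      have hj : j = 0 := by omega
      subst hi; subst hj
      obtain ⟨a, ha⟩ : ∃ a, V 0 = C a := ⟨_, totalDegree_eq_zero_iff_eq_C.1
        ((totalDegree_zero_iff_isHomogeneous (p := V 0)).2 (hV.hom 0))⟩
      rw [ha, hEC]
      have : E (C a) = a * E 1 := by rw [← mul_one (C a), hEC]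
      rw [this, ← mul_assoc]
      exact mul_nonneg (mul_self_nonneg a) h1
    · have hF : (V i * V j).IsHomogeneous n := hij ▸ (hV.hom i).mul (hV.hom j)
      have e1 : (n : ℝ) * E (V i * V j) = E (Pool.Agent.H196.HK.lap (V i * V j)) := by
        rw [Pool.Agent.H196.HK.lap, map_sum]
        simp only [hE]
        rw [← map_sum, hF.sum_X_mul_pderiv, map_nsmul, nsmul_eq_mul]
      rw [lap_mul, map_add, map_add] at e1
      have a1 : 0 ≤ E (Pool.Agent.H196.HK.lap (V i) * V j) := by
        rcases i with _ | _ | i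
        · rw [hV.lap_zero, zero_mul, map_zero]
        · rw [hV.lap_one, zero_mul, map_zero]
        · rw [hV.lap, mul_assoc, hEC]
          exact mul_nonneg hc (ih (i + j) (by omega) V hV i j rfl)
      have a2 : 0 ≤ E (V i * Pool.Agent.H196.HK.lap (V j)) := by
        rcases j with _ | _ | j
        · rw [hV.lap_zero, mul_zero, map_zero]
        · rw [hV.lap_one, mul_zero, map_zero]
        · rw [hV.lap, mul_left_comm, hEC]
          exact mul_nonneg hc (ih (i + j) (by omega) V hV i j rfl)
      have a3 : 0 ≤ E (2 * ∑ k, pderiv k (V i) * pderiv k (V j)) := by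
        have e2 : 0 ≤ E (∑ k, pderiv k (V i) * pderiv k (V j)) := by
          rw [map_sum]
          refine Finset.sum_nonneg fun k _ => ?_
          rcases i with _ | i
          · rw [pderiv_hom_zero (hV.hom 0), zero_mul, map_zero]
          · rcases j with _ | j
            · rw [pderiv_hom_zero (hV.hom 0), mul_zero, map_zero]
            · exact ih (i + j) (by omega) _ (hV.deriv k) i j rfl
        rw [two_mul, map_add]
        exact add_nonneg e2 e2
      have hn' : (0 : ℝ) < n := by exact_mod_cast hn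
      have : 0 ≤ (n : ℝ) * E (V i * V j) := by
        rw [e1]; exact add_nonneg (add_nonneg a1 a2) a3
      exact nonneg_of_mul_nonneg_right this hn'

end Pool.Agent.H196.HK
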