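import Pool.Agent.H196.HK.L2A

/-! # HK project, task L2: the polynomials `tc` and their Laplacians -/

set_option autoImplicit false

noncomputable section

namespace Pool.Agent.H196.HK

open MvPolynomial

section
set_option linter.unusedSectionVars false

variable {R : Type} [CommRing R] [Algebra ℝ R]

/-- `|x|²` -/
def NN (R : Type) [CommRing R] : MvPolynomial (Fin 3) R := ∑ k, X k ^ 2
/-- `⟨x, y⟩` -/
def LL (y : Fin 3 → R) : MvPolynomial (Fin 3) R := ∑ k, C (y k) * X k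

theorem NN_hom : (NN R).IsHomogeneous 2 := by
  refine IsHomogeneous.sum _ _ _ fun k _ => ?_
  simpa using (isHomogeneous_X R k).pow 2

theorem LL_hom (y : Fin 3 → R) : (LL y).IsHomogeneous 1 := by
  refine IsHomogeneous.sum _ _ _ fun k _ => ?_
  simpa using (isHomogeneous_C (Fin 3) (y k)).mul (isHomogeneous_X R k)

theorem pderiv_NN (k : Fin 3) : pderiv k (NN R) = 2 * X k := by
  simp only [NN, map_sum, pderiv_pow, pderiv_X]
  rw [Finset.sum_eq_single k]
  · simp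
  · intro j _ hj
    simp [hj]
  · simp

theorem pderiv_LL (y : Fin 3 → R) (k : Fin 3) : pderiv k (LL y) = C (y k) := by
  simp only [LL, map_sum, pderiv_C_mul, pderiv_X]
  rw [Finset.sum_eq_single k]
  · simp
  · intro j _ hj
    simp [hj]
  · simp

theorem lap_NN : lap (NN R) = 6 := by
  simp only [lap, pderiv_NN]
  have : ∀ k : Fin 3, pderiv k (2 * X k : MvPolynomial (Fin 3) R) = 2 := by
    intro k
    have h2 : (2 : MvPolynomial (Fin 3) R) = C 2 := (map_ofNat C 2).symm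
    rw [h2, pderiv_C_mul, pderiv_X_self, mul_one]
  simp only [this, Finset.sum_const, Finset.card_univ, Fintype.card_fin]
  norm_num

theorem lap_NN_mul {P : MvPolynomial (Fin 3) R} {n : ℕ} (hP : P.IsHomogeneous n) :
    lap (NN R * P) = ((6 + 4 * n : ℕ) : MvPolynomial (Fin 3) R) * P + NN R * lap P := by
  rw [lap_mul, lap_NN]
  have h1 : ∑ k, pderiv k (NN R) * pderiv k P = 2 * ((n : MvPolynomial (Fin 3) R) * P) := by
    simp only [pderiv_NN, mul_assoc]
    rw [← Finset.mul_sum, hP.sum_X_mul_pderiv, nsmul_eq_mul]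
  rw [h1]
  push_cast
  ring

theorem lap_NL (y : Fin 3 → R) (p n : ℕ) : lap (NN R ^ (p + 1) * LL y ^ n) =
    ((2 * (p + 1) * (2 * p + 3 + 2 * n) : ℕ) : MvPolynomial (Fin 3) R) * (NN R ^ p * LL y ^ n) +
      NN R ^ (p + 1) * lap (LL y ^ n) := by
  have hL : (LL y ^ n).IsHomogeneous n := by simpa using (LL_hom y).pow n
  induction p with
  | zero =>
    rw [zero_add, pow_one, pow_zero, one_mul, lap_NN_mul hL]
    push_cast; ring
  | succ p ih =>
    have hP : (NN R ^ (p + 1) * LL y ^ n).IsHomogeneous (2 * (p + 1) + n) :=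
      ((NN_hom (R := R)).pow (p + 1)).mul hL
    have e : NN R ^ (p + 1 + 1) * LL y ^ n = NN R * (NN R ^ (p + 1) * LL y ^ n) := by ring
    rw [e, lap_NN_mul hP, ih]
    push_cast
    ring

theorem DL (y : Fin 3 → R) (n : ℕ) : ∑ k, C (y k) * pderiv k (LL y ^ (n + 1)) =
    ((n + 1 : ℕ) : MvPolynomial (Fin 3) R) * (C (∑ k, y k ^ 2) * LL y ^ n) := by
  have : ∀ k, C (y k) * pderiv k (LL y ^ (n + 1)) =
      ((n + 1 : ℕ) : MvPolynomial (Fin 3) R) * (C (y k ^ 2) * LL y ^ n) := by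
    intro k
    rw [pderiv_pow, pderiv_LL, Nat.add_sub_cancel, C_pow]
    ring
  simp only [this]
  rw [← Finset.mul_sum, ← Finset.sum_mul, map_sum]

theorem lap_LL (y : Fin 3 → R) : lap (LL y) = 0 := by
  simp [lap, pderiv_LL]

theorem lap_LL_pow (y : Fin 3 → R) (n : ℕ) : lap (LL y ^ (n + 2)) =
    (((n + 2) * (n + 1) : ℕ) : MvPolynomial (Fin 3) R) * (C (∑ k, y k ^ 2) * LL y ^ n) := by
  induction n with
  | zero =>
    have e : LL y ^ (0 + 2) = LL y * LL y ^ (0 + 1) := by ring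
    rw [e, lap_mul, lap_LL]
    simp only [pderiv_LL, DL y 0]
    rw [zero_add, pow_one, lap_LL]
    push_cast; ring
  | succ n ih =>
    have e : LL y ^ (n + 1 + 2) = LL y * LL y ^ (n + 1 + 1) := by ring
    rw [e, lap_mul, lap_LL]
    simp only [pderiv_LL, DL y (n + 1)]
    rw [show n + 1 + 1 = n + 2 from rfl, ih]
    push_cast
    ring

/-- coefficients -/
def gam (φ : ℕ → ℝ) (j p : ℕ) : ℝ :=
  φ (j - p) / ((p.factorial : ℝ) * ((j - 2 * p).factorial : ℝ)) * (-2) ^ (j - 2 * p)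

theorem gam_rel {φ : ℕ → ℝ} {σ c : ℝ}
    (hφ : ∀ N, 4 * σ * φ (N + 2) + (4 * N + 6) * φ (N + 1) = c * φ N) (j p : ℕ) (hp : 2 * p ≤ j) :
    gam φ (j + 2) (p + 1) * (2 * (p + 1) * (2 * p + 3 + 2 * ((j + 2 - 2 * (p + 1) : ℕ) : ℝ))) +
      gam φ (j + 2) p * ((((j - 2 * p + 2) * (j - 2 * p + 1) : ℕ) : ℝ) * σ) = c * gam φ j p := by
  obtain ⟨k, rfl⟩ : ∃ k, j = 2 * p + k := ⟨j - 2 * p, by omega⟩
  have e1 : 2 * p + k + 2 - 2 * (p + 1) = k := by omega
  have e2 : 2 * p + k - 2 * p = k := by omega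
  have e3 : 2 * p + k + 2 - 2 * p = k + 2 := by omega
  have e4 : 2 * p + k + 2 - (p + 1) = p + k + 1 := by omega
  have e5 : 2 * p + k + 2 - p = p + k + 2 := by omega
  have e6 : 2 * p + k - p = p + k := by omega
  rw [gam, gam, gam, e1, e2, e3, e4, e5, e6]
  have h := hφ (p + k)
  have f1 : ((p + 1).factorial : ℝ) = (p + 1) * p.factorial := by
    rw [Nat.factorial_succ]; push_cast; ring
  have f2 : ((k + 2).factorial : ℝ) = (k + 2) * ((k + 1) * k.factorial) := by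
    rw [Nat.factorial_succ, Nat.factorial_succ]; push_cast; ring
  have g1 : (p.factorial : ℝ) ≠ 0 := by exact_mod_cast p.factorial_ne_zero
  have g2 : (k.factorial : ℝ) ≠ 0 := by exact_mod_cast k.factorial_ne_zero
  have g3 : (p : ℝ) + 1 ≠ 0 := by positivity
  have g4 : (k : ℝ) + 1 ≠ 0 := by positivity
  have g5 : (k : ℝ) + 2 ≠ 0 := by positivity
  have h' : c * φ (p + k) = 4 * σ * φ (p + k + 2) + (4 * (p + k) + 6) * φ (p + k + 1) := by
    rw [← h]
    push_cast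
    ring
  rw [f1, f2, pow_add]
  push_cast
  field_simp
  linear_combination -h'

/-- the polynomial `x ↦ tc κ j x y` -/
def TT (φ : ℕ → ℝ) (y : Fin 3 → R) (j : ℕ) : MvPolynomial (Fin 3) R :=
  ∑ p ∈ Finset.range (j / 2 + 1), C (algebraMap ℝ R (gam φ j p)) * (NN R ^ p * LL y ^ (j - 2 * p))

theorem TT_hom (φ : ℕ → ℝ) (y : Fin 3 → R) (j : ℕ) : (TT φ y j).IsHomogeneous j := by
  refine IsHomogeneous.sum _ _ _ fun p hp => ?_
  rw [Finset.mem_range] at hp
  have h1 := (isHomogeneous_C (Fin 3) (algebraMap ℝ R (gam φ j p))).mul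
    (((NN_hom (R := R)).pow p).mul ((LL_hom y).pow (j - 2 * p)))
  have e : 0 + (2 * p + 1 * (j - 2 * p)) = j := by omega
  rwa [e] at h1

theorem lap_TT {φ : ℕ → ℝ} {σ c : ℝ}
    (hφ : ∀ N, 4 * σ * φ (N + 2) + (4 * N + 6) * φ (N + 1) = c * φ N) {y : Fin 3 → R}
    (hy : ∑ k, y k ^ 2 = algebraMap ℝ R σ) (j : ℕ) :
    lap (TT φ y (j + 2)) = C (algebraMap ℝ R c) * TT φ y j := by
  have hC : ∀ n : ℕ, (n : MvPolynomial (Fin 3) R) = C (algebraMap ℝ R n) := by
    intro n; simp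
  rw [TT, lap_sum]
  simp only [lap_C_mul]
  have e1 : (j + 2) / 2 + 1 = (j / 2 + 1) + 1 := by omega
  rw [e1]
  -- second part
  have s2 : ∀ p ∈ Finset.range (j / 2 + 1), lap (LL y ^ (j + 2 - 2 * p)) =
      C (algebraMap ℝ R ((((j - 2 * p + 2) * (j - 2 * p + 1) : ℕ) : ℝ) * σ)) *
        LL y ^ (j - 2 * p) := by
    intro p hp
    rw [Finset.mem_range] at hp
    have e : j + 2 - 2 * p = (j - 2 * p) + 2 := by omega
    rw [e, lap_LL_pow, hy, hC, ← mul_assoc, ← C_mul, ← map_mul]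
  have key : ∑ p ∈ Finset.range ((j / 2 + 1) + 1), C (algebraMap ℝ R (gam φ (j + 2) p)) *
      lap (NN R ^ p * LL y ^ (j + 2 - 2 * p)) =
      (∑ p ∈ Finset.range (j / 2 + 1), C (algebraMap ℝ R (gam φ (j + 2) (p + 1))) *
        (C (algebraMap ℝ R ((2 * (p + 1) * (2 * p + 3 + 2 * (j + 2 - 2 * (p + 1))) : ℕ) : ℝ)) *
          (NN R ^ p * LL y ^ (j + 2 - 2 * (p + 1))))) +
      ∑ p ∈ Finset.range ((j / 2 + 1) + 1), C (algebraMap ℝ R (gam φ (j + 2) p)) *
        (NN R ^ p * lap (LL y ^ (j + 2 - 2 * p))) := by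
    rw [Finset.sum_range_succ' _ (j / 2 + 1), Finset.sum_range_succ' (fun p =>
      C (algebraMap ℝ R (gam φ (j + 2) p)) * (NN R ^ p * lap (LL y ^ (j + 2 - 2 * p)))) (j / 2 + 1)]
    rw [← add_assoc, ← Finset.sum_add_distrib]
    congr 1
    · refine Finset.sum_congr rfl fun p _ => ?_
      rw [lap_NL, hC]
      ring
    · simp
  rw [key, Finset.sum_range_succ (fun p => C (algebraMap ℝ R (gam φ (j + 2) p)) *
        (NN R ^ p * lap (LL y ^ (j + 2 - 2 * p)))) (j / 2 + 1)]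
  have last : lap (LL y ^ (j + 2 - 2 * (j / 2 + 1))) = 0 := by
    rcases Nat.even_or_odd' j with ⟨k, hk | hk⟩
    · have : j + 2 - 2 * (j / 2 + 1) = 0 := by omega
      rw [this, pow_zero]
      simp [lap]
    · have : j + 2 - 2 * (j / 2 + 1) = 1 := by omega
      rw [this, pow_one, lap_LL]
  rw [last, mul_zero, mul_zero, add_zero, ← Finset.sum_add_distrib, TT, Finset.mul_sum]
  refine Finset.sum_congr rfl fun p hp => ?_
  rw [s2 p hp]
  rw [Finset.mem_range] at hp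
  have hp2 : 2 * p ≤ j := by omega
  have e2 : j + 2 - 2 * (p + 1) = j - 2 * p := by omega
  have hg := gam_rel hφ j p hp2
  have hg' := congrArg (fun t => (C (algebraMap ℝ R t) : MvPolynomial (Fin 3) R)) hg
  simp only [map_add, map_mul] at hg'
  rw [e2] at hg' ⊢
  push_cast at hg' ⊢
  simp only [map_add, map_mul] at hg' ⊢
  linear_combination (NN R ^ p * LL y ^ (j - 2 * p)) * hg'

theorem eval_TT (φ : ℕ → ℝ) (y : Fin 3 → R) (j : ℕ) (x : Fin 3 → ℝ) :
    eval (fun k => algebraMap ℝ R (x k)) (TT φ y j) =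
      ∑ p ∈ Finset.range (j / 2 + 1), algebraMap ℝ R (gam φ j p) *
        (algebraMap ℝ R (∑ k, x k ^ 2) ^ p * (∑ k, y k * algebraMap ℝ R (x k)) ^ (j - 2 * p)) := by
  simp [TT, NN, LL]

/-- apply a linear functional to the coefficients -/
def push (ℓ : R →ₗ[ℝ] ℝ) (P : MvPolynomial (Fin 3) R) : MvPolynomial (Fin 3) ℝ :=
  ∑ α ∈ P.support, monomial α (ℓ (coeff α P))

theorem coeff_push (ℓ : R →ₗ[ℝ] ℝ) (P : MvPolynomial (Fin 3) R) (α : Fin 3 →₀ ℕ) :
    coeff α (push ℓ P) = ℓ (coeff α P) := by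
  rw [push, coeff_sum]
  simp only [coeff_monomial]
  rw [Finset.sum_ite_eq']
  by_cases h : α ∈ P.support
  · rw [if_pos h]
  · rw [if_neg h, notMem_support_iff.1 h, map_zero]

theorem push_hom (ℓ : R →ₗ[ℝ] ℝ) {P : MvPolynomial (Fin 3) R} {n : ℕ} (h : P.IsHomogeneous n) :
    (push ℓ P).IsHomogeneous n := by
  intro α hα
  rw [coeff_push] at hα
  refine h fun h0 => hα ?_
  rw [h0, map_zero]

theorem push_pderiv (ℓ : R →ₗ[ℝ] ℝ) (P : MvPolynomial (Fin 3) R) (k : Fin 3) :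
    push ℓ (pderiv k P) = pderiv k (push ℓ P) := by
  ext m
  rw [coeff_push, coeff_pderiv, coeff_pderiv, coeff_push]
  have : coeff (m + Finsupp.single k 1) P * ((m k : R) + 1) =
      ((m k : ℝ) + 1) • coeff (m + Finsupp.single k 1) P := by
    rw [Algebra.smul_def, mul_comm]
    simp
  rw [this, map_smul, smul_eq_mul, mul_comm]

theorem push_add (ℓ : R →ₗ[ℝ] ℝ) (P Q : MvPolynomial (Fin 3) R) :
    push ℓ (P + Q) = push ℓ P + push ℓ Q := by
  ext m; simp [coeff_push]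

theorem push_zero (ℓ : R →ₗ[ℝ] ℝ) : push ℓ (0 : MvPolynomial (Fin 3) R) = 0 := by
  ext m; simp [coeff_push]

theorem push_sum {ι : Type} (ℓ : R →ₗ[ℝ] ℝ) (s : Finset ι) (P : ι → MvPolynomial (Fin 3) R) :
    push ℓ (∑ i ∈ s, P i) = ∑ i ∈ s, push ℓ (P i) := by
  classical
  induction s using Finset.induction_on with
  | empty => simp [push_zero]
  | insert a s ha ih => rw [Finset.sum_insert ha, Finset.sum_insert ha, push_add, ih]

theorem push_lap (ℓ : R →ₗ[ℝ] ℝ) (P : MvPolynomial (Fin 3) R) :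
    push ℓ (lap P) = lap (push ℓ P) := by
  simp only [lap, push_sum, push_pderiv]

theorem push_C_mul (ℓ : R →ₗ[ℝ] ℝ) (c : ℝ) (P : MvPolynomial (Fin 3) R) :
    push ℓ (C (algebraMap ℝ R c) * P) = C c * push ℓ P := by
  ext m
  rw [coeff_push, coeff_C_mul, coeff_C_mul, coeff_push, ← Algebra.smul_def, map_smul, smul_eq_mul]

theorem eval_push (ℓ : R →ₗ[ℝ] ℝ) (P : MvPolynomial (Fin 3) R) (x : Fin 3 → ℝ) :
    eval x (push ℓ P) = ℓ (eval (fun k => algebraMap ℝ R (x k)) P) := by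
  rw [push, map_sum, eval_eq', map_sum]
  refine Finset.sum_congr rfl fun α _ => ?_
  rw [eval_monomial, Finsupp.prod_fintype _ _ (fun _ => pow_zero _)]
  have : coeff α P * ∏ i, algebraMap ℝ R (x i) ^ α i = (∏ i, x i ^ α i) • coeff α P := by
    rw [Algebra.smul_def, mul_comm, map_prod]
    simp
  rw [this, map_smul, smul_eq_mul, mul_comm]

/-- the family of homogeneous components -/
theorem fam_push {φ : ℕ → ℝ} {σ c : ℝ}
    (hφ : ∀ N, 4 * σ * φ (N + 2) + (4 * N + 6) * φ (N + 1) = c * φ N) {y : Fin 3 → R}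
    (hy : ∑ k, y k ^ 2 = algebraMap ℝ R σ) (ℓ : R →ₗ[ℝ] ℝ) : Fam c (fun j => push ℓ (TT φ y j)) where
  hom j := push_hom ℓ (TT_hom φ y j)
  lap j := by
    show lap (push ℓ (TT φ y (j + 2))) = _
    rw [← push_lap, lap_TT hφ hy, push_C_mul]

end

end Pool.Agent.H196.HK
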