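import Pool.Agent.H196.HK.L2B
import Pool.Agent.H998.HK.Spec

/-! # HK project, task L2: polar coordinates, Gaussian functional, sphere positivity -/

set_option autoImplicit false

noncomputable section

namespace Pool.Agent.H196.HK

open Pool.Agent.H998.HK
open MeasureTheory Filter Topology Set MvPolynomial
open scoped ENNReal NNReal RealInnerProductSpace

/-- the unit sphere -/
abbrev Sph : Type := Metric.sphere (0 : E3) 1

/-- surface measure -/
abbrev sg : Measure Sph := (volume : Measure E3).toSphere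

/-- radial measure `r² dr` -/
abbrev nu : Measure (Ioi (0 : ℝ)) := Measure.volumeIoiPow 2

/-- polar coordinates -/
def pm (p : Sph × Ioi (0 : ℝ)) : E3 := (p.2 : ℝ) • (p.1 : E3)

theorem pm_eq : pm = fun p => (((homeomorphUnitSphereProd E3).symm p : ({0}ᶜ : Set E3)) : E3) := by
  funext p
  rw [homeomorphUnitSphereProd_symm_apply_coe]
  rfl

theorem pm_emb : MeasurableEmbedding pm := by
  rw [pm_eq]
  exact (MeasurableEmbedding.subtype_coe (measurableSet_singleton (0 : E3)).compl).comp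
    (Homeomorph.measurableEmbedding _)

theorem pm_mp : MeasurePreserving pm (sg.prod nu) (volume : Measure E3) := by
  have h := (volume : Measure E3).measurePreserving_homeomorphUnitSphereProd
  rw [finrank_euclideanSpace_fin] at h
  have h2 : MeasurePreserving (homeomorphUnitSphereProd E3).toMeasurableEquiv
      ((volume : Measure E3).comap ((↑) : ({0}ᶜ : Set E3) → E3)) (sg.prod nu) := h
  have h3 := h2.symm
  have h4 : MeasurePreserving ((↑) : ({0}ᶜ : Set E3) → E3)
      ((volume : Measure E3).comap ((↑) : ({0}ᶜ : Set E3) → E3)) (volume : Measure E3) := by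
    refine ⟨measurable_subtype_coe, ?_⟩
    rw [map_comap_subtype_coe (measurableSet_singleton (0 : E3)).compl,
      restrict_compl_singleton]
  have h5 := h4.comp h3
  rw [pm_eq]
  exact h5

/-- evaluation of a polynomial at a point of `ℝ³` -/
def ev (P : MvPolynomial (Fin 3) ℝ) (x : E3) : ℝ := eval (fun k => x k) P

theorem ev_smul {P : MvPolynomial (Fin 3) ℝ} {n : ℕ} (hP : P.IsHomogeneous n) (t : ℝ) (x : E3) :
    ev P (t • x) = t ^ n * ev P x := by
  rw [ev, ev, eval_eq', eval_eq', Finset.mul_sum]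
  refine Finset.sum_congr rfl fun α hα => ?_
  have h1 : ∑ i, α i = n := by
    have := hP (mem_support_iff.1 hα)
    rw [Finsupp.weight_apply, Finsupp.sum_fintype _ _ (by simp)] at this
    simpa using this
  have h2 : ∏ i, (t • x) i ^ α i = t ^ n * ∏ i, x i ^ α i := by
    rw [← h1, ← Finset.prod_pow_eq_pow_sum, ← Finset.prod_mul_distrib]
    refine Finset.prod_congr rfl fun i _ => ?_
    rw [PiLp.smul_apply, smul_eq_mul, mul_pow]
  rw [h2]; ring

theorem ev_add (P Q : MvPolynomial (Fin 3) ℝ) (x : E3) : ev (P + Q) x = ev P x + ev Q x := by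
  simp [ev]

theorem ev_mul (P Q : MvPolynomial (Fin 3) ℝ) (x : E3) : ev (P * Q) x = ev P x * ev Q x := by
  simp [ev]

theorem ev_hasFDerivAt (P : MvPolynomial (Fin 3) ℝ) (x : E3) :
    ∃ L : E3 →L[ℝ] ℝ, HasFDerivAt (ev P) L x ∧
      ∀ k, L (EuclideanSpace.single k (1 : ℝ)) = ev (pderiv k P) x := by
  induction P using MvPolynomial.induction_on with
  | C a =>
    refine ⟨0, ?_, fun k => by simp [ev]⟩
    have : ev (C a) = fun _ => a := by funext x; simp [ev]
    rw [this]
    exact hasFDerivAt_const a x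
  | add P Q hP hQ =>
    obtain ⟨L, hL, hL'⟩ := hP
    obtain ⟨M, hM, hM'⟩ := hQ
    refine ⟨L + M, ?_, fun k => ?_⟩
    · have : ev (P + Q) = fun x => ev P x + ev Q x := by funext x; rw [ev_add]
      rw [this]
      exact hL.add hM
    · rw [map_add, ev_add, ← hL', ← hM']
      rfl
  | mul_X P i hP =>
    obtain ⟨L, hL, hL'⟩ := hP
    have hX : HasFDerivAt (fun x : E3 => x i) (EuclideanSpace.proj i : E3 →L[ℝ] ℝ) x :=
      (EuclideanSpace.proj i : E3 →L[ℝ] ℝ).hasFDerivAt
    refine ⟨ev P x • (EuclideanSpace.proj i : E3 →L[ℝ] ℝ) + x i • L, ?_, fun k => ?_⟩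
    · have : ev (P * X i) = fun x => ev P x * x i := by funext x; simp [ev]
      rw [this]
      exact hL.mul hX
    · simp only [_root_.add_apply, _root_.smul_apply, hL', smul_eq_mul]
      rw [pderiv_mul, pderiv_X, ev_add, ev_mul, ev_mul]
      have e1 : ev (X i) x = x i := by simp [ev]
      rw [e1]
      by_cases h : k = i
      · subst h
        simp [ev]
        ring
      · have h1 : (Pi.single k (1 : MvPolynomial (Fin 3) ℝ) : Fin 3 → MvPolynomial (Fin 3) ℝ) i = 0 := by
          simp [Ne.symm h]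
        rw [h1]
        simp [ev, Ne.symm h]
        ring

theorem ev_differentiable (P : MvPolynomial (Fin 3) ℝ) : Differentiable ℝ (ev P) := fun x => by
  obtain ⟨L, hL, -⟩ := ev_hasFDerivAt P x
  exact hL.differentiableAt

theorem ev_fderiv (P : MvPolynomial (Fin 3) ℝ) (x : E3) (k : Fin 3) :
    fderiv ℝ (ev P) x (EuclideanSpace.single k (1 : ℝ)) = ev (pderiv k P) x := by
  obtain ⟨L, hL, hL'⟩ := ev_hasFDerivAt P x
  rw [hL.fderiv, hL']

/-- the Gaussian weight -/
def gw (x : E3) : ℝ := Real.exp (-(‖x‖ ^ 2 / 2))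

theorem gw_cont : Continuous gw := by unfold gw; fun_prop

theorem int_quarter : Integrable fun x : E3 => Real.exp (-(‖x‖ ^ 2 / 4)) := by
  have h := GaussianFourier.integrable_cexp_neg_mul_sq_norm_add (V := E3) (b := 1 / 4)
    (by norm_num) 0 0
  have h2 := h.norm
  refine h2.congr (Eventually.of_forall fun x => ?_)
  simp only [Complex.norm_exp]
  congr 1
  have : (-(1 / 4 : ℂ) * (‖x‖ : ℂ) ^ 2 + 0 * ((⟪(0 : E3), x⟫ : ℝ) : ℂ)) =
      ((-(‖x‖ ^ 2 / 4) : ℝ) : ℂ) := by
    push_cast; ring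
  rw [this, Complex.ofReal_re]

theorem pow_le_exp (n : ℕ) : ∃ C : ℝ, 0 ≤ C ∧ ∀ t : ℝ, 0 ≤ t → t ^ n ≤ C * Real.exp (t ^ 2 / 4) := by
  refine ⟨1 + 4 ^ n * n.factorial, by positivity, fun t ht => ?_⟩
  have h1 := Real.pow_div_factorial_le_exp (t ^ 2 / 4) (by positivity) n
  rw [div_le_iff₀ (by positivity), div_pow, div_le_iff₀ (by positivity)] at h1
  have h2 : 1 ≤ Real.exp (t ^ 2 / 4) := Real.one_le_exp (by positivity)
  have h3 : t ^ n ≤ 1 + (t ^ 2) ^ n := by
    rw [← pow_mul, mul_comm 2 n, pow_mul]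
    nlinarith [sq_nonneg (t ^ n - 1), pow_nonneg ht n]
  nlinarith

theorem ev_bound (P : MvPolynomial (Fin 3) ℝ) :
    ∃ C : ℝ, 0 ≤ C ∧ ∀ x : E3, |ev P x| ≤ C * Real.exp (‖x‖ ^ 2 / 4) := by
  induction P using MvPolynomial.induction_on' with
  | monomial α a =>
    obtain ⟨C, hC0, hC⟩ := pow_le_exp (∑ i, α i)
    refine ⟨|a| * C, by positivity, fun x => ?_⟩
    have h1 : ev (monomial α a) x = a * ∏ i, x i ^ α i := by
      rw [ev, eval_monomial, Finsupp.prod_fintype _ _ (fun _ => pow_zero _)]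
    rw [h1, abs_mul, mul_assoc, Finset.abs_prod]
    refine mul_le_mul_of_nonneg_left ?_ (abs_nonneg a)
    refine le_trans ?_ (hC ‖x‖ (norm_nonneg x))
    rw [← Finset.prod_pow_eq_pow_sum]
    refine Finset.prod_le_prod (fun i _ => abs_nonneg _) fun i _ => ?_
    rw [abs_pow]
    refine pow_le_pow_left₀ (abs_nonneg _) ?_ _
    have := PiLp.norm_apply_le x i
    simpa using this
  | add P Q hP hQ =>
    obtain ⟨C, hC0, hC⟩ := hP
    obtain ⟨D, hD0, hD⟩ := hQ
    refine ⟨C + D, by positivity, fun x => ?_⟩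
    rw [ev_add, add_mul]
    exact (abs_add_le _ _).trans (add_le_add (hC x) (hD x))

theorem ev_integrable (P : MvPolynomial (Fin 3) ℝ) : Integrable fun x : E3 => ev P x * gw x := by
  obtain ⟨C, hC0, hC⟩ := ev_bound P
  refine (int_quarter.const_mul C).mono'
    (((ev_differentiable P).continuous.mul gw_cont).aestronglyMeasurable)
    (Eventually.of_forall fun x => ?_)
  rw [Real.norm_eq_abs, abs_mul, gw, abs_of_pos (Real.exp_pos _)]
  calc |ev P x| * Real.exp (-(‖x‖ ^ 2 / 2)) ≤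
        (C * Real.exp (‖x‖ ^ 2 / 4)) * Real.exp (-(‖x‖ ^ 2 / 2)) :=
        mul_le_mul_of_nonneg_right (hC x) (Real.exp_pos _).le
    _ = C * Real.exp (-(‖x‖ ^ 2 / 4)) := by
        rw [mul_assoc, ← Real.exp_add]
        congr 2; ring

/-- the Gaussian expectation -/
def EE : MvPolynomial (Fin 3) ℝ →ₗ[ℝ] ℝ where
  toFun P := ∫ x : E3, ev P x * gw x
  map_add' P Q := by
    rw [← integral_add (ev_integrable P) (ev_integrable Q)]
    congr 1; funext x; rw [ev_add]; ring
  map_smul' a P := by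
    rw [RingHom.id_apply, smul_eq_mul, ← integral_const_mul]
    congr 1; funext x
    have : ev (a • P) x = a * ev P x := by simp [ev, smul_eval]
    rw [this]; ring

theorem EE_apply (P : MvPolynomial (Fin 3) ℝ) : EE P = ∫ x : E3, ev P x * gw x := rfl

theorem EE_stein (k : Fin 3) (P : MvPolynomial (Fin 3) ℝ) : EE (pderiv k P) = EE (X k * P) := by
  rw [EE_apply, EE_apply]
  have hg : ∀ x, HasFDerivAt gw (gw x • (-(1 / 2 : ℝ) • (2 • (innerSL ℝ x)))) x := by
    intro x
    have h1 : HasFDerivAt (fun x : E3 => ‖x‖ ^ 2) (2 • (innerSL ℝ x)) x :=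
      (hasStrictFDerivAt_norm_sq x).hasFDerivAt
    have h2 := (h1.const_mul (-(1 / 2 : ℝ))).exp
    have e : (fun x : E3 => Real.exp (-(1 / 2) * ‖x‖ ^ 2)) = gw := by
      funext x; rw [gw]; congr 1; ring
    have e2 : Real.exp (-(1 / 2) * ‖x‖ ^ 2) = gw x := by rw [gw]; congr 1; ring
    rw [e2, e] at h2
    exact h2
  have hgk : ∀ x, fderiv ℝ gw x (EuclideanSpace.single k (1 : ℝ)) = -(x k * gw x) := by
    intro x
    rw [(hg x).fderiv]
    simp only [_root_.smul_apply, innerSL_apply_apply, smul_eq_mul, nsmul_eq_mul]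
    rw [EuclideanSpace.inner_single_right]
    simp
    ring
  have hX : ∀ x, ev (X k * P) x = x k * ev P x := by intro x; simp [ev]
  have h := integral_mul_fderiv_eq_neg_fderiv_mul_of_integrable (μ := (volume : Measure E3))
    (f := ev P) (g := gw) (v := EuclideanSpace.single k (1 : ℝ)) ?_ ?_ (ev_integrable P)
    (fun x _ => ev_differentiable P x) (fun x _ => (hg x).differentiableAt)
  · simp only [hgk, ev_fderiv] at h
    have e1 : ∫ x : E3, ev P x * -(x k * gw x) = -∫ x : E3, ev (X k * P) x * gw x := by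
      rw [← integral_neg]
      congr 1; funext x; rw [hX]; ring
    rw [e1] at h
    exact (neg_injective h).symm
  · simp only [ev_fderiv]
    exact ev_integrable _
  · simp only [hgk]
    refine ((ev_integrable (X k * P)).neg).congr (Eventually.of_forall fun x => ?_)
    simp only [Pi.neg_apply, hX]
    ring

theorem EE_one : 0 ≤ EE 1 := by
  rw [EE_apply]
  refine integral_nonneg fun x => ?_
  have : ev 1 x = 1 := by simp [ev]
  rw [this, one_mul]
  exact (Real.exp_pos _).le

/-- radial moments -/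
def cd (d : ℕ) : ℝ := ∫ r : Ioi (0 : ℝ), (r : ℝ) ^ d * Real.exp (-((r : ℝ) ^ 2 / 2)) ∂nu

theorem norm_pm (p : Sph × Ioi (0 : ℝ)) : ‖pm p‖ = p.2 := by
  have h1 : ‖(p.1 : E3)‖ = 1 := by simp
  have h2 : (0 : ℝ) < p.2 := p.2.2
  rw [pm, norm_smul, h1, mul_one, Real.norm_of_nonneg h2.le]

theorem EE_hom {P : MvPolynomial (Fin 3) ℝ} {d : ℕ} (hP : P.IsHomogeneous d) :
    EE P = (∫ w : Sph, ev P w ∂sg) * cd d := by
  rw [EE_apply, ← pm_mp.integral_comp pm_emb, cd, ← integral_prod_mul]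
  congr 1
  funext p
  rw [gw, norm_pm, pm, ev_smul hP]
  ring

theorem cd_pos (d : ℕ) : 0 < cd d := by
  have h1 : Integrable (fun x : E3 => ‖x‖ ^ d * gw x) := by
    obtain ⟨C, hC0, hC⟩ := pow_le_exp d
    refine (int_quarter.const_mul C).mono'
      (Continuous.aestronglyMeasurable (by have := gw_cont; fun_prop))
      (Eventually.of_forall fun x => ?_)
    rw [Real.norm_eq_abs, abs_mul, gw, abs_of_pos (Real.exp_pos _), abs_of_nonneg (by positivity)]
    calc ‖x‖ ^ d * Real.exp (-(‖x‖ ^ 2 / 2)) ≤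
          (C * Real.exp (‖x‖ ^ 2 / 4)) * Real.exp (-(‖x‖ ^ 2 / 2)) :=
          mul_le_mul_of_nonneg_right (hC _ (norm_nonneg x)) (Real.exp_pos _).le
      _ = C * Real.exp (-(‖x‖ ^ 2 / 4)) := by
          rw [mul_assoc, ← Real.exp_add]
          congr 2; ring
  have h2 : 0 < ∫ x : E3, ‖x‖ ^ d * gw x := by
    obtain ⟨x₀, hx₀⟩ := exists_ne (0 : E3)
    have hcont : Continuous fun x : E3 => ‖x‖ ^ d * gw x := by have := gw_cont; fun_prop
    have hnn : (0 : E3 → ℝ) ≤ fun x : E3 => ‖x‖ ^ d * gw x := fun x =>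
      mul_nonneg (pow_nonneg (norm_nonneg x) d) (Real.exp_pos _).le
    rw [integral_pos_iff_support_of_nonneg hnn h1]
    exact hcont.isOpen_support.measure_pos volume
      ⟨x₀, mul_ne_zero (pow_ne_zero _ (norm_ne_zero_iff.2 hx₀)) (Real.exp_pos _).ne'⟩
  have h3 : ∫ x : E3, ‖x‖ ^ d * gw x = (∫ _w : Sph, (1 : ℝ) ∂sg) * cd d := by
    rw [← pm_mp.integral_comp pm_emb, cd, ← integral_prod_mul]
    congr 1
    funext p
    rw [gw, norm_pm, one_mul]
  rw [h3] at h2
  have h4 : 0 ≤ ∫ _w : Sph, (1 : ℝ) ∂sg := integral_nonneg fun _ => zero_le_one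
  exact pos_of_mul_pos_right h2 h4

/-- **positivity on the sphere** -/
theorem fam_pos_sphere {c : ℝ} (hc : 0 ≤ c) {V : ℕ → MvPolynomial (Fin 3) ℝ} (hV : Fam c V)
    (i j : ℕ) : 0 ≤ ∫ w : Sph, ev (V i) w * ev (V j) w ∂sg := by
  have h1 := fam_pos EE EE_stein EE_one hc (i + j) V hV i j rfl
  rw [EE_hom ((hV.hom i).mul (hV.hom j))] at h1
  simp only [ev_mul] at h1
  exact nonneg_of_mul_nonneg_left h1 (cd_pos _)

end Pool.Agent.H196.HK
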