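import Pool.Agent.H196.HK.TaylorA

/-! # HK project, task TAYLOR: Taylor coefficients -/

set_option autoImplicit false

noncomputable section

namespace Pool.Agent.H196.HK

open Pool.Agent.H998.HK
open MeasureTheory Filter Topology Set
open scoped ENNReal NNReal RealInnerProductSpace

/-- the quadratic polynomial `|y|² - 2z⟨x,y⟩ + z²|x|²` -/
def qf (r s g : ℝ) (z : ℂ) : ℂ := (s : ℂ) ^ 2 - 2 * r * s * g * z + (r : ℂ) ^ 2 * z ^ 2

theorem qf_polar (r s g ρ c σ : ℝ) (h : c ^ 2 + σ ^ 2 = 1) :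
    qf r s g (ρ * (c + σ * Complex.I)) =
      ((s ^ 2 - (ρ * r) ^ 2 : ℝ) : ℂ) +
        ((2 * (ρ * r) * (ρ * r * c - s * g) : ℝ) : ℂ) * (c + σ * Complex.I) := by
  have hI : Complex.I ^ 2 = -1 := Complex.I_sq
  have h1 : ((c : ℂ) + σ * Complex.I) ^ 2 = 2 * c * (c + σ * Complex.I) - 1 := by
    have h2 : ((c : ℂ)) ^ 2 + (σ : ℂ) ^ 2 = 1 := by exact_mod_cast h
    linear_combination (-1 : ℂ) * h2 + (σ : ℂ) ^ 2 * hI
  rw [qf, mul_pow, h1]
  push_cast
  ring

theorem qf_re (r s g ρ c σ : ℝ) (h : c ^ 2 + σ ^ 2 = 1) :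
    (qf r s g (ρ * (c + σ * Complex.I))).re =
      s ^ 2 - (ρ * r) ^ 2 + 2 * (ρ * r) * (ρ * r * c - s * g) * c := by
  rw [qf_polar r s g ρ c σ h, Complex.add_re, Complex.ofReal_re, Complex.re_ofReal_mul]
  simp

theorem qf_im (r s g ρ c σ : ℝ) (h : c ^ 2 + σ ^ 2 = 1) :
    (qf r s g (ρ * (c + σ * Complex.I))).im = 2 * (ρ * r) * (ρ * r * c - s * g) * σ := by
  rw [qf_polar r s g ρ c σ h, Complex.add_im, Complex.ofReal_im, Complex.im_ofReal_mul]
  simp

theorem qf_norm_sq (r s g ρ c σ : ℝ) (h : c ^ 2 + σ ^ 2 = 1) :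
    ‖qf r s g (ρ * (c + σ * Complex.I))‖ ^ 2 =
      4 * (ρ * r) ^ 2 * s ^ 2 * (c - g) ^ 2 +
        (s - ρ * r) ^ 2 * ((s + ρ * r) ^ 2 - 4 * (ρ * r) * s * (c * g)) := by
  rw [Complex.sq_norm, Complex.normSq_apply, qf_re r s g ρ c σ h, qf_im r s g ρ c σ h]
  linear_combination (2 * (ρ * r) * (ρ * r * c - s * g)) ^ 2 * h

theorem cg_le {c g σ : ℝ} (h : c ^ 2 + σ ^ 2 = 1) (hg : |g| ≤ 1) : c * g ≤ 1 := by
  have h1 : |c| ≤ 1 := abs_le_one_iff_mul_self_le_one.2 (by nlinarith)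
  calc c * g ≤ |c * g| := le_abs_self _
    _ = |c| * |g| := abs_mul _ _
    _ ≤ 1 := mul_le_one₀ h1 (abs_nonneg _) hg

theorem qf_norm_ge {r s g ρ c σ : ℝ} (h : c ^ 2 + σ ^ 2 = 1) (hg : |g| ≤ 1) (hr : 0 ≤ ρ * r)
    (hs : ρ * r < s) :
    (s - ρ * r) ^ 2 ≤ ‖qf r s g (ρ * (c + σ * Complex.I))‖ ∧
      2 * (ρ * r) * s * |c - g| ≤ ‖qf r s g (ρ * (c + σ * Complex.I))‖ := by
  have h1 := qf_norm_sq r s g ρ c σ h
  have h2 := cg_le h hg
  set a := ρ * r with ha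
  have hs0 : 0 < s := lt_of_le_of_lt hr hs
  have h3 : (s - a) ^ 2 ≤ (s + a) ^ 2 - 4 * a * s * (c * g) := by
    have : 0 ≤ a * s * (1 - c * g) := mul_nonneg (mul_nonneg hr hs0.le) (by linarith)
    nlinarith
  have h4 : 0 ≤ (s - a) ^ 2 * ((s + a) ^ 2 - 4 * a * s * (c * g) - (s - a) ^ 2) :=
    mul_nonneg (sq_nonneg _) (by linarith)
  constructor
  · refine abs_le_of_sq_le_sq' ?_ (norm_nonneg _) |>.2
    rw [h1]
    have : 0 ≤ 4 * a ^ 2 * s ^ 2 * (c - g) ^ 2 := by positivity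
    nlinarith
  · refine abs_le_of_sq_le_sq' ?_ (norm_nonneg _) |>.2
    rw [h1, mul_pow, sq_abs]
    have : 0 ≤ (s - a) ^ 2 * (s - a) ^ 2 := by positivity
    nlinarith

theorem qf_slit {r s g ρ c σ : ℝ} (h : c ^ 2 + σ ^ 2 = 1) (hg : |g| ≤ 1) (hr : 0 ≤ ρ * r)
    (hs : ρ * r < s) : qf r s g (ρ * (c + σ * Complex.I)) ∈ Complex.slitPlane := by
  rw [Complex.mem_slitPlane_iff, qf_re r s g ρ c σ h, qf_im r s g ρ c σ h]
  set a := ρ * r with ha
  have hs0 : 0 < s := lt_of_le_of_lt hr hs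
  have h2 := cg_le h hg
  by_cases h0 : 2 * a * (a * c - s * g) * σ = 0
  · left
    rcases mul_eq_zero.1 h0 with h5 | h5
    · rw [h5]
      nlinarith
    · have hc : c ^ 2 = 1 := by rw [h5] at h; linarith
      have : 0 ≤ a * s * (1 - c * g) := mul_nonneg (mul_nonneg hr hs0.le) (by linarith)
      nlinarith
  · right; exact h0

/-- every complex number in polar form -/
theorem polar (z : ℂ) : ∃ c σ : ℝ, c ^ 2 + σ ^ 2 = 1 ∧ z = ((‖z‖ : ℝ) : ℂ) * (c + σ * Complex.I) := by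
  refine ⟨Real.cos z.arg, Real.sin z.arg, Real.cos_sq_add_sin_sq _, ?_⟩
  conv_lhs => rw [← Complex.norm_mul_exp_arg_mul_I z, Complex.exp_mul_I]
  push_cast
  rfl

theorem qf_slit' {r s g : ℝ} (hg : |g| ≤ 1) (hr : 0 ≤ r) {z : ℂ} (hz : ‖z‖ * r < s) :
    qf r s g z ∈ Complex.slitPlane := by
  obtain ⟨c, σ, h, hz'⟩ := polar z
  rw [hz']
  exact qf_slit h hg (mul_nonneg (norm_nonneg _) hr) hz

theorem qf_norm_ge' {r s g : ℝ} (hg : |g| ≤ 1) (hr : 0 ≤ r) {z : ℂ} (hz : ‖z‖ * r < s) :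
    (s - ‖z‖ * r) ^ 2 ≤ ‖qf r s g z‖ := by
  obtain ⟨c, σ, h, hz'⟩ := polar z
  have := (qf_norm_ge h hg (mul_nonneg (norm_nonneg _) hr) hz).1
  rwa [← hz'] at this

/-- the function to be expanded -/
def ff (κ r s g : ℝ) (z : ℂ) : ℂ := Phi κ (qf r s g z)

theorem qf_hasDerivAt (r s g : ℝ) (z : ℂ) :
    HasDerivAt (qf r s g) (-2 * r * s * g + 2 * (r : ℂ) ^ 2 * z) z := by
  have h1 : HasDerivAt (fun z : ℂ => 2 * (r : ℂ) * s * g * z) (2 * (r : ℂ) * s * g * 1) z :=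
    (hasDerivAt_id z).const_mul _
  have h2 : HasDerivAt (fun z : ℂ => (r : ℂ) ^ 2 * z ^ 2) ((r : ℂ) ^ 2 * (2 * z)) z := by
    have := (hasDerivAt_pow 2 z).const_mul ((r : ℂ) ^ 2)
    simpa using this
  have h3 := (h1.const_sub ((s : ℂ) ^ 2)).add h2
  have e : -(2 * (r : ℂ) * s * g * 1) + (r : ℂ) ^ 2 * (2 * z) =
      -2 * r * s * g + 2 * (r : ℂ) ^ 2 * z := by ring
  rw [e] at h3
  exact h3

/-- the coefficients `j! / (p! (j-2p)!)` -/
def cf : ℕ → ℕ → ℕ
  | 0, 0 => 1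
  | 0, _ + 1 => 0
  | j + 1, 0 => cf j 0
  | j + 1, p + 1 => cf j (p + 1) + 2 * (j - 2 * p) * cf j p

theorem cf_zero : ∀ j p, j < 2 * p → cf j p = 0 := by
  intro j
  induction j with
  | zero =>
    intro p hp
    cases p with
    | zero => omega
    | succ p => rfl
  | succ j ih =>
    intro p hp
    cases p with
    | zero => omega
    | succ p =>
      rw [cf, ih (p + 1) (by omega)]
      rcases Nat.lt_or_ge j (2 * p) with h | h
      · rw [ih p h]; simp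
      · have : j - 2 * p = 0 := by omega
        rw [this]; simp

theorem cf_eq : ∀ j p, 2 * p ≤ j → cf j p * (p.factorial * (j - 2 * p).factorial) = j.factorial := by
  intro j
  induction j with
  | zero =>
    intro p hp
    have : p = 0 := by omega
    subst this
    simp [cf]
  | succ j ih =>
    intro p hp
    cases p with
    | zero =>
      have := ih 0 (by omega)
      simp only [Nat.factorial_zero, mul_zero, Nat.sub_zero, one_mul] at this ⊢
      rw [cf, Nat.factorial_succ]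
      calc cf j 0 * ((j + 1) * j.factorial) = (j + 1) * (cf j 0 * j.factorial) := by ring
        _ = _ := by rw [this]
    | succ p =>
      obtain ⟨k, hk⟩ : ∃ k, j = 2 * p + 1 + k := ⟨j - (2 * p + 1), by omega⟩
      subst hk
      have e1 : 2 * p + 1 + k + 1 - 2 * (p + 1) = k := by omega
      have e2 : 2 * p + 1 + k - 2 * p = k + 1 := by omega
      have h1 := ih p (by omega)
      rw [e2] at h1
      rw [cf, e1, e2]
      have h2 : cf (2 * p + 1 + k) (p + 1) * ((p + 1).factorial * k.factorial) =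
          k * (2 * p + 1 + k).factorial := by
        cases k with
        | zero => rw [cf_zero _ _ (by omega)]; simp
        | succ k =>
          have h3 := ih (p + 1) (by omega)
          have e3 : 2 * p + 1 + (k + 1) - 2 * (p + 1) = k := by omega
          rw [e3] at h3
          rw [Nat.factorial_succ k]
          calc _ = (k + 1) * (cf (2 * p + 1 + (k + 1)) (p + 1) * ((p + 1).factorial * k.factorial)) := by
                ring
            _ = _ := by rw [h3]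
      rw [add_mul, h2, Nat.factorial_succ (2 * p + 1 + k)]
      have h4 : 2 * (k + 1) * cf (2 * p + 1 + k) p * ((p + 1).factorial * k.factorial) =
          2 * (p + 1) * (2 * p + 1 + k).factorial := by
        rw [← h1, Nat.factorial_succ p, Nat.factorial_succ k]
        ring
      rw [h4]
      ring

/-- the `j`-th derivative of `ff` -/
def FF (κ r s g : ℝ) (j : ℕ) (z : ℂ) : ℂ :=
  ∑ p ∈ Finset.range (j + 1), (cf j p : ℂ) * (iteratedDeriv (j - p) (Phi κ) (qf r s g z) *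
    ((r : ℂ) ^ 2) ^ p * (-2 * r * s * g + 2 * (r : ℂ) ^ 2 * z) ^ (j - 2 * p))

theorem FF_hasDerivAt {κ r s g : ℝ} (hg : |g| ≤ 1) (hr : 0 ≤ r) (j : ℕ) {z : ℂ}
    (hz : ‖z‖ * r < s) : HasDerivAt (FF κ r s g j) (FF κ r s g (j + 1) z) z := by
  set L : ℂ → ℂ := fun z => -2 * r * s * g + 2 * (r : ℂ) ^ 2 * z with hL
  have hLd : HasDerivAt L (2 * (r : ℂ) ^ 2) z := by
    have := ((hasDerivAt_id z).const_mul (2 * (r : ℂ) ^ 2)).const_add (-2 * (r : ℂ) * s * g)
    rw [mul_one] at this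
    exact this
  have hq := qf_hasDerivAt r s g z
  have hsl := qf_slit' hg hr hz
  have hG : ∀ n, HasDerivAt (fun z => iteratedDeriv n (Phi κ) (qf r s g z))
      (iteratedDeriv (n + 1) (Phi κ) (qf r s g z) * L z) z := fun n =>
    (Phi_hasDerivAt κ n hsl).comp z hq
  have hterm : ∀ p, HasDerivAt (fun z => (cf j p : ℂ) *
      (iteratedDeriv (j - p) (Phi κ) (qf r s g z) * ((r : ℂ) ^ 2) ^ p * L z ^ (j - 2 * p)))
      ((cf j p : ℂ) * (iteratedDeriv (j - p + 1) (Phi κ) (qf r s g z) * L z * ((r : ℂ) ^ 2) ^ p *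
        L z ^ (j - 2 * p) + iteratedDeriv (j - p) (Phi κ) (qf r s g z) * ((r : ℂ) ^ 2) ^ p *
          (((j - 2 * p : ℕ) : ℂ) * L z ^ (j - 2 * p - 1) * (2 * (r : ℂ) ^ 2)))) z := by
    intro p
    exact (((hG (j - p)).mul_const _).mul (hLd.pow (j - 2 * p))).const_mul _
  have hsum := HasDerivAt.fun_sum (u := Finset.range (j + 1)) fun p _ => hterm p
  have e : ∑ p ∈ Finset.range (j + 1), ((cf j p : ℂ) *
      (iteratedDeriv (j - p + 1) (Phi κ) (qf r s g z) * L z * ((r : ℂ) ^ 2) ^ p *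
        L z ^ (j - 2 * p) + iteratedDeriv (j - p) (Phi κ) (qf r s g z) * ((r : ℂ) ^ 2) ^ p *
          (((j - 2 * p : ℕ) : ℂ) * L z ^ (j - 2 * p - 1) * (2 * (r : ℂ) ^ 2)))) =
      FF κ r s g (j + 1) z := by
    have f0 : ∀ A B : ℕ → ℂ, ∑ p ∈ Finset.range (j + 1), (cf j p : ℂ) * (A p + B p) =
        ∑ p ∈ Finset.range (j + 1), (cf j p : ℂ) * A p +
          ∑ p ∈ Finset.range (j + 1), (cf j p : ℂ) * B p := by
      intro A B
      rw [← Finset.sum_add_distrib]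
      exact Finset.sum_congr rfl fun p _ => mul_add _ _ _
    rw [f0, FF, Finset.sum_range_succ' _ (j + 1)]
    have f1 : ∑ p ∈ Finset.range (j + 1), (cf j p : ℂ) *
        (iteratedDeriv (j - p + 1) (Phi κ) (qf r s g z) * L z * ((r : ℂ) ^ 2) ^ p *
          L z ^ (j - 2 * p)) =
        (∑ p ∈ Finset.range (j + 1), (cf j (p + 1) : ℂ) *
          (iteratedDeriv (j + 1 - (p + 1)) (Phi κ) (qf r s g z) * ((r : ℂ) ^ 2) ^ (p + 1) *
            L z ^ (j + 1 - 2 * (p + 1)))) +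
        (cf j 0 : ℂ) * (iteratedDeriv (j + 1) (Phi κ) (qf r s g z) * ((r : ℂ) ^ 2) ^ 0 *
            L z ^ (j + 1)) := by
      have g1 : ∀ p, (cf j p : ℂ) *
        (iteratedDeriv (j - p + 1) (Phi κ) (qf r s g z) * L z * ((r : ℂ) ^ 2) ^ p *
          L z ^ (j - 2 * p)) = (cf j p : ℂ) *
          (iteratedDeriv (j + 1 - p) (Phi κ) (qf r s g z) * ((r : ℂ) ^ 2) ^ p *
            L z ^ (j + 1 - 2 * p)) := by
        intro p
        rcases Nat.lt_or_ge j (2 * p) with h | h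
        · rw [cf_zero j p h]; simp
        · have e1 : j - p + 1 = j + 1 - p := by omega
          have e2 : j + 1 - 2 * p = (j - 2 * p) + 1 := by omega
          rw [e1, e2, pow_succ]
          ring
      simp only [g1]
      rw [Finset.sum_range_succ' _ j]
      congr 1
      rw [Finset.sum_range_succ _ j, cf_zero j (j + 1) (by omega)]
      simp
    rw [f1]
    have f2 : ∀ p, (cf j p : ℂ) * (iteratedDeriv (j - p) (Phi κ) (qf r s g z) *
        ((r : ℂ) ^ 2) ^ p * (((j - 2 * p : ℕ) : ℂ) * L z ^ (j - 2 * p - 1) * (2 * (r : ℂ) ^ 2))) =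
        2 * ((j - 2 * p : ℕ) : ℂ) * (cf j p : ℂ) *
          (iteratedDeriv (j + 1 - (p + 1)) (Phi κ) (qf r s g z) * ((r : ℂ) ^ 2) ^ (p + 1) *
            L z ^ (j + 1 - 2 * (p + 1))) := by
      intro p
      have e1 : j + 1 - (p + 1) = j - p := by omega
      have e2 : j + 1 - 2 * (p + 1) = j - 2 * p - 1 := by omega
      rw [e1, e2, pow_succ]
      ring
    rw [Finset.sum_congr rfl fun p _ => f2 p]
    have hLz : (-2 * (r : ℂ) * s * g + 2 * (r : ℂ) ^ 2 * z) = L z := rfl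
    rw [hLz]
    have f3 : ∀ p, ((cf (j + 1) (p + 1) : ℕ) : ℂ) *
        (iteratedDeriv (j + 1 - (p + 1)) (Phi κ) (qf r s g z) * ((r : ℂ) ^ 2) ^ (p + 1) *
            L z ^ (j + 1 - 2 * (p + 1))) =
        (cf j (p + 1) : ℂ) *
          (iteratedDeriv (j + 1 - (p + 1)) (Phi κ) (qf r s g z) * ((r : ℂ) ^ 2) ^ (p + 1) *
            L z ^ (j + 1 - 2 * (p + 1))) + 2 * ((j - 2 * p : ℕ) : ℂ) * (cf j p : ℂ) *
          (iteratedDeriv (j + 1 - (p + 1)) (Phi κ) (qf r s g z) * ((r : ℂ) ^ 2) ^ (p + 1) *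
            L z ^ (j + 1 - 2 * (p + 1))) := by
      intro p
      simp only [cf, Nat.cast_add, Nat.cast_mul, Nat.cast_ofNat, add_mul]
    rw [Finset.sum_congr rfl fun p _ => f3 p, Finset.sum_add_distrib]
    have f4 : cf (j + 1) 0 = cf j 0 := rfl
    rw [f4]
    simp only [Nat.sub_zero, mul_zero, pow_zero]
    ring
  rw [e] at hsum
  exact hsum

theorem iteratedDeriv_ff {κ r s g : ℝ} (hg : |g| ≤ 1) (hr : 0 ≤ r) (j : ℕ) :
    ∀ z : ℂ, ‖z‖ * r < s → iteratedDeriv j (ff κ r s g) z = FF κ r s g j z := by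
  induction j with
  | zero => intro z hz; simp [FF, cf, ff]
  | succ j ih =>
    intro z hz
    have ho : IsOpen {z : ℂ | ‖z‖ * r < s} :=
      isOpen_lt (continuous_norm.mul continuous_const) continuous_const
    have h1 : iteratedDeriv j (ff κ r s g) =ᶠ[𝓝 z] FF κ r s g j := by
      filter_upwards [ho.mem_nhds hz] with w hw using ih w hw
    rw [iteratedDeriv_succ, h1.deriv_eq]
    exact (FF_hasDerivAt hg hr j hz).deriv

/-- cosine of the angle -/
def gg (x y : E3) : ℝ := ⟪x, y⟫ / (‖x‖ * ‖y‖)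

theorem abs_gg_le (x y : E3) : |gg x y| ≤ 1 := abs_real_inner_div_norm_mul_norm_le_one x y

theorem gg_mul (x y : E3) : ‖x‖ * ‖y‖ * gg x y = ⟪x, y⟫ := by
  rw [gg]
  by_cases h : ‖x‖ * ‖y‖ = 0
  · rw [h, zero_mul]
    rcases mul_eq_zero.1 h with h1 | h1
    · rw [norm_eq_zero.1 h1]; simp
    · rw [norm_eq_zero.1 h1]; simp
  · rw [mul_div_assoc', mul_div_cancel_left₀ _ h]

/-- the Taylor coefficients are the functions `tc` -/
theorem tc_eq (κ : ℝ) (j : ℕ) (x y : E3) (hy : 0 < ‖y‖) :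
    iteratedDeriv j (ff κ ‖x‖ ‖y‖ (gg x y)) 0 = (j.factorial : ℂ) * ((tc κ j x y : ℝ) : ℂ) := by
  rw [iteratedDeriv_ff (abs_gg_le x y) (norm_nonneg x) j 0 (by simpa using hy), FF, tc]
  have hq0 : qf ‖x‖ ‖y‖ (gg x y) 0 = ((‖y‖ ^ 2 : ℝ) : ℂ) := by simp [qf]
  have hL0 : (-2 * (‖x‖ : ℂ) * ‖y‖ * gg x y + 2 * (‖x‖ : ℂ) ^ 2 * 0) = ((-2 * ⟪x, y⟫ : ℝ) : ℂ) := by
    rw [← gg_mul]; push_cast; ring
  rw [hL0, hq0]
  have hsub : Finset.range (j / 2 + 1) ⊆ Finset.range (j + 1) := by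
    intro p hp
    rw [Finset.mem_range] at *
    omega
  rw [← Finset.sum_subset hsub]
  · rw [Complex.ofReal_sum, Finset.mul_sum]
    refine Finset.sum_congr rfl fun p hp => ?_
    rw [Finset.mem_range] at hp
    have hp2 : 2 * p ≤ j := by omega
    rw [iteratedDeriv_Phi κ _ _ (by positivity)]
    have h1 : (cf j p : ℂ) * ((p.factorial : ℂ) * ((j - 2 * p).factorial : ℂ)) = (j.factorial : ℂ) := by
      exact_mod_cast cf_eq j p hp2
    have h2 : (p.factorial : ℂ) ≠ 0 := by exact_mod_cast p.factorial_ne_zero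
    have h3 : ((j - 2 * p).factorial : ℂ) ≠ 0 := by exact_mod_cast (j - 2 * p).factorial_ne_zero
    rw [← h1]
    push_cast
    field_simp
  · intro p _ hp
    rw [Finset.mem_range] at hp
    rw [cf_zero j p (by omega)]
    simp

theorem ff_diff {κ r s g : ℝ} (hg : |g| ≤ 1) (hr : 0 ≤ r) {z : ℂ} (hz : ‖z‖ * r < s) :
    DifferentiableAt ℂ (ff κ r s g) z :=
  ((Phi_diff κ).differentiableAt (Complex.isOpen_slitPlane.mem_nhds (qf_slit' hg hr hz))).comp z
    (qf_hasDerivAt r s g z).differentiableAt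

theorem norm_ff_le {κ r s g : ℝ} (hκ : 0 ≤ κ) (hg : |g| ≤ 1) (hr : 0 ≤ r) {z : ℂ}
    (hz : ‖z‖ * r < s) : ‖ff κ r s g z‖ ≤ 1 / (4 * Real.pi * (s - ‖z‖ * r)) := by
  have hsl := qf_slit' hg hr hz
  have h0 : qf r s g z ≠ 0 := Complex.slitPlane_ne_zero hsl
  have h1 : s - ‖z‖ * r ≤ ‖sq (qf r s g z)‖ := by
    refine abs_le_of_sq_le_sq' ?_ (norm_nonneg _) |>.2
    rw [sq_normSq h0]
    exact qf_norm_ge' hg hr hz
  have h2 : 0 < s - ‖z‖ * r := by linarith
  rw [ff, norm_Phi]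
  have h3 : Real.exp (-(κ * (sq (qf r s g z)).re)) ≤ 1 := by
    rw [Real.exp_le_one_iff]
    have := mul_nonneg hκ (sq_re_pos hsl).le
    linarith
  have hpi := Real.pi_pos
  gcongr

/-- **Task TAYLOR.** -/
theorem t_TAYLOR : S_TAYLOR := by
  intro κ hκ x y
  refine ⟨fun hxy => ?_, fun ρ hρ hρx j => ?_⟩
  · have hy : 0 < ‖y‖ := lt_of_le_of_lt (norm_nonneg x) hxy
    obtain ⟨R, hR1, hR2⟩ : ∃ R : ℝ, 1 < R ∧ R * ‖x‖ < ‖y‖ := by
      rcases (norm_nonneg x).eq_or_lt with h | h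
      · exact ⟨2, by norm_num, by rw [← h]; simpa using hy⟩
      · refine ⟨(1 + ‖y‖ / ‖x‖) / 2, ?_, ?_⟩
        · have : 1 < ‖y‖ / ‖x‖ := (one_lt_div h).2 hxy
          linarith
        · have : (1 + ‖y‖ / ‖x‖) / 2 * ‖x‖ = (‖x‖ + ‖y‖) / 2 := by field_simp
          rw [this]; linarith
    have hdiff : DifferentiableOn ℂ (ff κ ‖x‖ ‖y‖ (gg x y)) (Metric.ball 0 R) := by
      intro z hz
      rw [mem_ball_zero_iff] at hz
      exact (ff_diff (abs_gg_le x y) (norm_nonneg x) (lt_of_le_of_lt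
        (mul_le_mul_of_nonneg_right hz.le (norm_nonneg x)) hR2)).differentiableWithinAt
    have h1 := Complex.hasSum_taylorSeries_on_ball (z := 1) hdiff (by simpa using hR1)
    have hq1 : qf ‖x‖ ‖y‖ (gg x y) 1 = ((‖x - y‖ ^ 2 : ℝ) : ℂ) := by
      rw [@norm_sub_sq_real]
      rw [← gg_mul, qf]
      push_cast
      ring
    have hne : 0 < ‖x - y‖ := by
      rw [norm_pos_iff, sub_ne_zero]
      intro h
      rw [h] at hxy
      exact lt_irrefl _ hxy
    have hf1 : ff κ ‖x‖ ‖y‖ (gg x y) 1 = ((yuk κ (x - y) : ℝ) : ℂ) := by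
      rw [ff, hq1, Phi_ofReal (by positivity), yuk]
    rw [hf1] at h1
    have h2 : HasSum (fun j => ((tc κ j x y : ℝ) : ℂ)) ((yuk κ (x - y) : ℝ) : ℂ) := by
      have e : (fun j => ((tc κ j x y : ℝ) : ℂ)) = fun n : ℕ => ((n.factorial : ℂ))⁻¹ •
          (1 - 0 : ℂ) ^ n • iteratedDeriv n (ff κ ‖x‖ ‖y‖ (gg x y)) 0 := by
        funext j
        rw [tc_eq κ j x y hy]
        have h3 : (j.factorial : ℂ) ≠ 0 := by exact_mod_cast j.factorial_ne_zero
        simp only [sub_zero, one_pow, one_mul, smul_eq_mul]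
        rw [inv_mul_cancel_left₀ h3]
      rw [e]
      exact h1
    exact_mod_cast h2
  · have hy : 0 < ‖y‖ := lt_of_le_of_lt (mul_nonneg hρ.le (norm_nonneg x)) hρx
    have hdc : DiffContOnCl ℂ (ff κ ‖x‖ ‖y‖ (gg x y)) (Metric.ball 0 ρ) := by
      have : DifferentiableOn ℂ (ff κ ‖x‖ ‖y‖ (gg x y)) (Metric.closedBall 0 ρ) := by
        intro z hz
        rw [mem_closedBall_zero_iff] at hz
        exact (ff_diff (abs_gg_le x y) (norm_nonneg x) (lt_of_le_of_lt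
          (mul_le_mul_of_nonneg_right hz (norm_nonneg x)) hρx)).differentiableWithinAt
      exact this.diffContOnCl_ball subset_rfl
    have h1 := Complex.norm_iteratedDeriv_le_of_forall_mem_sphere_norm_le (C := 1 / (4 * Real.pi * (‖y‖ - ρ * ‖x‖))) j hρ hdc (by
      intro z hz
      rw [mem_sphere_zero_iff_norm] at hz
      have := norm_ff_le (κ := κ) (s := ‖y‖) hκ (abs_gg_le x y) (norm_nonneg x) (z := z)
        (by rw [hz]; exact hρx)
      rwa [hz] at this)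
    rw [tc_eq κ j x y hy, norm_mul, Complex.norm_natCast, Complex.norm_real, Real.norm_eq_abs] at h1
    have h3 : (0 : ℝ) < j.factorial := by exact_mod_cast j.factorial_pos
    have h4 : |tc κ j x y| ≤ 1 / (4 * Real.pi * (‖y‖ - ρ * ‖x‖)) / ρ ^ j := by
      rw [mul_div_assoc] at h1
      exact le_of_mul_le_mul_left h1 h3
    refine h4.trans (le_of_eq ?_)
    rw [div_div, div_eq_mul_inv, one_mul, mul_inv, mul_comm, div_eq_mul_inv]

end Pool.Agent.H196.HK
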