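import Pool.Agent.H196.HK.L2C
import Pool.Agent.H196.HK.TaylorB

/-! # HK project, task L2: the homogeneous components as integrals over the sphere -/

set_option autoImplicit false

noncomputable section

namespace Pool.Agent.H196.HK

open Pool.Agent.H998.HK
open MeasureTheory Filter Topology Set MvPolynomial
open scoped ENNReal NNReal RealInnerProductSpace

/-! ### The differential equation of the Yukawa kernel -/

theorem yukR_hasDerivAt (κ : ℝ) (n : ℕ) {σ : ℝ} (hσ : 0 < σ) :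
    HasDerivAt (iteratedDeriv n (yukR κ)) (iteratedDeriv (n + 1) (yukR κ) σ) σ := by
  have hs : (σ : ℂ) ∈ Complex.slitPlane := Complex.ofReal_mem_slitPlane.2 hσ
  have h1r := (Phi_hasDerivAt κ n hs).real_of_complex
  have hnh : ∀ᶠ y : ℝ in 𝓝 σ, 0 < y := lt_mem_nhds hσ
  have h2r : (fun y : ℝ => (iteratedDeriv n (Phi κ) (y : ℂ)).re) =ᶠ[𝓝 σ]
      fun y : ℝ => iteratedDeriv n (yukR κ) y := by
    filter_upwards [hnh] with y hy
    rw [iteratedDeriv_Phi κ n y hy, Complex.ofReal_re]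
  rw [iteratedDeriv_succ]
  exact (h1r.congr_of_eventuallyEq h2r.symm).differentiableAt.hasDerivAt

theorem exp_sqrt_hasDerivAt (κ : ℝ) {σ : ℝ} (hσ : 0 < σ) :
    HasDerivAt (fun σ => Real.exp (-(κ * √σ))) (-(κ / (2 * √σ)) * Real.exp (-(κ * √σ))) σ := by
  have h1 : HasDerivAt (fun σ : ℝ => √σ) (1 / (2 * √σ)) σ := Real.hasDerivAt_sqrt hσ.ne'
  have h2 : HasDerivAt (fun σ => Real.exp (-(κ * √σ)))
      (Real.exp (-(κ * √σ)) * -(κ * (1 / (2 * √σ)))) σ := (h1.const_mul κ).neg.exp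
  have e : Real.exp (-(κ * √σ)) * -(κ * (1 / (2 * √σ))) =
      -(κ / (2 * √σ)) * Real.exp (-(κ * √σ)) := by ring
  rw [e] at h2
  exact h2

theorem yukR_first (κ : ℝ) {σ : ℝ} (hσ : 0 < σ) :
    2 * σ * iteratedDeriv 1 (yukR κ) σ + yukR κ σ + κ * Real.exp (-(κ * √σ)) / (4 * Real.pi) = 0 := by
  have hs : 0 < √σ := Real.sqrt_pos.2 hσ
  have hpi := Real.pi_pos
  have h0 := yukR_hasDerivAt κ 0 hσ
  rw [iteratedDeriv_zero] at h0
  have h1 := exp_sqrt_hasDerivAt κ hσ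
  have h2 : HasDerivAt (fun σ : ℝ => 4 * Real.pi * √σ) (4 * Real.pi * (1 / (2 * √σ))) σ :=
    (Real.hasDerivAt_sqrt hσ.ne').const_mul _
  have h3 := h1.div h2 (by positivity)
  have h4 : HasDerivAt (yukR κ) ((-(κ / (2 * √σ)) * Real.exp (-(κ * √σ)) * (4 * Real.pi * √σ) -
      Real.exp (-(κ * √σ)) * (4 * Real.pi * (1 / (2 * √σ)))) / (4 * Real.pi * √σ) ^ 2) σ := h3
  rw [h0.unique h4, yukR]
  have e : σ = √σ ^ 2 := (Real.sq_sqrt hσ.le).symm
  generalize √σ = t at *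
  subst e
  field_simp
  ring

theorem yukR_ode (κ : ℝ) : ∀ (N : ℕ) {σ : ℝ}, 0 < σ →
    4 * σ * iteratedDeriv (N + 2) (yukR κ) σ + (4 * N + 6) * iteratedDeriv (N + 1) (yukR κ) σ =
      κ ^ 2 * iteratedDeriv N (yukR κ) σ := by
  intro N
  induction N with
  | zero =>
    intro σ hσ
    have hs : 0 < √σ := Real.sqrt_pos.2 hσ
    have hpi := Real.pi_pos
    have h1 := yukR_hasDerivAt κ 1 hσ
    have h0 := yukR_hasDerivAt κ 0 hσ
    rw [iteratedDeriv_zero] at h0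
    have hE := exp_sqrt_hasDerivAt κ hσ
    have hlin : HasDerivAt (fun σ : ℝ => 2 * σ) 2 σ := by
      simpa using (hasDerivAt_id σ).const_mul (2 : ℝ)
    have hA := ((hlin.mul h1).add h0).add ((hE.const_mul κ).div_const (4 * Real.pi))
    have hZ : HasDerivAt (fun _ : ℝ => (0 : ℝ)) 0 σ := hasDerivAt_const σ 0
    have hZ' := hZ.congr_of_eventuallyEq (f₁ := fun σ : ℝ => 2 * σ * iteratedDeriv 1 (yukR κ) σ +
      yukR κ σ + κ * Real.exp (-(κ * √σ)) / (4 * Real.pi)) (by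
        filter_upwards [lt_mem_nhds hσ] with y hy using yukR_first κ hy)
    have h5 := hA.unique hZ'
    rw [iteratedDeriv_zero, yukR]
    simp only [zero_add, Nat.cast_zero, mul_zero] at h5 ⊢
    have h6 : κ * (-(κ / (2 * √σ)) * Real.exp (-(κ * √σ))) / (4 * Real.pi) =
        -(κ ^ 2 * (Real.exp (-(κ * √σ)) / (4 * Real.pi * √σ))) / 2 := by
      field_simp
    rw [h6] at h5
    linear_combination 2 * h5
  | succ N ih =>
    intro σ hσ
    have hlin : HasDerivAt (fun σ : ℝ => 4 * σ) 4 σ := by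
      simpa using (hasDerivAt_id σ).const_mul (4 : ℝ)
    have h2 := yukR_hasDerivAt κ (N + 2) hσ
    have h1 := yukR_hasDerivAt κ (N + 1) hσ
    have h0 := yukR_hasDerivAt κ N hσ
    have hL := (hlin.mul h2).add (h1.const_mul (4 * (N : ℝ) + 6))
    have hR := h0.const_mul (κ ^ 2)
    have hR' := hR.congr_of_eventuallyEq (f₁ := fun σ : ℝ => 4 * σ * iteratedDeriv (N + 2) (yukR κ) σ +
      (4 * N + 6) * iteratedDeriv (N + 1) (yukR κ) σ) (by
        filter_upwards [lt_mem_nhds hσ] with y hy using ih hy)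
    have h5 := hL.unique hR'
    push_cast
    linear_combination h5

/-! ### Polynomials with coefficients continuous on the sphere -/

/-- the coordinates of `s w` -/
def yc (s : ℝ) (k : Fin 3) : C(Sph, ℝ) :=
  ⟨fun w => s * (w : E3) k, by fun_prop⟩

theorem norm_sph (w : Sph) : ‖(w : E3)‖ = 1 := by simp

theorem sum_sq_sph (w : Sph) : ∑ k, (w : E3) k ^ 2 = 1 := by
  have h := EuclideanSpace.norm_sq_eq (w : E3)
  rw [norm_sph] at h
  simpa using h.symm

theorem yc_sum (s : ℝ) : ∑ k, yc s k ^ 2 = algebraMap ℝ C(Sph, ℝ) (s ^ 2) := by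
  ext w
  have h : (∑ k, yc s k ^ 2) w = ∑ k, (s * (w : E3) k) ^ 2 := by
    rw [ContinuousMap.coe_sum, Finset.sum_apply]
    rfl
  rw [h]
  simp only [mul_pow]
  rw [← Finset.mul_sum, sum_sq_sph, mul_one]
  rfl

/-- the sequence of derivatives -/
def ph (κ s : ℝ) (n : ℕ) : ℝ := iteratedDeriv n (yukR κ) (s ^ 2)

/-- `tc` as a continuous function on the sphere -/
def tcc (κ : ℝ) (j : ℕ) (s : ℝ) (x : E3) : C(Sph, ℝ) :=
  eval (fun k => algebraMap ℝ C(Sph, ℝ) (x k)) (TT (ph κ s) (yc s) j)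

theorem tcc_apply (κ : ℝ) (j : ℕ) (s : ℝ) (x : E3) (w : Sph) :
    tcc κ j s x w = tc κ j x (s • (w : E3)) := by
  rw [tcc, eval_TT, ContinuousMap.coe_sum, Finset.sum_apply, tc]
  refine Finset.sum_congr rfl fun p _ => ?_
  have hn : ‖s • (w : E3)‖ ^ 2 = s ^ 2 := by
    rw [norm_smul, norm_sph, mul_one, Real.norm_eq_abs, sq_abs]
  have hx : ‖x‖ ^ 2 = ∑ k, x k ^ 2 := by
    rw [EuclideanSpace.norm_sq_eq]; simp
  have hi : ⟪x, s • (w : E3)⟫ = ∑ k, (s * (w : E3) k) * x k := by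
    rw [PiLp.inner_apply]
    refine Finset.sum_congr rfl fun k _ => ?_
    simp [mul_comm]
  rw [hn, hx, hi, mul_pow (-2 : ℝ)]
  have e : (algebraMap ℝ C(Sph, ℝ) (gam (ph κ s) j p) *
      (algebraMap ℝ C(Sph, ℝ) (∑ k, x k ^ 2) ^ p *
        (∑ k, yc s k * algebraMap ℝ C(Sph, ℝ) (x k)) ^ (j - 2 * p))) w =
      gam (ph κ s) j p * ((∑ k, x k ^ 2) ^ p * (∑ k, (s * (w : E3) k) * x k) ^ (j - 2 * p)) := by
    rw [ContinuousMap.mul_apply, ContinuousMap.mul_apply, ContinuousMap.pow_apply,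
      ContinuousMap.pow_apply, ContinuousMap.coe_sum, Finset.sum_apply]
    rfl
  rw [e, gam, ph]
  ring

theorem cont_int {a : Sph → ℝ} (ha : Integrable a sg) (h : C(Sph, ℝ)) :
    Integrable (fun w => h w * a w) sg := by
  refine ha.bdd_mul (c := ‖h‖) h.continuous.aestronglyMeasurable
    (Eventually.of_forall fun w => h.norm_coe_le_norm w)

/-- the linear functional `h ↦ ∫ h a` -/
def ell {a : Sph → ℝ} (ha : Integrable a sg) : C(Sph, ℝ) →ₗ[ℝ] ℝ where
  toFun h := ∫ w, h w * a w ∂sg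
  map_add' g h := by
    rw [← integral_add (cont_int ha g) (cont_int ha h)]
    congr 1; funext w; rw [ContinuousMap.add_apply]; ring
  map_smul' c h := by
    rw [RingHom.id_apply, smul_eq_mul, ← integral_const_mul]
    congr 1; funext w; rw [ContinuousMap.smul_apply, smul_eq_mul]; ring

/-- the homogeneous components -/
def VV (κ s : ℝ) {a : Sph → ℝ} (ha : Integrable a sg) (j : ℕ) : MvPolynomial (Fin 3) ℝ :=
  push (ell ha) (TT (ph κ s) (yc s) j)

theorem VV_fam (κ : ℝ) {s : ℝ} (hs : 0 < s) {a : Sph → ℝ} (ha : Integrable a sg) :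
    Fam (κ ^ 2) (VV κ s ha) :=
  fam_push (φ := ph κ s) (σ := s ^ 2) (fun N => by
    have := yukR_ode κ N (σ := s ^ 2) (by positivity)
    simpa [ph] using this) (yc_sum s) (ell ha)

theorem ev_VV (κ s : ℝ) {a : Sph → ℝ} (ha : Integrable a sg) (j : ℕ) (x : E3) :
    ev (VV κ s ha j) x = ∫ w : Sph, tc κ j x (s • (w : E3)) * a w ∂sg := by
  rw [ev, VV, eval_push]
  show ∫ w, tcc κ j s x w * a w ∂sg = _
  simp only [tcc_apply]

/-- the quadratic comparison -/
theorem quad_le {κ s : ℝ} (hs : 0 < s) {a : Sph → ℝ} (ha : Integrable a sg)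
    {A B : Finset ℕ} (hAB : A ⊆ B) {α β : ℕ → ℝ} (hα : ∀ j ∈ A, 0 ≤ α j ∧ α j ≤ β j)
    (hβ : ∀ j ∈ B, 0 ≤ β j) :
    ∫ w : Sph, (∑ j ∈ A, α j * ev (VV κ s ha j) w) ^ 2 ∂sg ≤
      ∫ w : Sph, (∑ j ∈ B, β j * ev (VV κ s ha j) w) ^ 2 ∂sg := by
  have hfam := VV_fam κ hs ha
  set v : ℕ → Sph → ℝ := fun j w => ev (VV κ s ha j) w with hv
  have hvc : ∀ j, Continuous (v j) := fun j =>
    (ev_differentiable _).continuous.comp continuous_subtype_val
  have hint : ∀ i j, Integrable (fun w => v i w * v j w) sg := fun i j =>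
    ((hvc i).mul (hvc j)).integrable_of_hasCompactSupport (HasCompactSupport.of_compactSpace _)
  have expand : ∀ (S : Finset ℕ) (γ : ℕ → ℝ), ∫ w : Sph, (∑ j ∈ S, γ j * v j w) ^ 2 ∂sg =
      ∑ i ∈ S, ∑ j ∈ S, γ i * γ j * ∫ w, v i w * v j w ∂sg := by
    intro S γ
    have e : ∀ w, (∑ j ∈ S, γ j * v j w) ^ 2 =
        ∑ i ∈ S, ∑ j ∈ S, γ i * γ j * (v i w * v j w) := by
      intro w
      rw [pow_two, Finset.sum_mul_sum]
      refine Finset.sum_congr rfl fun i _ => Finset.sum_congr rfl fun j _ => ?_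
      ring
    simp only [e]
    rw [integral_finsetSum _ fun i _ => integrable_finsetSum _ fun j _ => (hint i j).const_mul _]
    refine Finset.sum_congr rfl fun i _ => ?_
    rw [integral_finsetSum _ fun j _ => (hint i j).const_mul _]
    refine Finset.sum_congr rfl fun j _ => ?_
    rw [integral_const_mul]
  have hpos : ∀ i j, 0 ≤ ∫ w, v i w * v j w ∂sg := fun i j =>
    fam_pos_sphere (sq_nonneg κ) hfam i j
  show ∫ w : Sph, (∑ j ∈ A, α j * v j w) ^ 2 ∂sg ≤ ∫ w : Sph, (∑ j ∈ B, β j * v j w) ^ 2 ∂sg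
  rw [expand, expand]
  calc ∑ i ∈ A, ∑ j ∈ A, α i * α j * ∫ w, v i w * v j w ∂sg
      ≤ ∑ i ∈ A, ∑ j ∈ A, β i * β j * ∫ w, v i w * v j w ∂sg := by
        refine Finset.sum_le_sum fun i hi => Finset.sum_le_sum fun j hj => ?_
        refine mul_le_mul_of_nonneg_right ?_ (hpos i j)
        exact mul_le_mul (hα i hi).2 (hα j hj).2 (hα j hj).1 ((hα i hi).1.trans (hα i hi).2)
    _ ≤ ∑ i ∈ A, ∑ j ∈ B, β i * β j * ∫ w, v i w * v j w ∂sg := by
        refine Finset.sum_le_sum fun i hi => ?_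
        refine Finset.sum_le_sum_of_subset_of_nonneg hAB fun j hj _ => ?_
        exact mul_nonneg (mul_nonneg (hβ i (hAB hi)) (hβ j hj)) (hpos i j)
    _ ≤ ∑ i ∈ B, ∑ j ∈ B, β i * β j * ∫ w, v i w * v j w ∂sg := by
        refine Finset.sum_le_sum_of_subset_of_nonneg hAB fun i hi _ => ?_
        exact Finset.sum_nonneg fun j hj =>
          mul_nonneg (mul_nonneg (hβ i hi) (hβ j hj)) (hpos i j)

end Pool.Agent.H196.HK
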