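import Pool.Agent.H196.HK.L2D

/-! # HK project, task L2: comparison of the truncated kernels on two spheres -/

set_option autoImplicit false

noncomputable section

namespace Pool.Agent.H196.HK

open Pool.Agent.H998.HK
open MeasureTheory Filter Topology Set MvPolynomial
open scoped ENNReal NNReal RealInnerProductSpace

theorem norm_smul_sph {r : ℝ} (hr : 0 < r) (w : Sph) : ‖r • (w : E3)‖ = r := by
  rw [norm_smul, norm_sph, mul_one, Real.norm_of_nonneg hr.le]

theorem tc_bd {κ r s : ℝ} (hκ : 0 ≤ κ) (hr : 0 < r) (hrs : r < s) (w w' : Sph) (j : ℕ) :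
    |tc κ j (r • (w : E3)) (s • (w' : E3))| ≤
      (2 * r / (r + s)) ^ j * (1 / (2 * Real.pi * (s - r))) := by
  have hs : 0 < s := hr.trans hrs
  have hpi := Real.pi_pos
  have h := (t_TAYLOR κ hκ (r • (w : E3)) (s • (w' : E3))).2 ((r + s) / (2 * r)) (by positivity)
    (by rw [norm_smul_sph hr, norm_smul_sph hs]
        have : (r + s) / (2 * r) * r = (r + s) / 2 := by field_simp
        rw [this]; linarith) j
  rw [norm_smul_sph hr, norm_smul_sph hs] at h
  refine h.trans (le_of_eq ?_)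
  have e1 : (r + s) / (2 * r) * r = (r + s) / 2 := by field_simp
  rw [e1, ← inv_pow, inv_div, div_eq_mul_inv]
  congr 1
  rw [one_div]
  congr 1
  ring

/-- partial sums -/
def uM (κ r s : ℝ) {a : Sph → ℝ} (ha : Integrable a sg) (M : ℕ) (w : Sph) : ℝ :=
  ∑ j ∈ Finset.range M, ev (VV κ s ha j) (r • (w : E3))

theorem uM_cont (κ r s : ℝ) {a : Sph → ℝ} (ha : Integrable a sg) (M : ℕ) :
    Continuous (uM κ r s ha M) := by
  unfold uM
  refine continuous_finsetSum _ fun j _ => (ev_differentiable _).continuous.comp ?_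
  fun_prop

theorem tc_int (κ s : ℝ) {a : Sph → ℝ} (ha : Integrable a sg) (j : ℕ) (x : E3) :
    Integrable (fun w : Sph => tc κ j x (s • (w : E3)) * a w) sg := by
  have := cont_int ha (tcc κ j s x)
  simpa only [tcc_apply] using this

theorem uM_eq (κ r s : ℝ) {a : Sph → ℝ} (ha : Integrable a sg) (M : ℕ) (w : Sph) :
    uM κ r s ha M w = ∫ w' : Sph, (∑ j ∈ Finset.range M, tc κ j (r • (w : E3)) (s • (w' : E3))) *
      a w' ∂sg := by
  rw [uM]
  simp only [ev_VV, Finset.sum_mul]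
  rw [integral_finsetSum _ fun j _ => tc_int κ s ha j _]

theorem geom_bd {r s : ℝ} (hr : 0 < r) (hrs : r < s) (M : ℕ) :
    ∑ j ∈ Finset.range M, (2 * r / (r + s)) ^ j * (1 / (2 * Real.pi * (s - r))) ≤
      (1 - 2 * r / (r + s))⁻¹ * (1 / (2 * Real.pi * (s - r))) := by
  have hpi := Real.pi_pos
  have hs : 0 < s := hr.trans hrs
  have h1 : 0 ≤ 2 * r / (r + s) := by positivity
  have h2 : 2 * r / (r + s) < 1 := by rw [div_lt_one (by positivity)]; linarith
  rw [← Finset.sum_mul]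
  have hsr : 0 < s - r := by linarith
  refine mul_le_mul_of_nonneg_right ?_ (by positivity)
  rw [← tsum_geometric_of_lt_one h1 h2]
  exact (summable_geometric_of_lt_one h1 h2).sum_le_tsum _ fun j _ => by positivity

theorem sum_tc_bd {κ r s : ℝ} (hκ : 0 ≤ κ) (hr : 0 < r) (hrs : r < s) (w w' : Sph) (M : ℕ) :
    |∑ j ∈ Finset.range M, tc κ j (r • (w : E3)) (s • (w' : E3))| ≤
      (1 - 2 * r / (r + s))⁻¹ * (1 / (2 * Real.pi * (s - r))) :=
  (Finset.abs_sum_le_sum_abs _ _).trans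
    ((Finset.sum_le_sum fun j _ => tc_bd hκ hr hrs w w' j).trans (geom_bd hr hrs M))

theorem uM_bd {κ r s : ℝ} (hκ : 0 ≤ κ) (hr : 0 < r) (hrs : r < s) {a : Sph → ℝ}
    (ha : Integrable a sg) (M : ℕ) (w : Sph) : |uM κ r s ha M w| ≤
      (1 - 2 * r / (r + s))⁻¹ * (1 / (2 * Real.pi * (s - r))) * ∫ w', |a w'| ∂sg := by
  rw [uM_eq, ← Real.norm_eq_abs, ← integral_const_mul]
  refine norm_integral_le_of_norm_le (ha.abs.const_mul _) (Eventually.of_forall fun w' => ?_)
  rw [Real.norm_eq_abs, abs_mul]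
  exact mul_le_mul_of_nonneg_right (sum_tc_bd hκ hr hrs w w' M) (abs_nonneg _)

/-- the full kernel applied to `a` -/
def YK (κ r s : ℝ) (a : Sph → ℝ) (w : Sph) : ℝ :=
  ∫ w' : Sph, yuk κ (r • (w : E3) - s • (w' : E3)) * a w' ∂sg

theorem uM_tendsto {κ r s : ℝ} (hκ : 0 ≤ κ) (hr : 0 < r) (hrs : r < s) {a : Sph → ℝ}
    (ha : Integrable a sg) (w : Sph) :
    Tendsto (fun M => uM κ r s ha M w) atTop (𝓝 (YK κ r s a w)) := by
  simp only [uM_eq]
  unfold YK
  have hs : 0 < s := hr.trans hrs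
  refine tendsto_integral_of_dominated_convergence
    (fun w' => (1 - 2 * r / (r + s))⁻¹ * (1 / (2 * Real.pi * (s - r))) * |a w'|) ?_
    (ha.abs.const_mul _) ?_ ?_
  · intro M
    have : Integrable (fun w' : Sph => (∑ j ∈ Finset.range M,
        tc κ j (r • (w : E3)) (s • (w' : E3))) * a w') sg := by
      simp only [Finset.sum_mul]
      exact integrable_finsetSum _ fun j _ => tc_int κ s ha j _
    exact this.aestronglyMeasurable
  · intro M
    refine Eventually.of_forall fun w' => ?_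
    rw [Real.norm_eq_abs, abs_mul]
    exact mul_le_mul_of_nonneg_right (sum_tc_bd hκ hr hrs w w' M) (abs_nonneg _)
  · refine Eventually.of_forall fun w' => ?_
    have h := (t_TAYLOR κ hκ (r • (w : E3)) (s • (w' : E3))).1 (by
      rw [norm_smul_sph hr, norm_smul_sph hs]; exact hrs)
    exact (h.tendsto_sum_nat).mul_const _

theorem ev_VV_smul (κ : ℝ) {s : ℝ} (hs : 0 < s) {a : Sph → ℝ} (ha : Integrable a sg) (j : ℕ)
    (t : ℝ) (x : E3) : ev (VV κ s ha j) (t • x) = t ^ j * ev (VV κ s ha j) x :=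
  ev_smul ((VV_fam κ hs ha).hom j) t x

/-- `∫ (u_M - u_m)²` converges -/
theorem sq_tendsto {κ r s : ℝ} (hκ : 0 ≤ κ) (hr : 0 < r) (hrs : r < s) {a : Sph → ℝ}
    (ha : Integrable a sg) {c : Sph → ℝ} (hc : Continuous c) {B : ℝ} (hB : ∀ w, |c w| ≤ B) :
    Tendsto (fun M => ∫ w, (uM κ r s ha M w - c w) ^ 2 ∂sg) atTop
      (𝓝 (∫ w, (YK κ r s a w - c w) ^ 2 ∂sg)) := by
  set K := (1 - 2 * r / (r + s))⁻¹ * (1 / (2 * Real.pi * (s - r))) * ∫ w', |a w'| ∂sg with hK
  refine tendsto_integral_of_dominated_convergence (fun _ => (K + B) ^ 2) ?_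
    (integrable_const _) ?_ ?_
  · intro M
    exact (((uM_cont κ r s ha M).sub hc).pow 2).aestronglyMeasurable
  · intro M
    refine Eventually.of_forall fun w => ?_
    rw [Real.norm_eq_abs, abs_pow]
    refine pow_le_pow_left₀ (abs_nonneg _) ?_ 2
    exact (abs_sub _ _).trans (add_le_add (uM_bd hκ hr hrs ha M w) (hB w))
  · refine Eventually.of_forall fun w => ?_
    exact ((uM_tendsto hκ hr hrs ha w).sub_const _).pow 2

theorem cont_bdd {c : Sph → ℝ} (hc : Continuous c) : ∃ B : ℝ, ∀ w, |c w| ≤ B := by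
  obtain ⟨B, hB⟩ := (isCompact_univ (X := Sph)).exists_bound_of_continuousOn hc.continuousOn
  exact ⟨B, fun w => by simpa using hB w (mem_univ w)⟩

/-- outer truncation, `r < s' < s` -/
theorem caseIn {κ r s s' : ℝ} (hκ : 0 ≤ κ) (hr : 0 < r) (hrs : r < s') (hs : s' < s) {a : Sph → ℝ}
    (ha : Integrable a sg) (m : ℕ) :
    ∫ w, (YK κ r s a w - uM κ r s ha m w) ^ 2 ∂sg ≤
      ((r / s') ^ m) ^ 2 * ∫ w, YK κ s' s a w ^ 2 ∂sg := by
  have hs'0 : 0 < s' := hr.trans hrs
  have hs0 : 0 < s := hs'0.trans hs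
  obtain ⟨B, hB⟩ := cont_bdd (uM_cont κ r s ha m)
  have l1 := sq_tendsto hκ hr (hrs.trans hs) ha (uM_cont κ r s ha m) hB
  have l2 := sq_tendsto hκ hs'0 hs ha (c := fun _ => 0) continuous_const (B := 0) (by simp)
  simp only [sub_zero] at l2
  refine le_of_tendsto_of_tendsto l1 (l2.const_mul _) ?_
  filter_upwards [eventually_ge_atTop m] with M hM
  have h := quad_le (κ := κ) hs0 ha (A := Finset.Ico m M) (B := Finset.range M)
    (α := fun j => r ^ j) (β := fun j => (r / s') ^ m * s' ^ j)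
    (fun j hj => by rw [Finset.mem_Ico] at hj; exact Finset.mem_range.2 hj.2)
    (fun j hj => by
      rw [Finset.mem_Ico] at hj
      refine ⟨by positivity, ?_⟩
      obtain ⟨k, rfl⟩ : ∃ k, j = m + k := ⟨j - m, by omega⟩
      have h1 : (r / s') ^ m * s' ^ (m + k) = r ^ m * s' ^ k := by
        rw [div_pow, pow_add]; field_simp
      rw [h1, pow_add]
      exact mul_le_mul_of_nonneg_left (pow_le_pow_left₀ hr.le hrs.le k) (by positivity))
    (fun j _ => by positivity)
  have e1 : ∀ w : Sph, ∑ j ∈ Finset.Ico m M, r ^ j * ev (VV κ s ha j) w =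
      uM κ r s ha M w - uM κ r s ha m w := by
    intro w
    rw [uM, uM, Finset.sum_Ico_eq_sub _ hM]
    simp only [ev_VV_smul κ hs0]
  have e2 : ∀ w : Sph, ∑ j ∈ Finset.range M, (r / s') ^ m * s' ^ j * ev (VV κ s ha j) w =
      (r / s') ^ m * uM κ s' s ha M w := by
    intro w
    rw [uM, Finset.mul_sum]
    refine Finset.sum_congr rfl fun j _ => ?_
    rw [ev_VV_smul κ hs0]; ring
  simp only [e1, e2, mul_pow] at h
  rw [integral_const_mul] at h
  exact h

/-- inner truncation, `s' < r`, `s' < s` -/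
theorem caseOut {κ r s s' : ℝ} (hκ : 0 ≤ κ) (hs'0 : 0 < s') (hrs : s' < r) (hs : s' < s)
    {a : Sph → ℝ} (ha : Integrable a sg) (m : ℕ) (hm : 1 ≤ m) :
    ∫ w, uM κ r s ha m w ^ 2 ∂sg ≤
      ((r / s') ^ (m - 1)) ^ 2 * ∫ w, YK κ s' s a w ^ 2 ∂sg := by
  have hr : 0 < r := hs'0.trans hrs
  have hs0 : 0 < s := hs'0.trans hs
  have l2 := sq_tendsto hκ hs'0 hs ha (c := fun _ => 0) continuous_const (B := 0) (by simp)
  simp only [sub_zero] at l2
  refine le_of_tendsto_of_tendsto tendsto_const_nhds (l2.const_mul _) ?_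
  filter_upwards [eventually_ge_atTop m] with M hM
  have h := quad_le (κ := κ) hs0 ha (A := Finset.range m) (B := Finset.range M)
    (α := fun j => r ^ j) (β := fun j => (r / s') ^ (m - 1) * s' ^ j)
    (fun j hj => by rw [Finset.mem_range] at hj ⊢; omega)
    (fun j hj => by
      rw [Finset.mem_range] at hj
      refine ⟨by positivity, ?_⟩
      obtain ⟨k, hk⟩ : ∃ k, m - 1 = j + k := ⟨m - 1 - j, by omega⟩
      rw [hk]
      have h1 : (r / s') ^ (j + k) * s' ^ j = r ^ j * (r / s') ^ k := by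
        rw [pow_add, div_pow r s' j]; field_simp
      rw [h1]
      have h2 : 1 ≤ (r / s') ^ k := one_le_pow₀ ((one_le_div hs'0).2 hrs.le)
      nlinarith [pow_pos hr j])
    (fun j _ => by positivity)
  have e1 : ∀ w : Sph, ∑ j ∈ Finset.range m, r ^ j * ev (VV κ s ha j) w = uM κ r s ha m w := by
    intro w
    rw [uM]
    simp only [ev_VV_smul κ hs0]
  have e2 : ∀ w : Sph, ∑ j ∈ Finset.range M, (r / s') ^ (m - 1) * s' ^ j * ev (VV κ s ha j) w =
      (r / s') ^ (m - 1) * uM κ s' s ha M w := by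
    intro w
    rw [uM, Finset.mul_sum]
    refine Finset.sum_congr rfl fun j _ => ?_
    rw [ev_VV_smul κ hs0]; ring
  simp only [e1, e2, mul_pow] at h
  rw [integral_const_mul] at h
  exact h

end Pool.Agent.H196.HK
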