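import Pool.Agent.H196.HK.L2E
import Pool.Agent.H690.HK.BilB

/-! # HK project, task L2: the Schur bound for the Yukawa kernel between two spheres -/

set_option autoImplicit false

noncomputable section

namespace Pool.Agent.H196.HK

open Pool.Agent.H998.HK
open MeasureTheory Filter Topology Set MvPolynomial
open scoped ENNReal NNReal RealInnerProductSpace

section G

variable {κ r s : ℝ}

/-- `|r u - s w|² = (r-s)² + 2 r s b` -/
def SS (r s b : ℝ) : ℝ := (r - s) ^ 2 + 2 * r * s * b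

theorem SS_pos (hr : 0 < r) (hs : 0 < s) (hrs : r ≠ s) {b : ℝ} (hb : 0 ≤ b) : 0 < SS r s b := by
  have : 0 < (r - s) ^ 2 := by
    have := sub_ne_zero.2 hrs
    positivity
  unfold SS
  positivity

theorem yukR_nonneg (κ σ : ℝ) : 0 ≤ yukR κ σ := by
  unfold yukR
  have := Real.pi_pos
  positivity

theorem yukR_anti {κ : ℝ} (hκ : 0 ≤ κ) {σ τ : ℝ} (hσ : 0 < σ) (h : σ < τ) :
    yukR κ τ < yukR κ σ := by
  have hpi := Real.pi_pos
  have h1 : 0 < √σ := Real.sqrt_pos.2 hσ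
  have h2 : √σ < √τ := Real.sqrt_lt_sqrt hσ.le h
  have h3 : Real.exp (-(κ * √τ)) ≤ Real.exp (-(κ * √σ)) := by
    apply Real.exp_le_exp.2
    have := mul_le_mul_of_nonneg_left h2.le hκ
    linarith
  unfold yukR
  have h4 : 0 < 4 * Real.pi * √σ := by positivity
  have h5 : 4 * Real.pi * √σ < 4 * Real.pi * √τ := mul_lt_mul_of_pos_left h2 (by positivity)
  exact div_lt_div₀' h3 h5 (Real.exp_pos _) h4

theorem yukR_lim {κ : ℝ} (hκ : 0 ≤ κ) {t σ : ℝ} (ht : 0 < t) (hσ : 1 / t ^ 2 ≤ σ) :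
    yukR κ σ ≤ t := by
  have hpi := Real.pi_gt_three
  have h1 : 1 / t ≤ √σ := by
    apply Real.le_sqrt_of_sq_le
    rw [div_pow, one_pow]; exact hσ
  have h2 : 0 < 1 / t := by positivity
  have h3 : 0 < √σ := h2.trans_le h1
  unfold yukR
  rw [div_le_iff₀ (by positivity)]
  have h4 : Real.exp (-(κ * √σ)) ≤ 1 := by
    apply Real.exp_le_one_iff.2
    have : 0 ≤ κ * √σ := by positivity
    linarith
  have h5 : 1 ≤ t * √σ := by
    have := mul_le_mul_of_nonneg_left h1 ht.le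
    rwa [mul_one_div, div_self ht.ne'] at this
  nlinarith

theorem yukR_contOn (κ : ℝ) : ContinuousOn (yukR κ) (Ioi 0) := by
  unfold yukR
  refine ContinuousOn.div (by fun_prop) (by fun_prop) ?_
  intro x hx
  have := Real.pi_pos
  have : 0 < √x := Real.sqrt_pos.2 hx
  positivity

theorem SS_cont (r s : ℝ) : Continuous (SS r s) := by unfold SS; fun_prop

theorem SS_mono (hr : 0 < r) (hs : 0 < s) {b c : ℝ} (h : b < c) : SS r s b < SS r s c := by
  unfold SS
  have : 0 < r * s := mul_pos hr hs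
  nlinarith

/-- the level of `G` -/
theorem level (hκ : 0 ≤ κ) (hr : 0 < r) (hs : 0 < s) (hrs : r ≠ s) (u : Sph) {t : ℝ} (ht : 0 < t) :
    sg {w : Sph | t < yukR κ (SS r s (1 - ⟪(u : E3), (w : E3)⟫))} ≤
      48 * (volume.restrict (Ioi (0 : ℝ))) {b : ℝ | t < yukR κ (SS r s b)} := by
  have hb : ∀ w : Sph, 0 ≤ 1 - ⟪(u : E3), (w : E3)⟫ := fun w => by
    have := (abs_le.1 (Pool.Agent.H690.HK.abs_inner_le u w)).2
    linarith
  by_cases h0 : yukR κ (SS r s 0) ≤ t
  · have : {w : Sph | t < yukR κ (SS r s (1 - ⟪(u : E3), (w : E3)⟫))} = ∅ := by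
      ext w
      simp only [mem_ofPred_eq, mem_empty_iff_false, iff_false, not_lt]
      refine le_trans ?_ h0
      rcases (hb w).eq_or_lt with h | h
      · rw [← h]
      · exact (yukR_anti hκ (SS_pos hr hs hrs le_rfl) (SS_mono hr hs h)).le
    rw [this, measure_empty]
    exact zero_le
  · push Not at h0
    have hB : 0 ≤ 1 / (t ^ 2 * (2 * r * s)) := by positivity
    have hivt := intermediate_value_Icc' (f := fun b => yukR κ (SS r s b)) hB
      ((yukR_contOn κ).comp (SS_cont r s).continuousOn fun b hb => SS_pos hr hs hrs hb.1)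
    have hmem : t ∈ Icc (yukR κ (SS r s (1 / (t ^ 2 * (2 * r * s))))) (yukR κ (SS r s 0)) := by
      refine ⟨yukR_lim hκ ht ?_, h0.le⟩
      unfold SS
      have e : 2 * r * s * (1 / (t ^ 2 * (2 * r * s))) = 1 / t ^ 2 := by
        field_simp
      rw [e]
      nlinarith [sq_nonneg (r - s)]
    obtain ⟨τ, hτ, hτt⟩ := hivt hmem
    simp only at hτt
    have hτ0 : 0 < τ := by
      rcases hτ.1.eq_or_lt with h | h
      · rw [← h] at hτt; linarith
      · exact h
    have h1 : {w : Sph | t < yukR κ (SS r s (1 - ⟪(u : E3), (w : E3)⟫))} ⊆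
        {w : Sph | 1 - ⟪(u : E3), (w : E3)⟫ < τ} := by
      intro w hw
      simp only [mem_ofPred_eq] at hw ⊢
      by_contra hcon
      push Not at hcon
      rcases hcon.eq_or_lt with h | h
      · rw [← h, hτt] at hw; exact lt_irrefl _ hw
      · have := yukR_anti hκ (SS_pos hr hs hrs hτ0.le) (SS_mono hr hs h)
        linarith
    have h2 : Ioo 0 τ ⊆ {b : ℝ | t < yukR κ (SS r s b)} ∩ Ioi 0 := by
      intro b hb
      refine ⟨?_, hb.1⟩
      simp only [mem_ofPred_eq]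
      rw [← hτt]
      exact yukR_anti hκ (SS_pos hr hs hrs hb.1.le) (SS_mono hr hs hb.2)
    have hu : ‖(u : E3)‖ = 1 := norm_sph u
    calc sg {w : Sph | t < yukR κ (SS r s (1 - ⟪(u : E3), (w : E3)⟫))}
        ≤ sg {w : Sph | 1 - ⟪(u : E3), (w : E3)⟫ < τ} := measure_mono h1
      _ ≤ ENNReal.ofReal (48 * τ) := Pool.Agent.H690.HK.cap_measure (u : E3) hu hτ0
      _ = 48 * volume (Ioo 0 τ) := by
          rw [Real.volume_Ioo, sub_zero, ENNReal.ofReal_mul (by norm_num)]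
          norm_num
      _ ≤ _ := by
          rw [Measure.restrict_apply' measurableSet_Ioi]
          exact mul_le_mul_right (measure_mono h2) _

theorem G_int (hκ : 0 < κ) (hr : 0 < r) (hs : 0 < s) (hrs : r ≠ s) :
    ∫⁻ b in Ioi (0 : ℝ), ENNReal.ofReal (yukR κ (SS r s b)) ≤
      ENNReal.ofReal (1 / (4 * Real.pi * κ * r * s)) := by
  have hpi := Real.pi_pos
  set H : ℝ → ℝ := fun b => -(Real.exp (-(κ * √(SS r s b))) / (4 * Real.pi * κ * r * s)) with hH
  have hd : ∀ b ∈ Ici (0 : ℝ), HasDerivAt H (yukR κ (SS r s b)) b := by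
    intro b hb
    have hS := SS_pos hr hs hrs (show 0 ≤ b from hb)
    have hsq : 0 < √(SS r s b) := Real.sqrt_pos.2 hS
    have h1 : HasDerivAt (SS r s) (2 * r * s) b := by
      unfold SS
      simpa using ((hasDerivAt_id b).const_mul (2 * r * s)).const_add ((r - s) ^ 2)
    have h2 := h1.sqrt hS.ne'
    have h3 := (((h2.const_mul κ).neg.exp).div_const (4 * Real.pi * κ * r * s)).neg
    refine h3.congr_deriv ?_
    unfold yukR
    have e : (-fun y => κ * √(SS r s y)) b = -(κ * √(SS r s b)) := rfl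
    rw [e]
    field_simp
  have hpos : ∀ b ∈ Ioi (0 : ℝ), 0 ≤ yukR κ (SS r s b) := fun b _ => yukR_nonneg _ _
  have hlim : Tendsto H atTop (𝓝 0) := by
    have h1 : Tendsto (SS r s) atTop atTop := by
      unfold SS
      exact tendsto_atTop_add_const_left _ _ (tendsto_id.const_mul_atTop (by positivity))
    have h2 : Tendsto (fun b => κ * √(SS r s b)) atTop atTop :=
      (Real.tendsto_sqrt_atTop.comp h1).const_mul_atTop hκ
    have h3 := (Real.tendsto_exp_neg_atTop_nhds_zero.comp h2).div_const (4 * Real.pi * κ * r * s)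
    have h4 := h3.neg
    simpa [hH, Function.comp_def] using h4
  have hint := integrableOn_Ioi_deriv_of_nonneg' hd hpos hlim
  have hval := integral_Ioi_of_hasDerivAt_of_nonneg' hd hpos hlim
  rw [← ofReal_integral_eq_lintegral_ofReal hint (Eventually.of_forall fun b => yukR_nonneg _ _),
    hval]
  apply ENNReal.ofReal_le_ofReal
  simp only [hH, zero_sub, neg_neg]
  have : Real.exp (-(κ * √(SS r s 0))) ≤ 1 := by
    apply Real.exp_le_one_iff.2
    have : 0 ≤ κ * √(SS r s 0) := by positivity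
    linarith
  gcongr

theorem norm_sq_sub (hr : 0 < r) (hs : 0 < s) (u w : Sph) :
    ‖r • (u : E3) - s • (w : E3)‖ ^ 2 = SS r s (1 - ⟪(u : E3), (w : E3)⟫) := by
  rw [norm_sub_sq_real, norm_smul_sph hr, norm_smul_sph hs, inner_smul_left, inner_smul_right]
  simp only [conj_trivial]
  unfold SS
  ring

theorem schur_pt (hκ : 0 < κ) (hr : 0 < r) (hs : 0 < s) (hrs : r ≠ s) (u : Sph) :
    ∫⁻ w : Sph, ENNReal.ofReal (yuk κ (r • (u : E3) - s • (w : E3))) ∂sg ≤
      ENNReal.ofReal (12 / (Real.pi * κ * r * s)) := by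
  have hpi := Real.pi_pos
  have h0 : ∀ w : Sph, yuk κ (r • (u : E3) - s • (w : E3)) =
      yukR κ (SS r s (1 - ⟪(u : E3), (w : E3)⟫)) := fun w => by
    unfold yuk; rw [norm_sq_sub hr hs]
  simp only [h0]
  have hm1 : Measurable fun w : Sph => yukR κ (SS r s (1 - ⟪(u : E3), (w : E3)⟫)) := by
    refine (Pool.Agent.H690.HK.yukR_meas κ).comp ?_
    exact ((SS_cont r s).comp (by fun_prop)).measurable
  have hm2 : Measurable fun b : ℝ => yukR κ (SS r s b) :=
    (Pool.Agent.H690.HK.yukR_meas κ).comp (SS_cont r s).measurable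
  rw [lintegral_eq_lintegral_meas_lt sg (Eventually.of_forall fun w => yukR_nonneg _ _)
    hm1.aemeasurable]
  calc ∫⁻ t in Ioi (0 : ℝ), sg {w : Sph | t < yukR κ (SS r s (1 - ⟪(u : E3), (w : E3)⟫))}
      ≤ ∫⁻ t in Ioi (0 : ℝ), 48 * (volume.restrict (Ioi (0 : ℝ))) {b : ℝ | t < yukR κ (SS r s b)} :=
        setLIntegral_mono' measurableSet_Ioi fun t ht => level hκ.le hr hs hrs u ht
    _ = 48 * ∫⁻ t in Ioi (0 : ℝ), (volume.restrict (Ioi (0 : ℝ))) {b : ℝ | t < yukR κ (SS r s b)} :=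
        lintegral_const_mul' _ _ (by norm_num)
    _ = 48 * ∫⁻ b in Ioi (0 : ℝ), ENNReal.ofReal (yukR κ (SS r s b)) := by
        rw [lintegral_eq_lintegral_meas_lt (volume.restrict (Ioi (0 : ℝ)))
          (Eventually.of_forall fun w => yukR_nonneg _ _) hm2.aemeasurable]
    _ ≤ 48 * ENNReal.ofReal (1 / (4 * Real.pi * κ * r * s)) :=
        mul_le_mul_right (G_int hκ hr hs hrs) _
    _ = ENNReal.ofReal (12 / (Real.pi * κ * r * s)) := by
        rw [show (48 : ℝ≥0∞) = ENNReal.ofReal 48 by norm_num, ← ENNReal.ofReal_mul (by norm_num)]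
        congr 1
        field_simp
        norm_num

end G

/-! ### Schur test -/

theorem schur_gen {X Y : Type} [MeasurableSpace X] [MeasurableSpace Y] {μ : Measure X}
    {ν : Measure Y} [SFinite μ] [SFinite ν] {k : X → Y → ℝ≥0∞} (hk : Measurable (Function.uncurry k))
    {A : ℝ≥0∞} (hA : A ≠ ∞) (h1 : ∀ x, ∫⁻ y, k x y ∂ν ≤ A) (h2 : ∀ y, ∫⁻ x, k x y ∂μ ≤ A)
    {a : Y → ℝ≥0∞} (ha : AEMeasurable a ν) :
    ∫⁻ x, (∫⁻ y, k x y * a y ∂ν) ^ 2 ∂μ ≤ A ^ 2 * ∫⁻ y, a y ^ 2 ∂ν := by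
  wlog hm : Measurable a generalizing a
  · have h3 := this (a := ha.mk a) ha.measurable_mk.aemeasurable ha.measurable_mk
    have e1 : ∀ x, ∫⁻ y, k x y * a y ∂ν = ∫⁻ y, k x y * ha.mk a y ∂ν := fun x =>
      lintegral_congr_ae (by filter_upwards [ha.ae_eq_mk] with y hy; rw [hy])
    have e2 : ∫⁻ y, a y ^ 2 ∂ν = ∫⁻ y, ha.mk a y ^ 2 ∂ν :=
      lintegral_congr_ae (by filter_upwards [ha.ae_eq_mk] with y hy; rw [hy])
    simp only [e1, e2]
    exact h3
  have hkx : ∀ x, Measurable (k x) := fun x => hk.comp measurable_prodMk_left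
  have step : ∀ x, (∫⁻ y, k x y * a y ∂ν) ^ 2 ≤ A * ∫⁻ y, k x y * a y ^ 2 ∂ν := by
    intro x
    have hH := ENNReal.lintegral_mul_le_Lp_mul_Lq ν Real.HolderConjugate.two_two
      (f := fun y => (k x y) ^ (1 / 2 : ℝ)) (g := fun y => (k x y) ^ (1 / 2 : ℝ) * a y)
      ((hkx x).pow_const _).aemeasurable (((hkx x).pow_const _).mul hm).aemeasurable
    have e1 : ∀ y, ((fun y => (k x y) ^ (1 / 2 : ℝ)) * fun y => (k x y) ^ (1 / 2 : ℝ) * a y) y =
        k x y * a y := by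
      intro y
      simp only [Pi.mul_apply]
      rw [← mul_assoc, ← ENNReal.rpow_add_of_nonneg _ _ (by norm_num) (by norm_num)]
      norm_num
    have e2 : ∀ y, ((k x y) ^ (1 / 2 : ℝ)) ^ (2 : ℝ) = k x y := by
      intro y
      rw [← ENNReal.rpow_mul]; norm_num
    have e3 : ∀ y, ((k x y) ^ (1 / 2 : ℝ) * a y) ^ (2 : ℝ) = k x y * a y ^ 2 := by
      intro y
      rw [ENNReal.mul_rpow_of_nonneg _ _ (by norm_num), e2]
      norm_num
    simp only [e1, e2, e3] at hH
    calc (∫⁻ y, k x y * a y ∂ν) ^ 2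
        ≤ ((∫⁻ y, k x y ∂ν) ^ (1 / 2 : ℝ) * (∫⁻ y, k x y * a y ^ 2 ∂ν) ^ (1 / 2 : ℝ)) ^ 2 := by
          gcongr
      _ = (∫⁻ y, k x y ∂ν) * (∫⁻ y, k x y * a y ^ 2 ∂ν) := by
          rw [mul_pow, ← ENNReal.rpow_natCast, ← ENNReal.rpow_natCast, ← ENNReal.rpow_mul,
            ← ENNReal.rpow_mul]
          norm_num
      _ ≤ _ := mul_le_mul_left (h1 x) _
  calc ∫⁻ x, (∫⁻ y, k x y * a y ∂ν) ^ 2 ∂μ
      ≤ ∫⁻ x, A * ∫⁻ y, k x y * a y ^ 2 ∂ν ∂μ := lintegral_mono step
    _ = A * ∫⁻ x, ∫⁻ y, k x y * a y ^ 2 ∂ν ∂μ := lintegral_const_mul' _ _ hA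
    _ = A * ∫⁻ y, ∫⁻ x, k x y * a y ^ 2 ∂μ ∂ν := by
        rw [lintegral_lintegral_swap]
        exact (hk.mul ((hm.comp measurable_snd).pow_const 2)).aemeasurable
    _ = A * ∫⁻ y, (∫⁻ x, k x y ∂μ) * a y ^ 2 ∂ν := by
        congr 1
        refine lintegral_congr fun y => ?_
        have hky : Measurable fun x => k x y := hk.comp measurable_prodMk_right
        rw [lintegral_mul_const _ hky]
    _ ≤ A * ∫⁻ y, A * a y ^ 2 ∂ν := by
        gcongr with y
        exact h2 y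
    _ = A ^ 2 * ∫⁻ y, a y ^ 2 ∂ν := by
        rw [lintegral_const_mul' _ _ hA, ← mul_assoc, pow_two]

theorem yuk_symm (κ : ℝ) (x y : E3) : yuk κ (x - y) = yuk κ (y - x) := by
  unfold yuk; rw [norm_sub_rev]

theorem yuk_nonneg (κ : ℝ) (x : E3) : 0 ≤ yuk κ x := yukR_nonneg _ _

theorem yuk_meas2 (κ r s : ℝ) : Measurable (Function.uncurry fun w w' : Sph =>
    ENNReal.ofReal (yuk κ (r • (w : E3) - s • (w' : E3)))) := by
  refine Measurable.ennreal_ofReal ?_
  unfold yuk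
  exact (Pool.Agent.H690.HK.yukR_meas κ).comp (Continuous.measurable (by fun_prop))

/-- Schur bound for `YK` -/
theorem YK_le {κ r s : ℝ} (hκ : 0 < κ) (hr : 0 < r) (hs : 0 < s) (hrs : r ≠ s) {a : Sph → ℝ}
    (ha : MemLp a 2 sg) :
    ∫ w, YK κ r s a w ^ 2 ∂sg ≤ (12 / (Real.pi * κ * r * s)) ^ 2 * ∫ w, a w ^ 2 ∂sg := by
  have hpi := Real.pi_pos
  set A : ℝ := 12 / (Real.pi * κ * r * s) with hA
  have hA0 : 0 ≤ A := by positivity
  have hS := schur_gen (μ := sg) (ν := sg) (k := fun w w' : Sph =>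
    ENNReal.ofReal (yuk κ (r • (w : E3) - s • (w' : E3)))) (yuk_meas2 κ r s)
    (A := ENNReal.ofReal A) ENNReal.ofReal_ne_top (fun u => schur_pt hκ hr hs hrs u)
    (fun u => by
      have h1 := schur_pt hκ hs hr hrs.symm u
      have e : 12 / (Real.pi * κ * s * r) = A := by rw [hA]; congr 1; ring
      rw [e] at h1
      simp only [yuk_symm κ (r • _) (s • (u : E3))]
      exact h1)
    (a := fun w => ENNReal.ofReal |a w|) (ha.1.aemeasurable.norm.ennreal_ofReal)
  have hint : Integrable (fun w => a w ^ 2) sg := ha.integrable_sq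
  by_cases hY : Integrable (fun w => YK κ r s a w ^ 2) sg
  · have e1 : ENNReal.ofReal (∫ w, YK κ r s a w ^ 2 ∂sg) =
        ∫⁻ w, ENNReal.ofReal (YK κ r s a w ^ 2) ∂sg :=
      ofReal_integral_eq_lintegral_ofReal hY (Eventually.of_forall fun w => sq_nonneg _)
    have e2 : ENNReal.ofReal (∫ w, a w ^ 2 ∂sg) = ∫⁻ w, ENNReal.ofReal |a w| ^ 2 ∂sg := by
      rw [ofReal_integral_eq_lintegral_ofReal hint (Eventually.of_forall fun w => sq_nonneg _)]
      refine lintegral_congr fun w => ?_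
      rw [← ENNReal.ofReal_pow (abs_nonneg _), sq_abs]
    have e3 : ∫⁻ w, ENNReal.ofReal (YK κ r s a w ^ 2) ∂sg ≤
        ∫⁻ w, (∫⁻ w', ENNReal.ofReal (yuk κ (r • (w : E3) - s • (w' : E3))) *
          ENNReal.ofReal |a w'| ∂sg) ^ 2 ∂sg := by
      refine lintegral_mono fun w => ?_
      rw [← sq_abs, ENNReal.ofReal_pow (abs_nonneg _)]
      refine pow_le_pow_left' ?_ 2
      unfold YK
      rw [← Real.norm_eq_abs, ofReal_norm]
      refine (enorm_integral_le_lintegral_enorm _).trans (le_of_eq ?_)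
      refine lintegral_congr fun w' => ?_
      rw [← ofReal_norm, norm_mul, Real.norm_of_nonneg (yuk_nonneg _ _),
        ENNReal.ofReal_mul (yuk_nonneg _ _), Real.norm_eq_abs]
    have h := e3.trans hS
    rw [← e1, ← e2, ← ENNReal.ofReal_pow hA0, ← ENNReal.ofReal_mul (by positivity)] at h
    have hnn : 0 ≤ ∫ w, a w ^ 2 ∂sg := integral_nonneg fun w => sq_nonneg _
    exact (ENNReal.ofReal_le_ofReal_iff (by positivity)).1 h
  · rw [integral_undef hY]
    have hnn : 0 ≤ ∫ w, a w ^ 2 ∂sg := integral_nonneg fun w => sq_nonneg _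
    positivity

end Pool.Agent.H196.HK
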