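import Pool.Agent.H196.HK.L2F

/-! # HK project, task L2: the bound for the truncated kernel between two spheres -/

set_option autoImplicit false

noncomputable section

namespace Pool.Agent.H196.HK

open Pool.Agent.H998.HK
open MeasureTheory Filter Topology Set MvPolynomial
open scoped ENNReal NNReal RealInnerProductSpace

/-- the truncated kernel applied to `a` -/
def KK (κ r s : ℝ) (m : ℕ) (a : Sph → ℝ) (w : Sph) : ℝ :=
  ∫ w' : Sph, Km κ m (r • (w : E3)) (s • (w' : E3)) * a w' ∂sg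

theorem yuk_bdd {κ r s : ℝ} (hκ : 0 ≤ κ) (hr : 0 < r) (hs : 0 < s) (hrs : r ≠ s) (w w' : Sph) :
    |yuk κ (r • (w : E3) - s • (w' : E3))| ≤ 1 / (4 * Real.pi * |r - s|) := by
  have hpi := Real.pi_pos
  have h0 : 0 < |r - s| := abs_pos.2 (sub_ne_zero.2 hrs)
  rw [abs_of_nonneg (yuk_nonneg _ _)]
  have h1 : |r - s| ≤ ‖r • (w : E3) - s • (w' : E3)‖ := by
    have := abs_norm_sub_norm_le (r • (w : E3)) (s • (w' : E3))
    rwa [norm_smul_sph hr, norm_smul_sph hs] at this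
  have h2 : √(‖r • (w : E3) - s • (w' : E3)‖ ^ 2) = ‖r • (w : E3) - s • (w' : E3)‖ :=
    Real.sqrt_sq (norm_nonneg _)
  unfold yuk yukR
  rw [h2]
  have h3 : Real.exp (-(κ * ‖r • (w : E3) - s • (w' : E3)‖)) ≤ 1 := by
    apply Real.exp_le_one_iff.2
    have : 0 ≤ κ * ‖r • (w : E3) - s • (w' : E3)‖ := by positivity
    linarith
  gcongr

theorem yuk_meas1 (κ r s : ℝ) (w : Sph) : Measurable fun w' : Sph =>
    yuk κ (r • (w : E3) - s • (w' : E3)) := by
  unfold yuk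
  exact (Pool.Agent.H690.HK.yukR_meas κ).comp (Continuous.measurable (by fun_prop))

theorem yuk_int {κ r s : ℝ} (hκ : 0 ≤ κ) (hr : 0 < r) (hs : 0 < s) (hrs : r ≠ s) {a : Sph → ℝ}
    (ha : Integrable a sg) (w : Sph) :
    Integrable (fun w' : Sph => yuk κ (r • (w : E3) - s • (w' : E3)) * a w') sg :=
  ha.bdd_mul (yuk_meas1 κ r s w).aestronglyMeasurable
    (Eventually.of_forall fun w' => by
      rw [Real.norm_eq_abs]; exact yuk_bdd hκ hr hs hrs w w')

theorem KK_eq {κ r s : ℝ} (hκ : 0 ≤ κ) (hr : 0 < r) (hs : 0 < s) (hrs : r ≠ s) {a : Sph → ℝ}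
    (ha : Integrable a sg) (m : ℕ) (w : Sph) :
    KK κ r s m a w = YK κ r s a w - uM κ r s ha m w := by
  rw [uM_eq, KK, YK, ← integral_sub (yuk_int hκ hr hs hrs ha w)]
  · refine integral_congr_ae (Eventually.of_forall fun w' => ?_)
    simp only [Km]
    ring
  · simp only [Finset.sum_mul]
    exact integrable_finsetSum _ fun j _ => tc_int κ s ha j _

theorem YK_cont {κ r s : ℝ} (hκ : 0 ≤ κ) (hr : 0 < r) (hs : 0 < s) (hrs : r ≠ s) {a : Sph → ℝ}
    (ha : Integrable a sg) : Continuous (YK κ r s a) := by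
  unfold YK
  refine continuous_of_dominated (bound := fun w' => 1 / (4 * Real.pi * |r - s|) * |a w'|) ?_ ?_ ?_ ?_
  · intro w
    exact (yuk_int hκ hr hs hrs ha w).aestronglyMeasurable
  · intro w
    refine Eventually.of_forall fun w' => ?_
    rw [Real.norm_eq_abs, abs_mul]
    exact mul_le_mul_of_nonneg_right (yuk_bdd hκ hr hs hrs w w') (abs_nonneg _)
  · exact ha.abs.const_mul _
  · refine Eventually.of_forall fun w' => Continuous.mul ?_ continuous_const
    have e : (fun w : Sph => yuk κ (r • (w : E3) - s • (w' : E3))) =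
        fun w : Sph => yukR κ (SS r s (1 - ⟪(w : E3), (w' : E3)⟫)) := by
      funext w; unfold yuk; rw [norm_sq_sub hr hs]
    rw [e]
    refine (yukR_contOn κ).comp_continuous ((SS_cont r s).comp (by fun_prop)) fun w => ?_
    refine SS_pos hr hs hrs ?_
    have := (abs_le.1 (Pool.Agent.H690.HK.abs_inner_le w w')).2
    linarith

/-- the constant -/
def AA : ℝ := 12 / Real.pi

theorem AA_pos : 0 < AA := by unfold AA; have := Real.pi_pos; positivity

theorem YK_le' {κ r s : ℝ} (hκ : 0 < κ) (hr : 0 < r) (hs : 0 < s) (hrs : r ≠ s) {a : Sph → ℝ}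
    (ha : MemLp a 2 sg) :
    ∫ w, YK κ r s a w ^ 2 ∂sg ≤ (AA / (κ * r * s)) ^ 2 * ∫ w, a w ^ 2 ∂sg := by
  have h := YK_le hκ hr hs hrs ha
  have e : 12 / (Real.pi * κ * r * s) = AA / (κ * r * s) := by
    have := Real.pi_pos
    unfold AA; field_simp
  rwa [e] at h

theorem inner_bd {κ r s : ℝ} (hκ : 0 < κ) (hr : 0 < r) (hrs : r < s) {a : Sph → ℝ}
    (ha : MemLp a 2 sg) (ha1 : Integrable a sg) (m : ℕ) :
    ∫ w, (YK κ r s a w - uM κ r s ha1 m w) ^ 2 ∂sg ≤
      ((r / s) ^ m) ^ 2 * ((AA / (κ * s * s)) ^ 2 * ∫ w, a w ^ 2 ∂sg) := by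
  have hs : 0 < s := hr.trans hrs
  have hlim : Tendsto (fun s' => ((r / s') ^ m) ^ 2 * ((AA / (κ * s' * s)) ^ 2 * ∫ w, a w ^ 2 ∂sg))
      (𝓝[<] s) (𝓝 (((r / s) ^ m) ^ 2 * ((AA / (κ * s * s)) ^ 2 * ∫ w, a w ^ 2 ∂sg))) := by
    have hc : ContinuousAt (fun s' => ((r / s') ^ m) ^ 2 *
        ((AA / (κ * s' * s)) ^ 2 * ∫ w, a w ^ 2 ∂sg)) s := by
      have h1 : s ≠ 0 := hs.ne'
      have h2 : κ * s * s ≠ 0 := by positivity
      fun_prop (disch := assumption)
    exact hc.tendsto.mono_left nhdsWithin_le_nhds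
  refine ge_of_tendsto hlim ?_
  filter_upwards [Ioo_mem_nhdsLT hrs] with s' hs'
  have h1 := caseIn hκ.le hr hs'.1 hs'.2 ha1 m
  have h2 := YK_le' hκ (hr.trans hs'.1) hs hs'.2.ne ha
  exact h1.trans (mul_le_mul_of_nonneg_left h2 (by positivity))

theorem outer_bd {κ r s : ℝ} (hκ : 0 < κ) (hs : 0 < s) (hrs : s < r) {a : Sph → ℝ}
    (ha : MemLp a 2 sg) (ha1 : Integrable a sg) (m : ℕ) (hm : 1 ≤ m) :
    ∫ w, uM κ r s ha1 m w ^ 2 ∂sg ≤
      ((r / s) ^ (m - 1)) ^ 2 * ((AA / (κ * s * s)) ^ 2 * ∫ w, a w ^ 2 ∂sg) := by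
  have hlim : Tendsto (fun s' => ((r / s') ^ (m - 1)) ^ 2 *
      ((AA / (κ * s' * s)) ^ 2 * ∫ w, a w ^ 2 ∂sg))
      (𝓝[<] s) (𝓝 (((r / s) ^ (m - 1)) ^ 2 * ((AA / (κ * s * s)) ^ 2 * ∫ w, a w ^ 2 ∂sg))) := by
    have hc : ContinuousAt (fun s' => ((r / s') ^ (m - 1)) ^ 2 *
        ((AA / (κ * s' * s)) ^ 2 * ∫ w, a w ^ 2 ∂sg)) s := by
      have h1 : s ≠ 0 := hs.ne'
      have h2 : κ * s * s ≠ 0 := by positivity
      fun_prop (disch := assumption)
    exact hc.tendsto.mono_left nhdsWithin_le_nhds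
  refine ge_of_tendsto hlim ?_
  filter_upwards [Ioo_mem_nhdsLT hs] with s' hs'
  have h1 := caseOut hκ.le hs'.1 (hs'.2.trans hrs) hs'.2 ha1 m hm
  have h2 := YK_le' hκ hs'.1 hs hs'.2.ne ha
  exact h1.trans (mul_le_mul_of_nonneg_left h2 (by positivity))

theorem w_split {r s : ℝ} (hr : 0 < r) (hs : 0 < s) (m : ℕ) :
    (s / r) ^ ((m : ℝ) + 1 / 4) = (s / r) ^ m * (s / r) ^ (1 / 4 : ℝ) := by
  rw [Real.rpow_add (by positivity), Real.rpow_natCast]

theorem main_sph {κ r s : ℝ} (hκ : 0 < κ) (hr : 0 < r) (hs : 0 < s) (hrs : r ≠ s) {a : Sph → ℝ}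
    (ha : MemLp a 2 sg) (m : ℕ) (hm : 1 ≤ m) :
    ((s / r) ^ ((m : ℝ) + 1 / 4)) ^ 2 * ∫ w, KK κ r s m a w ^ 2 ∂sg ≤
      (2 * AA / (κ * r * s)) ^ 2 * ∫ w, a w ^ 2 ∂sg := by
  have ha1 : Integrable a sg := ha.integrable one_le_two
  have hA := AA_pos
  have hI : 0 ≤ ∫ w, a w ^ 2 ∂sg := integral_nonneg fun w => sq_nonneg _
  simp only [KK_eq hκ.le hr hs hrs ha1]
  rw [w_split hr hs]
  set I := ∫ w, a w ^ 2 ∂sg with hIdef
  have hq0 : 0 < (s / r) ^ (1 / 4 : ℝ) := Real.rpow_pos_of_pos (by positivity) _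
  rcases lt_or_gt_of_ne hrs with h | h
  · have h1 := inner_bd hκ hr h ha ha1 m
    have hq : (s / r) ^ (1 / 4 : ℝ) ≤ s / r := by
      have h1s : 1 ≤ s / r := (one_le_div hr).2 h.le
      calc (s / r) ^ (1 / 4 : ℝ) ≤ (s / r) ^ (1 : ℝ) :=
            Real.rpow_le_rpow_of_exponent_le h1s (by norm_num)
        _ = s / r := Real.rpow_one _
    calc ((s / r) ^ m * (s / r) ^ (1 / 4 : ℝ)) ^ 2 *
          ∫ w, (YK κ r s a w - uM κ r s ha1 m w) ^ 2 ∂sg
        ≤ ((s / r) ^ m * (s / r) ^ (1 / 4 : ℝ)) ^ 2 *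
          (((r / s) ^ m) ^ 2 * ((AA / (κ * s * s)) ^ 2 * I)) :=
          mul_le_mul_of_nonneg_left h1 (by positivity)
      _ = ((s / r) ^ (1 / 4 : ℝ)) ^ 2 * ((AA / (κ * s * s)) ^ 2 * I) := by
          have : (s / r) ^ m * (r / s) ^ m = 1 := by
            rw [← mul_pow]
            have : s / r * (r / s) = 1 := by field_simp
            rw [this, one_pow]
          calc _ = ((s / r) ^ m * (r / s) ^ m) ^ 2 * (((s / r) ^ (1 / 4 : ℝ)) ^ 2 *
                ((AA / (κ * s * s)) ^ 2 * I)) := by ring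
            _ = _ := by rw [this]; ring
      _ ≤ (s / r) ^ 2 * ((AA / (κ * s * s)) ^ 2 * I) := by gcongr
      _ = (AA / (κ * r * s)) ^ 2 * I := by
          have : s / r * (AA / (κ * s * s)) = AA / (κ * r * s) := by field_simp
          rw [← this]; ring
      _ ≤ _ := by
          gcongr
          linarith
  · -- `s < r`
    have hY := YK_le' hκ hr hs hrs ha
    have hU := outer_bd hκ hs h ha ha1 m hm
    have hYi : Integrable (fun w => YK κ r s a w ^ 2) sg :=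
      ((YK_cont hκ.le hr hs hrs ha1).pow 2).integrable_of_hasCompactSupport
        (HasCompactSupport.of_compactSpace _)
    have hUi : Integrable (fun w => uM κ r s ha1 m w ^ 2) sg :=
      ((uM_cont κ r s ha1 m).pow 2).integrable_of_hasCompactSupport
        (HasCompactSupport.of_compactSpace _)
    have hD : ∫ w, (YK κ r s a w - uM κ r s ha1 m w) ^ 2 ∂sg ≤
        2 * (∫ w, YK κ r s a w ^ 2 ∂sg) + 2 * ∫ w, uM κ r s ha1 m w ^ 2 ∂sg := by
      rw [← integral_const_mul, ← integral_const_mul, ← integral_add (hYi.const_mul 2)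
        (hUi.const_mul 2)]
      refine integral_mono_of_nonneg (Eventually.of_forall fun w => sq_nonneg _)
        ((hYi.const_mul 2).add (hUi.const_mul 2)) (Eventually.of_forall fun w => ?_)
      simp only
      nlinarith [sq_nonneg (YK κ r s a w + uM κ r s ha1 m w)]
    have h1s : s / r ≤ 1 := (div_le_one hr).2 h.le
    have hq : (s / r) ^ (1 / 4 : ℝ) ≤ 1 := Real.rpow_le_one (by positivity) h1s (by norm_num)
    have hp : (s / r) ^ m ≤ 1 := pow_le_one₀ (by positivity) h1s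
    have b1 : ((s / r) ^ m * (s / r) ^ (1 / 4 : ℝ)) ^ 2 * ∫ w, YK κ r s a w ^ 2 ∂sg ≤
        (AA / (κ * r * s)) ^ 2 * I := by
      refine le_trans ?_ hY
      have hnn : 0 ≤ ∫ w, YK κ r s a w ^ 2 ∂sg := integral_nonneg fun w => sq_nonneg _
      have : ((s / r) ^ m * (s / r) ^ (1 / 4 : ℝ)) ^ 2 ≤ 1 := by
        apply pow_le_one₀ (by positivity)
        exact mul_le_one₀ hp hq0.le hq
      nlinarith
    have b2 : ((s / r) ^ m * (s / r) ^ (1 / 4 : ℝ)) ^ 2 * ∫ w, uM κ r s ha1 m w ^ 2 ∂sg ≤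
        (AA / (κ * r * s)) ^ 2 * I := by
      calc _ ≤ ((s / r) ^ m * (s / r) ^ (1 / 4 : ℝ)) ^ 2 *
            (((r / s) ^ (m - 1)) ^ 2 * ((AA / (κ * s * s)) ^ 2 * I)) :=
            mul_le_mul_of_nonneg_left hU (by positivity)
        _ = ((s / r) * (s / r) ^ (1 / 4 : ℝ)) ^ 2 * ((AA / (κ * s * s)) ^ 2 * I) := by
            have : (s / r) ^ (m - 1) * (r / s) ^ (m - 1) = 1 := by
              rw [← mul_pow]
              have : s / r * (r / s) = 1 := by field_simp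
              rw [this, one_pow]
            have hm1 : (s / r) ^ m = (s / r) ^ (m - 1) * (s / r) := by
              rw [← pow_succ]; congr 1; omega
            rw [hm1]
            calc _ = ((s / r) ^ (m - 1) * (r / s) ^ (m - 1)) ^ 2 *
                  (((s / r) * (s / r) ^ (1 / 4 : ℝ)) ^ 2 * ((AA / (κ * s * s)) ^ 2 * I)) := by ring
              _ = _ := by rw [this]; ring
        _ ≤ ((s / r) * 1) ^ 2 * ((AA / (κ * s * s)) ^ 2 * I) := by gcongr
        _ = (AA / (κ * r * s)) ^ 2 * I := by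
            have : s / r * (AA / (κ * s * s)) = AA / (κ * r * s) := by field_simp
            rw [← this]; ring
    calc _ ≤ ((s / r) ^ m * (s / r) ^ (1 / 4 : ℝ)) ^ 2 *
          (2 * (∫ w, YK κ r s a w ^ 2 ∂sg) + 2 * ∫ w, uM κ r s ha1 m w ^ 2 ∂sg) :=
          mul_le_mul_of_nonneg_left hD (by positivity)
      _ ≤ 4 * ((AA / (κ * r * s)) ^ 2 * I) := by linarith
      _ = _ := by ring

end Pool.Agent.H196.HK
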