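import Pool.Agent.H196.HK.L2G

/-! # HK project, task L2: assembly -/

set_option autoImplicit false

noncomputable section

namespace Pool.Agent.H196.HK

open Pool.Agent.H998.HK
open MeasureTheory Filter Topology Set MvPolynomial
open scoped ENNReal NNReal RealInnerProductSpace

/-! ### shuffling a product of four measures -/

theorem shuffle_mp {α β γ δ : Type*} [MeasurableSpace α] [MeasurableSpace β] [MeasurableSpace γ]
    [MeasurableSpace δ] (μa : Measure α) (μb : Measure β) (μc : Measure γ) (μd : Measure δ)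
    [SigmaFinite μa] [SigmaFinite μb] [SigmaFinite μc] [SigmaFinite μd] :
    MeasurePreserving (fun z : (α × β) × (γ × δ) => ((z.1.1, z.2.1), (z.1.2, z.2.2)))
      ((μa.prod μb).prod (μc.prod μd)) ((μa.prod μc).prod (μb.prod μd)) := by
  have A1 := measurePreserving_prodAssoc μa μb (μc.prod μd)
  have A2 := (MeasurePreserving.id μa).prod
    (measurePreserving_prodAssoc μb μc μd).symm
  have A3 := (MeasurePreserving.id μa).prod
    ((Measure.measurePreserving_swap (μ := μb) (ν := μc)).prod (MeasurePreserving.id μd))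
  have A4 := (MeasurePreserving.id μa).prod (measurePreserving_prodAssoc μc μb μd)
  have A5 := (measurePreserving_prodAssoc μa μc (μb.prod μd)).symm
  have h := A5.comp (A4.comp (A3.comp (A2.comp A1)))
  exact h

/-- polar coordinates for a pair of points -/
def th (z : (Ioi (0 : ℝ) × Ioi (0 : ℝ)) × (Sph × Sph)) : E3 × E3 :=
  (((z.1.1 : ℝ) • (z.2.1 : E3)), ((z.1.2 : ℝ) • (z.2.2 : E3)))

/-- polar coordinates, radius first -/
def pm' (z : Ioi (0 : ℝ) × Sph) : E3 := (z.1 : ℝ) • (z.2 : E3)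

theorem pm'_mp : MeasurePreserving pm' (nu.prod sg) (volume : Measure E3) :=
  pm_mp.comp Measure.measurePreserving_swap

theorem th_mp : MeasurePreserving th ((nu.prod nu).prod (sg.prod sg))
    ((volume : Measure E3).prod (volume : Measure E3)) :=
  (pm'_mp.prod pm'_mp).comp (shuffle_mp nu nu sg sg)

/-! ### Cauchy-Schwarz -/

theorem cs {α : Type*} [MeasurableSpace α] {μ : Measure α} {f g : α → ℝ} (hf : MemLp f 2 μ)
    (hg : MemLp g 2 μ) : |∫ x, f x * g x ∂μ| ≤ √(∫ x, f x ^ 2 ∂μ) * √(∫ x, g x ^ 2 ∂μ) := by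
  have h := integral_mul_le_Lp_mul_Lq_of_nonneg (μ := μ) Real.HolderConjugate.two_two
    (f := fun x => |f x|) (g := fun x => |g x|) (Eventually.of_forall fun x => abs_nonneg _)
    (Eventually.of_forall fun x => abs_nonneg _)
    (by rw [show ENNReal.ofReal 2 = 2 by norm_num]; exact hf.abs)
    (by rw [show ENNReal.ofReal 2 = 2 by norm_num]; exact hg.abs)
  have e : ∀ x : ℝ, |x| ^ (2 : ℝ) = x ^ 2 := fun x => by
    rw [Real.rpow_two, sq_abs]
  simp only [e, ← Real.sqrt_eq_rpow] at h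
  refine le_trans ?_ h
  rw [← Real.norm_eq_abs]
  refine (norm_integral_le_integral_norm _).trans (le_of_eq ?_)
  refine integral_congr_ae (Eventually.of_forall fun x => ?_)
  simp only [norm_mul, Real.norm_eq_abs]

/-! ### integrability on `E3 × E3` -/

theorem nrm_fin {r0 : ℝ} {f : E3 → ℝ} (hf : MemLp f 2) (hf0 : ∀ x, r0 < ‖x‖ → f x = 0) :
    nrm (6 / 5) (fun x => ENNReal.ofReal |f x|) < ∞ := by
  unfold nrm
  refine ENNReal.rpow_lt_top_of_nonneg (by norm_num) (ne_of_lt ?_)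
  have h1 : ∀ x, ENNReal.ofReal |f x| ^ (6 / 5 : ℝ) ≤
      (Metric.closedBall (0 : E3) r0).indicator (fun _ => (1 : ℝ≥0∞)) x +
        ENNReal.ofReal (f x ^ 2) := by
    intro x
    by_cases hx : r0 < ‖x‖
    · rw [hf0 x hx]; simp
    · have hmem : x ∈ Metric.closedBall (0 : E3) r0 := by
        rw [mem_closedBall_zero_iff]; exact not_lt.1 hx
      rw [indicator_of_mem hmem, ← sq_abs, ENNReal.ofReal_pow (abs_nonneg _)]
      rcases le_total (ENNReal.ofReal |f x|) 1 with h | h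
      · calc ENNReal.ofReal |f x| ^ (6 / 5 : ℝ) ≤ 1 := by
              have := ENNReal.rpow_le_rpow h (by norm_num : (0 : ℝ) ≤ 6 / 5)
              simpa using this
          _ ≤ _ := le_self_add
      · calc ENNReal.ofReal |f x| ^ (6 / 5 : ℝ) ≤ ENNReal.ofReal |f x| ^ (2 : ℝ) :=
              ENNReal.rpow_le_rpow_of_exponent_le h (by norm_num)
          _ = ENNReal.ofReal |f x| ^ 2 := by norm_num
          _ ≤ _ := le_add_self
  refine lt_of_le_of_lt (lintegral_mono h1) ?_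
  rw [lintegral_add_left (measurable_const.indicator Metric.isClosed_closedBall.measurableSet),
    lintegral_indicator Metric.isClosed_closedBall.measurableSet]
  refine ENNReal.add_lt_top.2 ⟨?_, ?_⟩
  · have h2 : volume (Metric.closedBall (0 : E3) r0) < ∞ :=
      (isCompact_closedBall (0 : E3) r0).measure_lt_top
    simpa using h2
  · exact hf.integrable_sq.lintegral_lt_top

theorem Phi_int (hBIL : S_BIL) {κ : ℝ} (hκ : 0 ≤ κ) (m : ℕ) {r0 : ℝ} (hr0 : 0 < r0) {f g : E3 → ℝ}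
    (hf : MemLp f 2) (hg : MemLp g 2) (hf0 : ∀ x, r0 < ‖x‖ → f x = 0)
    (hg0 : ∀ x, r0 < ‖x‖ → g x = 0) :
    Integrable (fun z : E3 × E3 => f z.1 * wK κ m z.1 z.2 * g z.2)
      ((volume : Measure E3).prod volume) := by
  obtain ⟨C, hC⟩ := hBIL
  refine ⟨(hf.1.comp_fst.mul (Pool.Agent.H690.HK.wK_meas κ m).aestronglyMeasurable).mul
    hg.1.comp_snd, ?_⟩
  have hball : MeasurableSet (Metric.closedBall (0 : E3) r0) :=
    Metric.isClosed_closedBall.measurableSet
  have key : ∀ {h : E3 → ℝ}, MemLp h 2 → (∀ x, r0 < ‖x‖ → h x = 0) →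
      ∃ H : E3 → ℝ≥0∞, Measurable H ∧ (∀ x, r0 < ‖x‖ → H x = 0) ∧
        (fun x => ENNReal.ofReal |h x|) =ᵐ[volume] H := by
    intro h hh hh0
    have ham : AEMeasurable (fun x => ENNReal.ofReal |h x|) :=
      hh.1.aemeasurable.norm.ennreal_ofReal
    refine ⟨(Metric.closedBall (0 : E3) r0).indicator (ham.mk _), ham.measurable_mk.indicator hball,
      ?_, ?_⟩
    · intro x hx
      refine indicator_of_notMem ?_ _
      rw [mem_closedBall_zero_iff]; exact not_le.2 hx
    · filter_upwards [ham.ae_eq_mk] with x hx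
      by_cases hm : x ∈ Metric.closedBall (0 : E3) r0
      · rw [indicator_of_mem hm, ← hx]
      · rw [indicator_of_notMem hm]
        rw [mem_closedBall_zero_iff, not_le] at hm
        simp [hh0 x hm]
  obtain ⟨F, hFm, hF0, hFe⟩ := key hf hf0
  obtain ⟨G, hGm, hG0, hGe⟩ := key hg hg0
  have hb := (hC κ m r0 hκ hr0 F G hFm hGm hF0 hG0).1
  have eF : nrm (6 / 5) F = nrm (6 / 5) (fun x => ENNReal.ofReal |f x|) := by
    unfold nrm
    congr 1
    refine lintegral_congr_ae ?_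
    filter_upwards [hFe] with x hx
    rw [← hx]
  have eG : nrm (6 / 5) G = nrm (6 / 5) (fun x => ENNReal.ofReal |g x|) := by
    unfold nrm
    congr 1
    refine lintegral_congr_ae ?_
    filter_upwards [hGe] with x hx
    rw [← hx]
  have hfin : ∫⁻ x, ∫⁻ y, F x * ENNReal.ofReal |wK κ m x y| * G y < ∞ := by
    refine lt_of_le_of_lt hb ?_
    rw [eF, eG]
    exact ENNReal.mul_lt_top (ENNReal.mul_lt_top ENNReal.coe_lt_top (nrm_fin hf hf0))
      (nrm_fin hg hg0)
  have hmeas : Measurable fun z : E3 × E3 => F z.1 * ENNReal.ofReal |wK κ m z.1 z.2| * G z.2 :=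
    ((hFm.comp measurable_fst).mul
      ((Pool.Agent.H690.HK.wK_meas κ m).norm.ennreal_ofReal)).mul (hGm.comp measurable_snd)
  unfold HasFiniteIntegral
  rw [← lintegral_prod _ hmeas.aemeasurable] at hfin
  refine lt_of_le_of_lt (le_of_eq ?_) hfin
  refine lintegral_congr_ae ?_
  have q1 : ∀ᵐ z ∂((volume : Measure E3).prod (volume : Measure E3)),
      ENNReal.ofReal |f z.1| = F z.1 := Measure.quasiMeasurePreserving_fst.ae hFe
  have q2 : ∀ᵐ z ∂((volume : Measure E3).prod (volume : Measure E3)),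
      ENNReal.ofReal |g z.2| = G z.2 := Measure.quasiMeasurePreserving_snd.ae hGe
  filter_upwards [q1, q2] with z h1 h2
  rw [← h1, ← h2, ← ofReal_norm, norm_mul, norm_mul, ENNReal.ofReal_mul (by positivity),
    ENNReal.ofReal_mul (by positivity)]
  rfl

/-! ### slices -/

/-- the norm of the slice -/
def NN2 (f : E3 → ℝ) (r : ℝ) : ℝ := √(∫ w : Sph, f (r • (w : E3)) ^ 2 ∂sg)

theorem slice {f : E3 → ℝ} (hf : MemLp f 2) :
    ∀ᵐ r : Ioi (0 : ℝ) ∂nu, MemLp (fun w : Sph => f ((r : ℝ) • (w : E3))) 2 sg := by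
  have h1 : MemLp (f ∘ pm') 2 (nu.prod sg) := hf.comp_measurePreserving pm'_mp
  have h2 := h1.integrable_sq
  have h3 := h1.1.prodMk_left
  filter_upwards [h2.prod_right_ae, h3] with r h4 h5
  exact (memLp_two_iff_integrable_sq h5).2 h4

theorem NN2_sq (f : E3 → ℝ) (r : ℝ) : NN2 f r ^ 2 = ∫ w : Sph, f (r • (w : E3)) ^ 2 ∂sg :=
  Real.sq_sqrt (integral_nonneg fun _ => sq_nonneg _)

theorem NN2_memLp {f : E3 → ℝ} (hf : MemLp f 2) :
    MemLp (fun r : Ioi (0 : ℝ) => NN2 f r) 2 nu ∧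
      ∫ r : Ioi (0 : ℝ), NN2 f r ^ 2 ∂nu = ∫ x, f x ^ 2 := by
  have h1 : MemLp (f ∘ pm') 2 (nu.prod sg) := hf.comp_measurePreserving pm'_mp
  have h2 : Integrable (fun z => (f ∘ pm') z ^ 2) (nu.prod sg) := h1.integrable_sq
  have h3 : Integrable (fun r : Ioi (0 : ℝ) => ∫ w : Sph, f ((r : ℝ) • (w : E3)) ^ 2 ∂sg) nu :=
    h2.integral_prod_left
  have h4 : AEStronglyMeasurable (fun r : Ioi (0 : ℝ) => NN2 f r) nu :=
    (Real.continuous_sqrt.comp_aestronglyMeasurable h3.1)
  refine ⟨(memLp_two_iff_integrable_sq h4).2 ?_, ?_⟩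
  · simp only [NN2_sq]; exact h3
  · simp only [NN2_sq]
    have h5 : ∫ z, (f ∘ pm') z ^ 2 ∂(nu.prod sg) =
        ∫ r : Ioi (0 : ℝ), ∫ w : Sph, f ((r : ℝ) • (w : E3)) ^ 2 ∂sg ∂nu := integral_prod _ h2
    rw [← h5]
    have h6 : ∫ x, f x ^ 2 = ∫ x, f x ^ 2 ∂(Measure.map pm' (nu.prod sg)) := by
      rw [pm'_mp.map_eq]
    rw [h6, integral_map pm'_mp.measurable.aemeasurable]
    · rfl
    · rw [pm'_mp.map_eq]; exact hf.integrable_sq.1

end Pool.Agent.H196.HK
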