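import Mathlib
import Pool.Agent.H998.HK.Spec

/-! # HK project, task TAYLOR: the complex extension of the Yukawa kernel -/

set_option autoImplicit false

noncomputable section

namespace Pool.Agent.H196.HK

open Pool.Agent.H998.HK
open MeasureTheory Filter Topology Set
open scoped ENNReal NNReal RealInnerProductSpace

/-- principal square root -/
def sq (w : ℂ) : ℂ := Complex.exp (Complex.log w / 2)

theorem sq_sq {w : ℂ} (hw : w ≠ 0) : sq w ^ 2 = w := by
  rw [sq, ← Complex.exp_nat_mul]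
  have : ((2 : ℕ) : ℂ) * (Complex.log w / 2) = Complex.log w := by push_cast; ring
  rw [this, Complex.exp_log hw]

theorem sq_ne_zero (w : ℂ) : sq w ≠ 0 := Complex.exp_ne_zero _

theorem sq_re_pos {w : ℂ} (hw : w ∈ Complex.slitPlane) : 0 < (sq w).re := by
  rw [sq, Complex.exp_re]
  refine mul_pos (Real.exp_pos _) (Real.cos_pos_of_mem_Ioo ?_)
  have h1 := Complex.neg_pi_lt_arg w
  have h2 := Complex.mem_slitPlane_iff_arg.1 hw
  have h3 : Complex.arg w < Real.pi := lt_of_le_of_ne (Complex.arg_le_pi w) h2.1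
  have h4 : (Complex.log w / 2).im = Complex.arg w / 2 := by
    have : Complex.log w / 2 = ((1 / 2 : ℝ) : ℂ) * Complex.log w := by push_cast; ring
    rw [this, Complex.im_ofReal_mul, Complex.log_im]
    ring
  rw [h4]
  constructor <;> linarith

theorem sq_normSq {w : ℂ} (hw : w ≠ 0) : ‖sq w‖ ^ 2 = ‖w‖ := by
  rw [← norm_pow, sq_sq hw]

theorem sq_re_sq {w : ℂ} (hw : w ≠ 0) : (sq w).re ^ 2 = (‖w‖ + w.re) / 2 := by
  have h1 := sq_normSq hw
  have h2 := congrArg Complex.re (sq_sq hw)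
  rw [Complex.sq_norm, Complex.normSq_apply] at h1
  rw [sq] at h2
  have h3 : (sq w ^ 2).re = (sq w).re ^ 2 - (sq w).im ^ 2 := by
    rw [pow_two, Complex.mul_re]; ring
  rw [← sq, h3] at h2
  nlinarith

theorem hasDerivAt_sq {w : ℂ} (hw : w ∈ Complex.slitPlane) : DifferentiableAt ℂ sq w := by
  unfold sq
  have := Complex.differentiableAt_log hw
  fun_prop

theorem sq_ofReal {σ : ℝ} (hσ : 0 < σ) : sq (σ : ℂ) = ((√σ : ℝ) : ℂ) := by
  rw [sq, ← Complex.ofReal_log hσ.le]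
  have h1 : Complex.exp ((Real.log σ : ℂ) / 2) = ((Real.exp (Real.log σ / 2) : ℝ) : ℂ) := by
    push_cast; rfl
  rw [h1]
  congr 1
  have h2 : (Real.exp (Real.log σ / 2)) ^ 2 = σ := by
    rw [← Real.exp_nat_mul]
    have : ((2 : ℕ) : ℝ) * (Real.log σ / 2) = Real.log σ := by push_cast; ring
    rw [this, Real.exp_log hσ]
  rw [← Real.sqrt_sq (Real.exp_pos (Real.log σ / 2)).le, h2]

/-- complex extension of `yukR` -/
def Phi (κ : ℝ) (w : ℂ) : ℂ := Complex.exp (-((κ : ℂ) * sq w)) / (4 * Real.pi * sq w)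

theorem Phi_ofReal {κ σ : ℝ} (hσ : 0 < σ) : Phi κ (σ : ℂ) = ((yukR κ σ : ℝ) : ℂ) := by
  rw [Phi, sq_ofReal hσ, yukR]
  push_cast
  rfl

theorem Phi_diff (κ : ℝ) : DifferentiableOn ℂ (Phi κ) Complex.slitPlane := by
  intro w hw
  have h1 := hasDerivAt_sq hw
  have h2 : (4 * (Real.pi : ℂ) * sq w) ≠ 0 :=
    mul_ne_zero (mul_ne_zero (by norm_num) (Complex.ofReal_ne_zero.2 Real.pi_ne_zero)) (sq_ne_zero w)
  unfold Phi
  have : DifferentiableAt ℂ (fun w => Complex.exp (-((κ : ℂ) * sq w)) / (4 * Real.pi * sq w)) w := by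
    fun_prop (disch := assumption)
  exact this.differentiableWithinAt

theorem norm_Phi (κ : ℝ) (w : ℂ) :
    ‖Phi κ w‖ = Real.exp (-(κ * (sq w).re)) / (4 * Real.pi * ‖sq w‖) := by
  rw [Phi, norm_div, Complex.norm_exp, norm_mul, norm_mul, Complex.norm_real,
    Real.norm_of_nonneg Real.pi_pos.le]
  simp

theorem Phi_anal (κ : ℝ) (n : ℕ) : AnalyticOnNhd ℂ (iteratedDeriv n (Phi κ)) Complex.slitPlane := by
  rw [iteratedDeriv_eq_iterate]
  exact ((Phi_diff κ).analyticOnNhd Complex.isOpen_slitPlane).iterated_deriv n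

theorem Phi_hasDerivAt (κ : ℝ) (n : ℕ) {w : ℂ} (hw : w ∈ Complex.slitPlane) :
    HasDerivAt (iteratedDeriv n (Phi κ)) (iteratedDeriv (n + 1) (Phi κ) w) w := by
  rw [iteratedDeriv_succ]
  exact ((Phi_anal κ n) w hw).differentiableAt.hasDerivAt

theorem iteratedDeriv_Phi (κ : ℝ) (n : ℕ) : ∀ σ : ℝ, 0 < σ →
    iteratedDeriv n (Phi κ) (σ : ℂ) = ((iteratedDeriv n (yukR κ) σ : ℝ) : ℂ) := by
  induction n with
  | zero => intro σ hσ; simpa using Phi_ofReal hσ
  | succ n ih =>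
    intro σ hσ
    have hs : (σ : ℂ) ∈ Complex.slitPlane := Complex.ofReal_mem_slitPlane.2 hσ
    have h1 := (Phi_hasDerivAt κ n hs).comp_ofReal
    have h1r := (Phi_hasDerivAt κ n hs).real_of_complex
    have hnh : ∀ᶠ y : ℝ in 𝓝 σ, 0 < y := lt_mem_nhds hσ
    have h2 : (fun y : ℝ => iteratedDeriv n (Phi κ) (y : ℂ)) =ᶠ[𝓝 σ]
        fun y : ℝ => ((iteratedDeriv n (yukR κ) y : ℝ) : ℂ) := by
      filter_upwards [hnh] with y hy using ih y hy
    have h2r : (fun y : ℝ => (iteratedDeriv n (Phi κ) (y : ℂ)).re) =ᶠ[𝓝 σ]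
        fun y : ℝ => iteratedDeriv n (yukR κ) y := by
      filter_upwards [hnh] with y hy
      rw [ih y hy, Complex.ofReal_re]
    have h3 : HasDerivAt (iteratedDeriv n (yukR κ)) (iteratedDeriv (n + 1) (yukR κ) σ) σ := by
      rw [iteratedDeriv_succ]
      exact (h1r.congr_of_eventuallyEq h2r.symm).differentiableAt.hasDerivAt
    have h4 := h3.ofReal_comp
    exact (h1.congr_of_eventuallyEq h2.symm).unique h4

end Pool.Agent.H196.HK
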